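import Pool.Agent.Lib.MP_cb1d9b_co.Blue

set_option linter.unusedSectionVars false

namespace CB1
open Finset

variable {α : Type} [DecidableEq α]

theorem blk_CHI (h1 : St_T1 α) : St_CHI α := by
  intro G S V hm
  have hc := charge_eq G S V
  have hr := hm.rho_ge (subset_refl V)
  set I := AA G S V 3 with hI
  set P := AA G S V 4 with hP
  set M := NI G S V with hM
  have hIV : I ⊆ V := AA_subset G S V 3
  have hPV : P ⊆ V := AA_subset G S V 4
  have hMS : ∀ z ∈ M, z ∈ V ∧ z ∈ S := by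
    intro z hz
    obtain ⟨hzV, x, hx, hzx⟩ := mem_NI.1 hz
    exact ⟨hzV, h1 G S V hm x hx z hzV hzx.symm⟩
  have hIM : Disjoint I M := disjoint_left.2 fun v hv hv' => (mem_AA.1 hv).2.1 (hMS v hv').2
  have hIP : Disjoint I P := disjoint_left.2 fun v hv hv' => by
    have a := (mem_AA.1 hv).2.2
    have b := (mem_AA.1 hv').2.2
    omega
  have hsub : I ∪ M ⊆ V \ P := by
    intro v hv
    rcases mem_union.1 hv with hv | hv
    · exact mem_sdiff.2 ⟨hIV hv, disjoint_left.1 hIP hv⟩
    · exact mem_sdiff.2 ⟨(hMS v hv).1, fun h => (mem_AA.1 h).2.1 (hMS v hv).2⟩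
  have hle := sum_le_sum_of_subset_of_nonneg
    (f := fun v => 14 * (dg G V v : ℤ) - 2 * wt S v - 2 * (dg G P v : ℤ)) hsub (by
      intro v hv hv'
      obtain ⟨hvV, hvP⟩ := mem_sdiff.1 hv
      have a1 : dg G P v ≤ dg G V v := dg_mono hPV v
      have a2 := hm.three_le_dg hvV
      by_cases hs : v ∈ S
      · rw [wt_S hs]; omega
      · have a3 : dg G V v ≠ 3 := fun e =>
          hv' (mem_union_left _ (mem_AA.2 ⟨hvV, hs, e⟩))
        have a4 : dg G V v ≠ 4 := fun e => hvP (mem_AA.2 ⟨hvV, hs, e⟩)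
        rw [wt_A hs]; omega)
  rw [sum_union hIM] at hle
  have e1 : ∑ v ∈ I, (14 * (dg G V v : ℤ) - 2 * wt S v - 2 * (dg G P v : ℤ))
      = -16 * (I.card : ℤ) := by
    rw [sum_congr rfl (g := fun _ => (-16 : ℤ))]
    · simp [mul_comm]
    · intro v hv
      obtain ⟨-, hS, hd⟩ := mem_AA.1 hv
      have a : dg G P v = 0 := by
        by_contra hne
        obtain ⟨u, hu, huv⟩ := exists_adj_of_dg_pos (G := G) (W := P) (v := v) (by omega)
        exact (mem_AA.1 hu).2.1 (h1 G S V hm v hv u (hPV hu) huv)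
      rw [hd, wt_A hS, a]; norm_num
  have e2 : ∑ v ∈ M, (14 * (dg G V v : ℤ) - 2 * wt S v - 2 * (dg G P v : ℤ))
      = ∑ z ∈ M, (12 * (dg G V z : ℤ) - 32) + 2 * (EE G M I : ℤ)
        + 2 * (EE G M (V \ (I ∪ P)) : ℤ) := by
    unfold EE
    push_cast
    rw [mul_sum, mul_sum, ← sum_add_distrib, ← sum_add_distrib]
    refine sum_congr rfl fun z hz => ?_
    have a1 := dg_sdiff_add (G := G) (union_subset hIV hPV) z
    rw [dg_union hIP] at a1
    rw [wt_S (hMS z hz).2]
    omega
  have e3 : EE G M I = 3 * I.card := by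
    rw [EE_comm]
    unfold EE
    rw [sum_congr rfl (g := fun _ => 3)]
    · simp [mul_comm]
    · intro x hx
      rw [← (mem_AA.1 hx).2.2]
      unfold dg
      congr 1
      ext u
      simp only [mem_nb]
      exact ⟨fun h => ⟨(hMS u h.1).1, h.2⟩, fun h => ⟨mem_NI.2 ⟨h.1, x, hx, h.2.symm⟩, h.2⟩⟩
  rw [e1, e2, e3] at hle
  push_cast at hle
  linarith

theorem blk_HH (h1 : St_T1 α) : St_HH α := by
  intro G S V a b hm ha hb hab hadj hne hall da db
  set I := AA G S V 3 with hI
  have hIV : I ⊆ V := AA_subset G S V 3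
  obtain ⟨x₀, hx₀⟩ := hne
  have aS : a ∈ S := h1 G S V hm x₀ hx₀ a ha (hall x₀ hx₀).1
  have bS : b ∈ S := h1 G S V hm x₀ hx₀ b hb (hall x₀ hx₀).2
  have aI : a ∈ V \ I := mem_sdiff.2 ⟨ha, fun h => (mem_AA.1 h).2.1 aS⟩
  have bI : b ∈ (V \ I).erase a :=
    mem_erase.2 ⟨hab.symm, mem_sdiff.2 ⟨hb, fun h => (mem_AA.1 h).2.1 bS⟩⟩
  have hW : ((V \ I).erase a).erase b ⊆ V \ I := (erase_subset _ _).trans (erase_subset _ _)
  obtain ⟨c, hc⟩ := hm.colb (hW.trans sdiff_subset) (fun e => notMem_erase b _ (e.symm ▸ hb))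
  obtain ⟨k, hk⟩ := exists_col_avoid c (X := nb G (V \ I) a ∪ nb G (V \ I) b)
    ((card_union_le _ _).trans (by unfold dg at da db; omega))
  have v1 := hc.insert_free (notMem_erase b _) (k := k) fun v hv hbv =>
    hk v (mem_union_right _ (mem_nb.2 ⟨hW hv, hbv⟩))
  rw [insert_erase bI] at v1
  have v2 := v1.insert_free (notMem_erase a _) (k := k) fun v hv hav => by
    have hvb : v ≠ b := fun e => hadj (e ▸ hav)
    rw [Function.update_of_ne hvb]
    exact hk v (mem_union_left _ (mem_nb.2 ⟨erase_subset _ _ hv, hav⟩))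
  rw [insert_erase aI] at v2
  have key : ∀ J : Finset α, J ⊆ I → ∃ c, Valid G S (J ∪ (V \ I)) c ∧ c a = c b := by
    intro J
    induction J using Finset.induction_on with
    | empty =>
      intro _
      refine ⟨_, by rw [empty_union]; exact v2, ?_⟩
      rw [Function.update_self, Function.update_of_ne hab.symm, Function.update_self]
    | insert x J hxJ ih =>
      intro hJ
      have hx : x ∈ I := hJ (mem_insert_self _ _)
      have hJ' : J ⊆ I := (subset_insert _ _).trans hJ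
      obtain ⟨c, hc, hcab⟩ := ih hJ'
      obtain ⟨xa, xb⟩ := hall x hx
      have hd := (mem_AA.1 hx).2.2
      obtain ⟨k, hk⟩ := exists_col_avoid c (X := (nb G V x).erase b) (by
        rw [card_erase_of_mem (mem_nb.2 ⟨hb, xb⟩)]; unfold dg at hd; omega)
      have hxn : x ∉ J ∪ (V \ I) := by
        rw [mem_union, mem_sdiff]
        rintro (h | h)
        · exact hxJ h
        · exact h.2 hx
      refine ⟨Function.update c x k, ?_, ?_⟩
      · rw [insert_union]
        refine hc.insert_free hxn fun v hv hxv => ?_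
        have hvV : v ∈ V := union_subset (hJ'.trans hIV) sdiff_subset hv
        by_cases e : v = b
        · rw [e, ← hcab]
          exact hk a (mem_erase.2 ⟨hab, mem_nb.2 ⟨ha, xa⟩⟩)
        · exact hk v (mem_erase.2 ⟨e, mem_nb.2 ⟨hvV, hxv⟩⟩)
      · rw [Function.update_of_ne xa.ne.symm, Function.update_of_ne xb.ne.symm, hcab]
  obtain ⟨c', hc', -⟩ := key I (subset_refl _)
  rw [union_sdiff_of_subset hIV] at hc'
  exact hm.ncol ⟨c', hc'⟩

end CB1
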