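import Pool.Agent.Lib.MP_cb1d9b_co.Blue

set_option linter.unusedSectionVars false

namespace CB1
open Finset

variable {α : Type} [DecidableEq α]

namespace CONTR

/-- the graph obtained by contracting the colour classes of `W` to three hubs -/
def hub (G : SimpleGraph α) (W : Finset α) (c : α → Fin 3) (h : Fin 3 → α)
    (hi : Function.Injective h) (hW : ∀ i, h i ∈ W) : SimpleGraph α where
  Adj u v := (u ∉ W ∧ v ∉ W ∧ G.Adj u v) ∨ (u ∉ W ∧ ∃ y ∈ W, v = h (c y) ∧ G.Adj u y) ∨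
    (v ∉ W ∧ ∃ y ∈ W, u = h (c y) ∧ G.Adj v y) ∨ ∃ i j, i ≠ j ∧ u = h i ∧ v = h j
  symm := ⟨by
    rintro u v (⟨a, b, e⟩ | e | e | ⟨i, j, a, b, e⟩)
    · exact .inl ⟨b, a, e.symm⟩
    · exact .inr (.inr (.inl e))
    · exact .inr (.inl e)
    · exact .inr (.inr (.inr ⟨j, i, a.symm, e, b⟩))⟩
  loopless := ⟨by
    rintro u (⟨a, b, e⟩ | ⟨a, y, -, rfl, -⟩ | ⟨a, y, -, rfl, -⟩ | ⟨i, j, a, b, e⟩)
    · exact G.irrefl e
    · exact a (hW _)
    · exact a (hW _)
    · exact a (hi (b.symm.trans e))⟩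

variable {G : SimpleGraph α} {S : Set α} {V W : Finset α} {c : α → Fin 3} {h : Fin 3 → α}
  {hi : Function.Injective h} {hW : ∀ i, h i ∈ W}

lemma adj_out {u v : α} (hu : u ∉ W) (hv : v ∉ W) :
    (hub G W c h hi hW).Adj u v ↔ G.Adj u v := by
  refine ⟨?_, fun e => .inl ⟨hu, hv, e⟩⟩
  rintro (⟨a, b, e⟩ | ⟨a, y, -, rfl, -⟩ | ⟨a, y, -, rfl, -⟩ | ⟨i, j, a, rfl, e⟩)
  · exact e
  · exact absurd (hW _) hv
  · exact absurd (hW _) hu
  · exact absurd (hW _) hu

lemma lift (hc : Valid G S W c)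
    (h' : Colb (hub G W c h hi hW) (S ∪ Set.range h) (V \ W ∪ univ.image h)) : Colb G S V := by
  obtain ⟨c', h1, h2⟩ := h'
  have mh : ∀ i, h i ∈ V \ W ∪ univ.image h := fun i =>
    mem_union_right _ (mem_image_of_mem h (mem_univ i))
  have mo : ∀ u ∈ V, u ∉ W → u ∈ V \ W ∪ univ.image h := fun u a b =>
    mem_union_left _ (mem_sdiff.2 ⟨a, b⟩)
  have inj : ∀ i j, c' (h i) = c' (h j) → i = j := fun i j e => by
    by_contra hne
    exact h1 _ (mh i) _ (mh j) (.inr (.inr (.inr ⟨i, j, hne, rfl, rfl⟩))) (.inr ⟨i, rfl⟩) e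
  have cross : ∀ u ∈ V, u ∉ W → ∀ y ∈ W, G.Adj u y → c' (h (c y)) ≠ c' u := fun u a b y hy e =>
    h1 _ (mh _) _ (mo u a b) (.inr (.inr (.inl ⟨b, y, hy, rfl, e⟩))) (.inr ⟨_, rfl⟩)
  refine ⟨fun v => if v ∈ W then c' (h (c v)) else c' v, ?_, ?_⟩
  · intro u hu v hv e hS
    beta_reduce
    split_ifs with a b b
    · exact fun e' => hc.1 u a v b e hS (inj _ _ e')
    · exact cross v hv b u a e.symm
    · exact (cross u hu a v b e).symm
    · exact h1 u (mo u hu a) v (mo v hv b) (.inl ⟨a, b, e⟩) (.inl hS)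
  · intro u hu v hv w hw e e' c1 c2
    beta_reduce at c1 c2
    by_cases a : u ∈ W
    · have k : ∀ v ∈ V, G.Adj u v →
          (if v ∈ W then c' (h (c v)) else c' v) = (if u ∈ W then c' (h (c u)) else c' u) →
          v ∈ W ∧ c v = c u := fun v hv e c1 => by
        rw [if_pos a] at c1
        by_cases b : v ∈ W
        · rw [if_pos b] at c1
          exact ⟨b, inj _ _ c1⟩
        · rw [if_neg b] at c1
          exact absurd c1.symm (cross v hv b u a e.symm)
      obtain ⟨b1, b2⟩ := k v hv e c1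
      obtain ⟨d1, d2⟩ := k w hw e' c2
      exact hc.2 u a v b1 w d1 e e' b2 d2
    · have k : ∀ v ∈ V, G.Adj u v →
          (if v ∈ W then c' (h (c v)) else c' v) = (if u ∈ W then c' (h (c u)) else c' u) →
          v ∉ W ∧ c' v = c' u := fun v hv e c1 => by
        rw [if_neg a] at c1
        by_cases b : v ∈ W
        · rw [if_pos b] at c1
          exact absurd c1 (cross u hu a v b e)
        · rw [if_neg b] at c1
          exact ⟨b, c1⟩
      obtain ⟨b1, b2⟩ := k v hv e c1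
      obtain ⟨d1, d2⟩ := k w hw e' c2
      exact h2 u (mo u hu a) v (mo v hv b1) w (mo w hw d1) (.inl ⟨a, b1, e⟩) (.inl ⟨a, d1, e'⟩)
        b2 d2

lemma rho_out {K : Finset α} (hK : ∀ u ∈ K, u ∉ W) :
    rho (hub G W c h hi hW) (S ∪ Set.range h) K = rho G S K := by
  unfold rho
  congr 1
  · refine sum_congr rfl fun v hv => ?_
    by_cases hS : v ∈ S
    · rw [wt_S hS, wt_S (Set.mem_union_left _ hS)]
    · rw [wt_A hS, wt_A]
      rintro (a | ⟨i, rfl⟩)
      exacts [hS a, hK _ hv (hW i)]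
  · congr 2
    refine sum_congr rfl fun v hv => ?_
    unfold dg
    congr 1
    ext u
    simp only [mem_nb]
    exact and_congr_right fun hu => adj_out (hK v hv) (hK u hu)

lemma dg_hub {Kh : Finset α} (hK : Kh ⊆ W) {u : α} (hu : u ∉ W) :
    dg (hub G W c h hi hW) Kh u ≤ dg G W u := by
  refine le_trans (card_le_card fun v hv => ?_) (card_image_le (f := fun y => h (c y)))
  obtain ⟨a, b⟩ := mem_nb.1 hv
  rcases b with ⟨-, b, -⟩ | ⟨-, y, hy, rfl, e⟩ | ⟨b, -⟩ | ⟨i, j, -, rfl, -⟩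
  · exact absurd (hK a) b
  · exact mem_image_of_mem _ (mem_nb.2 ⟨hy, e⟩)
  · exact absurd (hK a) b
  · exact absurd (hW _) hu

end CONTR

theorem blk_CONTR : St_CONTR α := by
  intro G S V W hm hWV hne h4
  obtain ⟨c, hc⟩ := hm.colb hWV hne
  let h : Fin 3 → α := fun i => (W.equivFin.symm (Fin.castLE (by omega) i)).1
  have hW : ∀ i, h i ∈ W := fun i => Subtype.prop _
  have hi : Function.Injective h := fun i j e =>
    Fin.castLE_injective _ (W.equivFin.symm.injective (Subtype.ext e))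
  have h3 : (univ.image h).card = 3 := by rw [card_image_of_injective _ hi]; simp
  have hlt : (V \ W ∪ univ.image h).card < V.card := by
    have a := card_union_le (V \ W) (univ.image h)
    have b := card_sdiff_add_card_eq_card hWV
    omega
  obtain ⟨K', hK', hd⟩ := hm.exists_dense hlt fun h' =>
    hm.ncol (CONTR.lift (hi := hi) (hW := hW) hc h')
  have hsub : K' \ W ⊆ V \ W := fun u hu => by
    obtain ⟨a, b⟩ := mem_sdiff.1 hu
    rcases mem_union.1 (hK' a) with e | e
    · exact e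
    · obtain ⟨i, -, rfl⟩ := mem_image.1 e
      exact absurd (hW i) b
  have hout : ∀ u ∈ K' \ W, u ∉ W := fun u hu => (mem_sdiff.1 hu).2
  have hle : (K' ∩ W).card ≤ 3 := by
    rw [← h3]
    refine card_le_card fun u hu => ?_
    obtain ⟨a, b⟩ := mem_inter.1 hu
    exact (mem_union.1 (hK' a)).resolve_left fun e => (mem_sdiff.1 e).2 b
  have e0 := CONTR.rho_out (G := G) (S := S) (c := c) (hi := hi) (hW := hW) hout
  have e1 := rho_union (G := CONTR.hub G W c h hi hW) (S := S ∪ Set.range h)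
    (disjoint_sdiff_inter K' W)
  rw [sdiff_union_inter, e0] at e1
  have e2 := rho_union (G := G) (S := S) (disjoint_sdiff (s := W) (t := K'))
  rw [EE_comm] at e2
  have e3 : EE (CONTR.hub G W c h hi hW) (K' \ W) (K' ∩ W) ≤ EE G (K' \ W) W :=
    sum_le_sum fun u hu => CONTR.dg_hub inter_subset_right (hout u hu)
  have e4 := card_sdiff_add_card_inter K' W
  refine ⟨K' \ W, hsub, ?_⟩
  rcases (K' ∩ W).eq_empty_or_nonempty with h0 | h0
  · refine absurd ?_ (hm.sp (K' \ W) (hsub.trans sdiff_subset))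
    rw [h0] at e1 e4
    simp only [rho_empty, EE_empty_right, card_empty] at e1 e4
    unfold Dense at hd ⊢
    omega
  · unfold Dense at hd
    by_cases h2 : (K' ∩ W).card ≤ 2
    · have := rho_le_two (G := CONTR.hub G W c h hi hW) (S := S ∪ Set.range h) h0 h2
      omega
    · have := (rho_three (G := CONTR.hub G W c h hi hW) (S := S ∪ Set.range h)
        (W := K' ∩ W) (by omega)).1
      omega

end CB1
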