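import Pool.Agent.Lib.MP_cb1d9b_co.Blue

set_option linter.unusedSectionVars false

namespace CB1
open Finset

variable {α : Type} [DecidableEq α]

namespace DEF

lemma tk_empty (Y : Finset α) : tk (∅ : Finset (α × α)) Y = 0 := by simp [tk]

lemma tk_le (T : Finset (α × α)) (Y : Finset α) : tk T Y ≤ T.card := card_filter_le _ _

lemma tk_empty_right (T : Finset (α × α)) : tk T ∅ = 0 := by simp [tk]

lemma tk_all {T : Finset (α × α)} {Y : Finset α} (h : ∀ t ∈ T, t.2 ∈ Y) : tk T Y = T.card := by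
  unfold tk; rw [filter_true_of_mem h]

lemma tok_empty (G : SimpleGraph α) (S : Set α) (F B : Finset α) (c : α → Fin 3) :
    Tok G S F B c ∅ := by
  constructor <;> simp

lemma types {G : SimpleGraph α} {S : Set α} {V Y : Finset α} (hY : Y ⊆ AA G S V 4) :
    ∀ p ∈ Y, p ∉ S ∧ dg G (V \ Y ∪ Y) p ≤ 4 := by
  intro p hp
  obtain ⟨-, h1, h2⟩ := mem_AA.1 (hY hp)
  rw [sdiff_union_of_subset (hY.trans (AA_subset G S V 4))]
  exact ⟨h1, h2.le⟩

lemma sdiff_ne {V Y : Finset α} (hY : Y ⊆ V) (hne : Y.Nonempty) : V \ Y ≠ V := by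
  obtain ⟨p, hp⟩ := hne
  intro e
  have : p ∈ V \ Y := e.symm ▸ hY hp
  exact (mem_sdiff.1 this).2 hp

end DEF

open DEF

theorem blk_DEF1 (hF : St_FL α) : St_DEF1 α := by
  intro G S V Y hm
  induction Y using Finset.strongInduction with
  | H Y ih =>
    intro hY hne
    by_contra hc
    have hYV : Y ⊆ V := hY.trans (AA_subset G S V 4)
    obtain ⟨c, hcv⟩ := hm.colb (sdiff_subset (s := V) (t := Y)) (sdiff_ne hYV hne)
    have := hF G S (V \ Y) Y c ∅ sdiff_disjoint hcv (types hY) (tok_empty _ _ _ _ _) (by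
      intro Y' hY'
      rw [tk_empty, tk_empty]
      rcases Y'.eq_empty_or_nonempty with rfl | hne'
      · rw [df_empty]; omega
      · by_cases e : Y' = Y
        · rw [e]
        · have := ih Y' (ssubset_of_subset_of_ne hY' e) (hY'.trans hY) hne'
          omega)
    rw [sdiff_union_of_subset hYV] at this
    exact hm.ncol this

theorem blk_DEF2 (hF : St_FL α) (hG : St_GAP α) (h1 : St_DEF1 α) : St_DEF2 α := by
  intro G S V Y q p hm hI hY hqV hqY hqS hp hqp
  by_contra hc
  have hYV : Y ⊆ V := hY.trans (AA_subset G S V 4)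
  have hne : V \ Y ≠ V := sdiff_ne hYV ⟨p, hp⟩
  have hqF : q ∈ V \ Y := mem_sdiff.2 ⟨hqV, hqY⟩
  by_cases hcol : Colb G (insert q S) (V \ Y)
  · obtain ⟨c, hcv⟩ := hcol
    have hT : Tok G S (V \ Y) Y c {(q, p)} := by
      constructor
      · intro t ht; rw [mem_singleton.1 ht]; exact hqF
      · intro t ht; rw [mem_singleton.1 ht]; exact hp
      · intro t ht; rw [mem_singleton.1 ht]; exact hqp
      · intro t ht; rw [mem_singleton.1 ht]; exact hqS
      · intro t ht v hv hadj
        rw [mem_singleton.1 ht] at hadj ⊢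
        exact (hcv.1 q hqF v hv hadj (Set.mem_insert q S)).symm
      · intro t ht t' ht' _; rw [mem_singleton.1 ht, mem_singleton.1 ht']
    have := hF G S (V \ Y) Y c {(q, p)} sdiff_disjoint (hcv.monoS (Set.subset_insert q S))
      (types hY) hT (by
        intro Y' hY'
        rw [tk_all (T := {(q, p)}) (Y := Y) hT.memB, card_singleton]
        rcases Y'.eq_empty_or_nonempty with rfl | hne'
        · rw [df_empty, tk_empty_right]; omega
        · have e1 := h1 G S V Y' hm (hY'.trans hY) hne'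
          have e2 := tk_le {(q, p)} Y'
          rw [card_singleton] at e2
          omega)
    rw [sdiff_union_of_subset hYV] at this
    exact hm.ncol this
  · obtain ⟨K, hK, hd⟩ := hm.exists_dense
      (card_lt_card (ssubset_of_subset_of_ne sdiff_subset hne)) hcol
    have hKV : K ⊆ V := hK.trans sdiff_subset
    by_cases hq : q ∈ K
    · have e := rho_token_mem (G := G) hq hqS
      have hKne : K ≠ V := by
        intro e'
        have : p ∈ V \ Y := hK (e'.symm ▸ hYV hp)
        exact (mem_sdiff.1 this).2 hp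
      obtain ⟨-, g | g | ⟨x, hx, -⟩⟩ := hG G S V K hm hKV hKne ⟨q, hq⟩
      · unfold Dense at hd; omega
      · exact hqS (g.2.1 q hq)
      · rw [hI] at hx; exact notMem_empty x hx
    · apply hm.sp K hKV
      unfold Dense at hd ⊢
      rwa [rho_token_not hq] at hd

theorem blk_ONE (hE : St_EXT α) : St_ONE α := by
  intro G S V hm hS hd
  have hPV : AA G S V 4 ⊆ V := AA_subset G S V 4
  have hv : Valid G S (V \ AA G S V 4) (fun _ => 0) := by
    refine ⟨fun u hu v hv huv hs => absurd hs (hS u hu v hv huv), ?_⟩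
    intro u hu v hv w hw h1 h2 _ _
    by_contra hne
    have := two_le_dg hv hw hne h1 h2
    have := hd u hu
    omega
  have := hE G S (V \ AA G S V 4) (AA G S V 4) (fun _ => 0) ∅ sdiff_disjoint hv
    (fun p hp => (mem_AA.1 hp).2.1) (tok_empty _ _ _ _ _) (by
      intro p hp
      have e1 := dg_sdiff_add (G := G) hPV p
      rw [(mem_AA.1 hp).2.2] at e1
      rw [tk_empty]
      have e2 : (hard G (V \ AA G S V 4) (fun _ => (0 : Fin 3)) ∅ p).card
          ≤ dg G (V \ AA G S V 4) p := card_image_le.trans (card_filter_le _ _)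
      have e3 : (hard G (V \ AA G S V 4) (fun _ => (0 : Fin 3)) ∅ p).card ≤ 1 := by
        rw [card_le_one]
        intro a ha b hb
        obtain ⟨_, -, rfl⟩ := mem_image.1 ha
        obtain ⟨_, -, rfl⟩ := mem_image.1 hb
        rfl
      omega)
  rw [sdiff_union_of_subset hPV] at this
  exact hm.ncol this

theorem blk_LAST (hF : St_FL α) (h1 : St_DEF1 α) (h2 : St_DEF2 α) : St_LAST α := by
  intro G S V y q1 q2 q3 hm hI hN y1 y2 y3 n12 n13 n23 s1 s2 s3 a12 a13 a23 hdf
  have hPV : AA G S V 4 ⊆ V := AA_subset G S V 4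
  set P := AA G S V 4 with hP
  let c : α → Fin 3 := fun v => if v = y then 1 else 0
  -- every edge inside `V \ P` contains `y`
  have hy : ∀ u ∈ V \ P, ∀ v ∈ V \ P, G.Adj u v → u = y ∨ v = y := by
    intro u hu v hv huv
    rw [hN] at hu hv
    simp only [mem_insert, mem_singleton] at hu hv
    have huv' := huv.symm
    rcases hu with rfl | rfl | rfl | rfl
    · exact Or.inl rfl
    all_goals
      rcases hv with rfl | rfl | rfl | rfl
      · exact Or.inr rfl
      all_goals first | exact absurd huv G.irrefl | contradiction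
  have hprop : ∀ u ∈ V \ P, ∀ v ∈ V \ P, G.Adj u v → c u ≠ c v := by
    intro u hu v hv huv
    have hne := huv.ne
    rcases hy u hu v hv huv with rfl | rfl
    · simp [c, hne.symm]
    · simp [c, hne]
  have hv : Valid G S (V \ P) c :=
    ⟨fun u hu v hv huv _ => hprop u hu v hv huv,
     fun u hu v hv _ _ h _ h3 _ => absurd h3.symm (hprop u hu v hv h)⟩
  have hq : ∀ q ∈ V \ P, q ≠ y → q ∉ S → ∃ p ∈ P, G.Adj q p := by
    intro q hqN hqy hqS
    obtain ⟨hqV, hqP⟩ := mem_sdiff.1 hqN
    have d3 := hm.three_le_dg hqV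
    have d1 : dg G (V \ P) q ≤ 1 := by
      unfold dg
      rw [card_le_one]
      intro a ha b hb
      obtain ⟨ha1, ha2⟩ := mem_nb.1 ha
      obtain ⟨hb1, hb2⟩ := mem_nb.1 hb
      rw [(hy q hqN a ha1 ha2).resolve_left hqy, (hy q hqN b hb1 hb2).resolve_left hqy]
    have e1 := dg_sdiff_add (G := G) hPV q
    exact exists_adj_of_dg_pos (by omega)
  have m2 : q2 ∈ V \ P := by rw [hN]; simp
  have m3 : q3 ∈ V \ P := by rw [hN]; simp
  obtain ⟨p2, hp2, b2⟩ := hq q2 m2 y2.symm s2
  obtain ⟨p3, hp3, b3⟩ := hq q3 m3 y3.symm s3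
  have hmem : ∀ t ∈ ({(q2, p2), (q3, p3)} : Finset (α × α)),
      t.1 ∈ V \ P ∧ t.2 ∈ P ∧ G.Adj t.1 t.2 ∧ t.1 ∉ S := by
    intro t ht
    rcases mem_insert.1 ht with rfl | ht
    · exact ⟨m2, hp2, b2, s2⟩
    · rw [mem_singleton.1 ht]; exact ⟨m3, hp3, b3, s3⟩
  have hT : Tok G S (V \ P) P c {(q2, p2), (q3, p3)} := by
    refine ⟨fun t ht => (hmem t ht).1, fun t ht => (hmem t ht).2.1,
      fun t ht => (hmem t ht).2.2.1, fun t ht => (hmem t ht).2.2.2,
      fun t ht v hv hadj => (hprop _ (hmem t ht).1 v hv hadj).symm, ?_⟩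
    intro t ht t' ht' e
    simp only [mem_insert, mem_singleton] at ht ht'
    rcases ht with rfl | rfl <;> rcases ht' with rfl | rfl
    · rfl
    · exact absurd e n23
    · exact absurd e.symm n23
    · rfl
  have hcard : ({(q2, p2), (q3, p3)} : Finset (α × α)).card = 2 :=
    card_pair (fun e => n23 (congrArg Prod.fst e))
  have := hF G S (V \ P) P c {(q2, p2), (q3, p3)} sdiff_disjoint hv (types subset_rfl) hT (by
    intro Y hY
    rw [tk_all (Y := P) hT.memB, hcard]
    have e2 := tk_le {(q2, p2), (q3, p3)} Y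
    rw [hcard] at e2
    by_cases e : tk {(q2, p2), (q3, p3)} Y = 0
    · rw [e]
      rcases Y.eq_empty_or_nonempty with rfl | hne
      · rw [df_empty]; omega
      · have := h1 G S V Y hm hY hne
        omega
    · obtain ⟨t, ht⟩ := card_pos.1 (Nat.pos_of_ne_zero e)
      obtain ⟨ht1, ht2⟩ := mem_filter.1 ht
      obtain ⟨k1, -, k3, k4⟩ := hmem t ht1
      have := h2 G S V Y t.1 t.2 hm hI hY (mem_sdiff.1 k1).1
        (fun hh => (mem_sdiff.1 k1).2 (hY hh)) k4 ht2 k3
      omega)
  rw [sdiff_union_of_subset hPV] at this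
  exact hm.ncol this

end CB1
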