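import Pool.Agent.Lib.MP_cb1d9b_co.Blue

set_option linter.unusedSectionVars false

namespace CB1
open Finset

variable {α : Type} [DecidableEq α]

namespace DIS0

lemma two_dg_le {G : SimpleGraph α} {W : Finset α} {u : α} (hu : u ∈ W) :
    2 * dg G W u ≤ DD G W := by
  have e := DD_insert (G := G) (notMem_erase u W)
  rw [insert_erase hu, dg_erase_not G.irrefl] at e
  omega

lemma sum_ge {W : Finset α} {f : α → ℕ} {k : ℕ} (h : ∀ v ∈ W, k ≤ f v) :
    k * W.card ≤ ∑ v ∈ W, f v := by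
  have := card_nsmul_le_sum W f k h
  simpa [mul_comm] using this

lemma eq_of_sum {W : Finset α} {f : α → ℕ} {k : ℕ} (h : ∀ v ∈ W, k ≤ f v)
    (e : ∑ v ∈ W, f v = k * W.card) {v : α} (hv : v ∈ W) : f v = k := by
  have h1 := sum_ge (W := W.erase v) (f := f) (k := k) fun w hw => h w (mem_of_mem_erase hw)
  have h2 := add_sum_erase W f hv
  have h3 := card_erase_add_one hv
  have h4 := h v hv
  rw [← h3, mul_add] at e
  omega

end DIS0

open DIS0 in
theorem blk_DIS0 (hSIX : St_SIX α) (hD1 : St_DEF1 α) (hD2 : St_DEF2 α) (hONE : St_ONE α)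
    (hLAST : St_LAST α) : St_DIS0 α := by
  classical
  intro G S V hm hI
  have hch := charge_eq G S V
  have hONE' := hONE G S V hm
  have hD1' := hD1 G S V (AA G S V 4) hm subset_rfl
  have hD2' := fun q p => hD2 G S V (AA G S V 4) q p hm hI subset_rfl
  have hL := fun y q1 q2 q3 => hLAST G S V y q1 q2 q3 hm hI
  have hPm : ∀ v, v ∈ AA G S V 4 ↔ v ∈ V ∧ v ∉ S ∧ dg G V v = 4 := fun v => mem_AA
  generalize AA G S V 4 = P at *
  have hPV : P ⊆ V := fun v hv => ((hPm v).1 hv).1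
  obtain ⟨N, hN⟩ : ∃ N, N = V \ P := ⟨_, rfl⟩
  rw [← hN] at hch hONE' hL
  obtain ⟨Q, hQ⟩ : ∃ Q, Q = N.filter (fun v => v ∉ S) := ⟨_, rfl⟩
  obtain ⟨Z, hZ⟩ : ∃ Z, Z = N.filter (fun v => v ∈ S) := ⟨_, rfl⟩
  have mN : ∀ v, v ∈ N ↔ v ∈ V ∧ v ∉ P := fun v => by rw [hN, mem_sdiff]
  have mQ : ∀ v, v ∈ Q ↔ v ∈ N ∧ v ∉ S := fun v => by rw [hQ, mem_filter]
  have mZ : ∀ v, v ∈ Z ↔ v ∈ N ∧ v ∈ S := fun v => by rw [hZ, mem_filter]
  have dZQ : Disjoint Z Q := disjoint_left.2 fun v h1 h2 => ((mQ v).1 h2).2 ((mZ v).1 h1).2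
  have uZQ : Z ∪ Q = N := by
    ext v
    rw [mem_union, mQ, mZ]
    tauto
  have cN : N.card = Z.card + Q.card := by rw [← uZQ, card_union_of_disjoint dZQ]
  have cV : V.card = N.card + P.card := by rw [hN, card_sdiff_add_card_eq_card hPV]
  have split : ∀ v, dg G N v + dg G P v = dg G V v := fun v => by
    rw [hN]; exact dg_sdiff_add hPV v
  have dQ : ∀ v ∈ Q, 5 ≤ dg G V v := by
    intro v hv
    obtain ⟨h1, h2⟩ := (mQ v).1 hv
    obtain ⟨h3, h4⟩ := (mN v).1 h1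
    have a3 := hm.three_le_dg h3
    have n3 : dg G V v ≠ 3 := fun e => by
      have : v ∈ AA G S V 3 := mem_AA.2 ⟨h3, h2, e⟩
      rw [hI] at this
      exact notMem_empty v this
    have n4 : dg G V v ≠ 4 := fun e => h4 ((hPm v).2 ⟨h3, h2, e⟩)
    omega
  have dZ : ∀ v ∈ Z, 3 ≤ dg G V v := fun v hv => hm.three_le_dg ((mN v).1 ((mZ v).1 hv).1).1
  have sQ := sum_ge dQ
  have sZ := sum_ge dZ
  have sN : ∑ v ∈ N, dg G V v = ∑ v ∈ Z, dg G V v + ∑ v ∈ Q, dg G V v := by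
    rw [← uZQ, sum_union dZQ]
  have sN' : ∑ v ∈ N, dg G V v = DD G N + EE G N P := by
    rw [DD_eq_sum, EE, ← sum_add_distrib]
    exact sum_congr rfl fun v _ => (split v).symm
  have sP : ∑ v ∈ P, dg G V v = 4 * P.card := by
    rw [sum_congr rfl (g := fun _ => 4) fun v hv => ((hPm v).1 hv).2.2]
    simp [mul_comm]
  have sP' : ∑ v ∈ P, dg G V v = DD G P + EE G N P := by
    rw [sum_dg_split hPV, ← hN, EE_comm]
  have sV : DD G V = ∑ v ∈ N, dg G V v + ∑ v ∈ P, dg G V v := by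
    rw [DD_eq_sum, hN, sum_sdiff hPV]
  have wN : ∑ v ∈ N, wt S v = 16 * (Z.card : ℤ) + 29 * (Q.card : ℤ) := by
    rw [← uZQ, sum_union dZQ, sum_congr rfl (g := fun _ => (16 : ℤ)) fun v hv => wt_S ((mZ v).1 hv).2,
      sum_congr rfl (g := fun _ => (29 : ℤ)) fun v hv => wt_A ((mQ v).1 hv).2]
    simp [mul_comm]
  have hch' : -2 * rho G S V = 14 * ((∑ v ∈ N, dg G V v : ℕ) : ℤ) -
      2 * (16 * (Z.card : ℤ) + 29 * (Q.card : ℤ)) - 2 * (EE G N P : ℤ) + 2 * df G P := by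
    rw [hch, sum_sub_distrib, sum_sub_distrib, ← mul_sum, ← mul_sum, ← mul_sum, wN, EE]
    push_cast
    ring
  have hr := hm.rho_ge (subset_refl V)
  have hdf : df G P = 3 * (P.card : ℤ) - (DD G P : ℤ) := rfl
  have ev := DD_even (G := G) V
  have hno : (∃ u ∈ N, ∃ v ∈ N, G.Adj u v ∧ u ∈ S) ∨ ∃ u ∈ N, 2 ≤ dg G N u := by
    by_contra hc
    rw [not_or] at hc
    refine hONE' (fun u hu v hv huv hs => hc.1 ⟨u, hu, v, hv, huv, hs⟩) fun u hu => ?_
    by_contra h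
    exact hc.2 ⟨u, hu, by omega⟩
  have hu1 : ∃ u ∈ N, 1 ≤ dg G N u := by
    rcases hno with ⟨u, hu, v, hv, huv, -⟩ | ⟨u, hu, h⟩
    · exact ⟨u, hu, dg_pos hv huv⟩
    · exact ⟨u, hu, by omega⟩
  have D2 : 2 ≤ DD G N ∧ 2 ≤ N.card := by
    obtain ⟨u, hu, h⟩ := hu1
    have := two_dg_le (G := G) hu
    have := dg_lt_card (G := G) hu
    omega
  have c4 := hm.four_le_card
  have hPne : P.Nonempty := by
    rw [← card_pos]
    by_contra hc
    omega
  have f1 := hD1' hPne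
  have eQ : ∑ v ∈ Q, dg G V v = 5 * Q.card := by
    rcases Q.eq_empty_or_nonempty with h | h
    · rw [h]; simp
    · have := card_pos.2 h
      omega
  have eZ : ∑ v ∈ Z, dg G V v = 3 * Z.card := by omega
  have f2 : 1 ≤ Q.card → 2 ≤ df G P := by
    intro h
    obtain ⟨q, hq⟩ := card_pos.1 h
    obtain ⟨h1, h2⟩ := (mQ q).1 hq
    obtain ⟨h3, h4⟩ := (mN q).1 h1
    have := two_dg_le (G := G) h1
    have := split q
    have := dQ q hq
    obtain ⟨p, hp, hqp⟩ := exists_adj_of_dg_pos (G := G) (W := P) (v := q) (by omega)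
    exact hD2' q p h3 h4 h2 hp hqp
  have hDN := DD_le (G := G) N
  by_cases s0 : Z.card = 0
  · rcases hno with ⟨u, hu, v, -, -, hs⟩ | ⟨u, hu, h⟩
    · have := card_pos.2 ⟨u, (mZ u).2 ⟨hu, hs⟩⟩
      omega
    · have := two_dg_le (G := G) hu
      have := dg_lt_card (G := G) hu
      omega
  by_cases a0 : Q.card = 0
  · have n2 : N.card = 2 := by omega
    rw [n2] at hDN
    have : 2 * P.card ≤ EE G P N := by
      refine sum_ge fun p hp => ?_
      have := split p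
      have := ((hPm p).1 hp).2.2
      have := dg_lt_card (G := G) hp
      omega
    obtain ⟨p, hp⟩ := hPne
    have := split p
    have := ((hPm p).1 hp).2.2
    have := dg_lt_card (G := G) hp
    have := dg_le_card (G := G) N p
    have := EE_comm (G := G) P N
    omega
  have f3 := f2 (by omega)
  have k1 : (Q.card : ℤ) + 2 * Z.card + DD G N + df G P ≤ 9 := by omega
  have k2 : 2 ∣ Q.card + Z.card := by
    rw [sV, sN, eZ, eQ, sP] at ev
    clear * - ev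
    omega
  have s1 : Z.card = 1 := by
    have := D2.1
    clear * - k1 k2 f3 this s0 a0
    omega
  obtain ⟨y, hy⟩ := card_eq_one.1 s1
  have hyZ : y ∈ Z := hy ▸ mem_singleton_self y
  by_cases a1 : Q.card = 1
  · have n2 : N.card = 2 := by omega
    rw [n2] at hDN
    obtain ⟨q, hq⟩ := card_pos.1 (show 0 < Q.card by omega)
    have := dQ q hq
    have := dg_lt_card (G := G) ((mN q).1 ((mQ q).1 hq).1).1
    have key : ∀ u ∈ V, u ∈ S → u = y := by
      intro u hu hs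
      have : u ∈ Z := (mZ u).2 ⟨(mN u).2 ⟨hu, fun h => ((hPm u).1 h).2.1 hs⟩, hs⟩
      rwa [hy, mem_singleton] at this
    refine hm.ncol (hSIX G S V (by omega) (fun u hu v hv h1 h2 => by rw [key u hu h1, key v hv h2])
      ⟨y, ((mN y).1 ((mZ y).1 hyZ).1).1, (eq_of_sum dZ eZ hyZ).le⟩)
  have a3 : Q.card = 3 := by omega
  obtain ⟨q1, q2, q3, n12, n13, n23, hq⟩ := card_eq_three.1 a3
  have m1 : q1 ∈ Q := by rw [hq]; simp
  have m2 : q2 ∈ Q := by rw [hq]; simp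
  have m3 : q3 ∈ Q := by rw [hq]; simp
  have ny : ∀ q ∈ Q, y ≠ q := fun q h e => ((mQ q).1 h).2 (e ▸ ((mZ y).1 hyZ).2)
  have hE : 1 ≤ EE G Z Q := by
    rcases hno with ⟨u, hu, v, hv, huv, hs⟩ | ⟨u, hu, h⟩
    · have huZ : u ∈ Z := (mZ u).2 ⟨hu, hs⟩
      rw [hy, mem_singleton] at huZ
      rw [hy, EE_singleton, ← huZ]
      refine dg_pos ?_ huv
      rw [← uZQ, mem_union, hy, mem_singleton, ← huZ] at hv
      exact hv.resolve_left huv.ne'
    · have := two_dg_le (G := G) hu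
      omega
  have hU := DD_union (G := G) dZQ
  rw [uZQ] at hU
  have na : ∀ u ∈ Q, ∀ v ∈ Q, ¬ G.Adj u v := by
    intro u hu v hv huv
    have := two_dg_le (G := G) hu
    have := dg_pos hv huv
    omega
  refine hL y q1 q2 q3 ?_ (ny _ m1) (ny _ m2) (ny _ m3) n12 n13 n23 ((mQ _).1 m1).2 ((mQ _).1 m2).2
    ((mQ _).1 m3).2 (na _ m1 _ m2) (na _ m1 _ m3) (na _ m2 _ m3) (by omega)
  rw [← uZQ, hy, hq, insert_eq y]

end CB1
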