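import Pool.Agent.Lib.MP_cb1d9b_co.Blue

set_option linter.unusedSectionVars false

namespace CB1
open Finset

variable {α : Type} [DecidableEq α]

theorem blk_DISI (hT1 : St_T1 α) (hTW : St_TWIN α) (hT2 : St_T2 α) (hKK : St_KK α)
    (hD1 : St_DEF1 α) (hCHI : St_CHI α) (hHH : St_HH α) : St_DISI α := by
  intro G S V hm hI
  have k1 := hCHI G S V hm
  have k2 := hKK G S V hm hI
  have t1 := hT1 G S V hm
  have t2 := hT2 G S V hm
  have tw := hTW G S V hm
  have k5 : 1 ≤ df G (AA G S V 4) ∨ AA G S V 4 = ∅ := by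
    rcases (AA G S V 4).eq_empty_or_nonempty with h | h
    · exact Or.inr h
    · exact Or.inl (hD1 G S V _ hm subset_rfl h)
  have hh := fun h1 h2 => hHH G S V h1 h2 hm
  have hIV : AA G S V 3 ⊆ V := AA_subset G S V 3
  have mI : ∀ x ∈ AA G S V 3, x ∉ S ∧ dg G V x = 3 := fun x hx => (mem_AA.1 hx).2
  have mP : ∀ x ∈ AA G S V 4, x ∉ S := fun x hx => (mem_AA.1 hx).2.1
  have mM : ∀ z, z ∈ NI G S V ↔ z ∈ V ∧ ∃ x ∈ AA G S V 3, G.Adj z x := fun z => mem_NI
  generalize AA G S V 3 = I at *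
  generalize AA G S V 4 = P at *
  generalize NI G S V = M at *
  obtain ⟨Z, H, hd, rfl, hZ, hH⟩ : ∃ Z H : Finset α, Disjoint Z H ∧ M = Z ∪ H ∧
      (∀ z ∈ Z, dg G V z = 3) ∧ ∀ z ∈ H, 4 ≤ dg G V z := by
    refine ⟨M.filter (fun z => dg G V z = 3), M.filter (fun z => ¬ dg G V z = 3),
      disjoint_filter_filter_not _ _ _, (filter_union_filter_not_eq _ _).symm,
      fun z hz => (mem_filter.1 hz).2, fun z hz => ?_⟩
    have := hm.three_le_dg ((mM z).1 (mem_filter.1 hz).1).1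
    have := (mem_filter.1 hz).2
    omega
  have hZV : Z ⊆ V := fun z hz => ((mM z).1 (mem_union_left _ hz)).1
  have hHV : H ⊆ V := fun z hz => ((mM z).1 (mem_union_right _ hz)).1
  have sZ : ∑ z ∈ Z, dg G V z = 3 * Z.card := by
    rw [sum_congr rfl hZ]; simp [mul_comm]
  have sH : 4 * H.card ≤ ∑ z ∈ H, dg G V z := by
    simpa [mul_comm] using card_nsmul_le_sum H (dg G V) 4 hH
  have e0 : ∑ z ∈ Z ∪ H, (12 * (dg G V z : ℤ) - 32) =
      12 * ((∑ z ∈ Z ∪ H, dg G V z : ℕ) : ℤ) - 32 * ((Z ∪ H).card : ℤ) := by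
    rw [sum_sub_distrib, ← mul_sum]; simp [mul_comm]
  rw [e0, EE_union_left hd] at k1
  rw [sum_union hd, card_union_of_disjoint hd, sZ] at k1 k2
  have nbx : ∀ x ∈ I, nb G V x = nb G Z x ∪ nb G H x := by
    intro x hx
    rw [← nb_union]
    ext u
    simp only [mem_nb, mM]
    exact ⟨fun h => ⟨⟨h.1, x, hx, h.2.symm⟩, h.2⟩, fun h => ⟨h.1.1, h.2⟩⟩
  have dx : ∀ x ∈ I, dg G Z x + dg G H x = 3 := by
    intro x hx
    rw [← dg_union hd, ← (mI x hx).2, dg, dg, nb_union, nbx x hx]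
  have dZ : ∀ x ∈ I, dg G Z x ≤ 1 := fun x hx => card_le_one.2 fun a ha b hb =>
    t2 x hx a (hZV (mem_nb.1 ha).1) b (hZV (mem_nb.1 hb).1) (mem_nb.1 ha).2 (mem_nb.1 hb).2
      (hZ a (mem_nb.1 ha).1) (hZ b (mem_nb.1 hb).1)
  have e1 : EE G I Z ≤ I.card := by simpa [EE] using sum_le_card_nsmul I (dg G Z) 1 dZ
  have e2 : Z.card ≤ EE G I Z := by
    rw [EE_comm]
    have := card_nsmul_le_sum Z (dg G I) 1 fun z hz => by
      obtain ⟨-, x, hx, hzx⟩ := (mM z).1 (mem_union_left _ hz)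
      exact dg_pos hx hzx
    simpa [EE] using this
  obtain ⟨x0, hx0⟩ := id hI
  have h2 : 2 ≤ H.card := by
    have := dx x0 hx0
    have := dZ x0 hx0
    have := dg_le_card (G := G) H x0
    omega
  have k6 : 1 ≤ df G P ∨ (df G P = 0 ∧ EE G Z (V \ (I ∪ P)) + EE G I Z = 3 * Z.card) := by
    refine k5.imp id fun h => ⟨by rw [h, df_empty], ?_⟩
    rw [h, union_empty, EE_comm I, ← sZ, EE, EE, ← sum_add_distrib]
    exact sum_congr rfl fun z _ => dg_sdiff_add hIV z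
  have h3 : H.card = 2 := by omega
  have nH : ∀ x ∈ I, nb G H x = H := fun x hx => eq_of_subset_of_card_le (nb_subset _ _) (by
    have := dx x hx
    have := dZ x hx
    change _ ≤ dg G H x
    omega)
  have hf : ∀ x ∈ I, ∃ z, nb G Z x = {z} := fun x hx => card_eq_one.1 (by
    have := dx x hx
    have : dg G H x = 2 := by rw [dg, nH x hx, h3]
    change dg G Z x = 1
    omega)
  choose! f hf using hf
  have e3 : I.card ≤ Z.card := card_le_card_of_injOn f
    (fun x hx => nb_subset Z x (by rw [hf x hx]; exact mem_singleton_self _))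
    fun x hx y hy hxy => tw x hx y hy (by
      rw [nbx x hx, nbx y hy, hf x hx, hf y hy, nH x hx, nH y hy, hxy])
  obtain ⟨a, b, hab, rfl⟩ := card_eq_two.1 h3
  have ha : a ∈ ({a, b} : Finset α) := by simp
  have hb : b ∈ ({a, b} : Finset α) := by simp
  have adj : ∀ x ∈ I, ∀ u ∈ ({a, b} : Finset α), G.Adj x u := fun x hx u hu =>
    (mem_nb.1 ((nH x hx).symm ▸ hu : u ∈ nb G {a, b} x)).2
  have dI : ∀ u ∈ ({a, b} : Finset α), dg G (V \ I) u + I.card = dg G V u := by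
    intro u hu
    rw [← dg_sdiff_add hIV u, dg]
    congr 2
    ext x
    simp only [mem_nb]
    exact ⟨fun hx => ⟨hx, (adj x hx u hu).symm⟩, fun hx => hx.1⟩
  have hR : ∀ u ∈ ({a, b} : Finset α), u ∈ V \ (I ∪ P) := by
    intro u hu
    have := t1 x0 hx0 u (hHV hu) (adj x0 hx0 u hu)
    exact mem_sdiff.2 ⟨hHV hu, fun h => (mem_union.1 h).elim (fun h => (mI u h).1 this)
      fun h => mP u h this⟩
  have e4 : EE G {a, b} (V \ (I ∪ P)) = dg G (V \ (I ∪ P)) a + dg G (V \ (I ∪ P)) b := by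
    rw [EE, sum_pair hab]
  rw [sum_pair hab] at k1 k2 sH
  have da := hH a ha
  have db := hH b hb
  have ia := dI a ha
  have ib := dI b hb
  refine hh a b (hHV ha) (hHV hb) hab (fun h => ?_) hI
    (fun x hx => ⟨adj x hx a ha, adj x hx b hb⟩) (by omega) (by omega)
  have := dg_pos (hR b hb) h
  have := dg_pos (hR a ha) h.symm
  omega

end CB1
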