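import Pool.Agent.Lib.MP_cb1d9b_co.Blue

set_option linter.unusedSectionVars false

namespace CB1
open Finset

variable {α : Type} [DecidableEq α]

namespace EXT

open Classical in
/-- monochromatic pairs in `B` plus twice the monochromatic tokens -/
noncomputable def pot (G : SimpleGraph α) (B : Finset α) (c : α → Fin 3) (T : Finset (α × α))
    (e : α → Fin 3) : ℕ :=
  ∑ u ∈ B, ∑ v ∈ B, (if G.Adj u v ∧ e u = e v then 1 else 0) +
    2 * ∑ t ∈ T, if c t.1 = e t.2 then 1 else 0

/-- number of soft neighbours of `p` of colour `j` -/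
noncomputable def sf (G : SimpleGraph α) (B : Finset α) (c : α → Fin 3) (T : Finset (α × α))
    (e : α → Fin 3) (p : α) (j : Fin 3) : ℕ :=
  ((nb G B p).filter (fun v => e v = j)).card + (T.filter (fun t => t.2 = p ∧ c t.1 = j)).card

variable {G : SimpleGraph α} {B : Finset α} {c : α → Fin 3} {T : Finset (α × α)}

open Classical in
lemma sf_eq (e : α → Fin 3) (p : α) (j : Fin 3) : sf G B c T e p j =
    ∑ v ∈ B, (if G.Adj p v ∧ e v = j then 1 else 0) +
      ∑ t ∈ T, if t.2 = p ∧ c t.1 = j then 1 else 0 := by
  rw [sf, nb, filter_filter, card_filter, card_filter]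

lemma pot_update (e : α → Fin 3) {p : α} (hp : p ∈ B) (k : Fin 3) :
    pot G B c T (Function.update e p k) + 2 * sf G B c T e p (e p) =
      pot G B c T e + 2 * sf G B c T e p k := by
  classical
  have h1 : ∀ u v, (if G.Adj u v ∧ Function.update e p k u = Function.update e p k v then 1 else 0)
      + ((if u = p then (if G.Adj p v ∧ e v = e p then 1 else 0) else 0)
      + (if v = p then (if G.Adj p u ∧ e u = e p then 1 else 0) else 0)) =
      (if G.Adj u v ∧ e u = e v then 1 else 0)
      + ((if u = p then (if G.Adj p v ∧ e v = k then 1 else 0) else 0)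
      + (if v = p then (if G.Adj p u ∧ e u = k then 1 else 0) else 0)) := by
    intro u v
    by_cases hu : u = p <;> by_cases hv : v = p
    · subst hu; subst hv; simp
    · subst hu
      simp only [Function.update_self, Function.update_of_ne hv, if_true, hv, if_false, add_zero]
      rw [if_congr (and_congr_right fun _ => (eq_comm : k = e v ↔ _)) rfl rfl,
        if_congr (and_congr_right fun _ => (eq_comm : e u = e v ↔ _)) rfl rfl]
      omega
    · subst hv
      simp only [Function.update_self, Function.update_of_ne hu, if_true, hu, if_false, zero_add,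
        G.adj_comm u v]
      omega
    · simp [hu, hv]
  have h2 : ∀ t : α × α, (if c t.1 = Function.update e p k t.2 then 1 else 0)
      + (if t.2 = p ∧ c t.1 = e p then 1 else 0) =
      (if c t.1 = e t.2 then 1 else 0) + (if t.2 = p ∧ c t.1 = k then 1 else 0) := by
    intro t
    by_cases ht : t.2 = p
    · simp only [ht, Function.update_self, true_and]; omega
    · simp [ht]
  have h3 : ∀ g : α → ℕ, ∑ u ∈ B, ∑ v ∈ B,
      ((if u = p then g v else 0) + (if v = p then g u else 0)) = 2 * ∑ v ∈ B, g v := by
    intro g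
    simp only [sum_add_distrib, sum_ite_eq', hp, if_true]
    rw [sum_comm]
    simp only [sum_ite_eq', hp, if_true]
    ring
  have h4 := sum_congr rfl fun u (_ : u ∈ B) => sum_congr rfl fun v (_ : v ∈ B) => h1 u v
  have h5 := sum_congr rfl fun t (_ : t ∈ T) => h2 t
  have a := h3 fun v => if G.Adj p v ∧ e v = e p then 1 else 0
  have b := h3 fun v => if G.Adj p v ∧ e v = k then 1 else 0
  simp only [sum_add_distrib] at h4 h5 a b
  rw [sf_eq, sf_eq, pot, pot]
  omega

lemma sum_sf (e : α → Fin 3) (p : α) : ∑ j, sf G B c T e p j = dg G B p + tk T {p} := by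
  rw [dg, tk, card_eq_sum_card_fiberwise (f := e) (t := univ) (fun _ _ => by simp),
    card_eq_sum_card_fiberwise (f := fun t => c t.1) (t := univ) (fun _ _ => by simp),
    ← sum_add_distrib]
  simp only [sf, filter_filter, mem_singleton]

end EXT

open EXT in
theorem blk_EXT : St_EXT α := by
  classical
  intro G S F B c T hd hv hS hT hc
  have hne : ∃ e : α → Fin 3, (∀ v ∈ F, e v = c v) ∧ ∀ p ∈ B, e p ∉ hard G F c T p := by
    choose k hk using fun p (hp : p ∈ B) =>
      exists_col_not_mem (s := hard G F c T p) (by have := hc p hp; omega)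
    exact ⟨fun v => if h : v ∈ B then k v h else c v,
      fun v h => dif_neg (disjoint_left.1 hd h), fun p hp => by simpa [hp] using hk p hp⟩
  obtain ⟨e, ⟨e1, e2⟩, hmin⟩ := (measure (pot G B c T)).wf.has_min
    {e | (∀ v ∈ F, e v = c v) ∧ ∀ p ∈ B, e p ∉ hard G F c T p} hne
  have key : ∀ p ∈ B, sf G B c T e p (e p) ≤ 1 := by
    intro p hp
    by_contra h
    have h1 : ∀ k ∈ (hard G F c T p)ᶜ, 2 ≤ sf G B c T e p k := by
      intro k hk
      have h2 : ¬ pot G B c T (Function.update e p k) < pot G B c T e :=
        hmin (Function.update e p k) ⟨fun v h => by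
          rw [Function.update_of_ne (fun a : v = p => disjoint_left.1 hd h (a ▸ hp)), e1 v h],
          fun q hq => by
            by_cases a : q = p
            · subst a; simpa using hk
            · rw [Function.update_of_ne a]; exact e2 q hq⟩
      have := pot_update (G := G) (c := c) (T := T) e hp k
      omega
    have h2 : (hard G F c T p)ᶜ.card • 2 ≤ ∑ x ∈ (hard G F c T p)ᶜ, sf G B c T e p x :=
      card_nsmul_le_sum _ _ _ h1
    have h3 := sum_le_sum_of_subset (f := sf G B c T e p) (subset_univ (hard G F c T p)ᶜ)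
    have h4 := card_add_card_compl (hard G F c T p)
    have h5 := hc p hp
    rw [sum_sf] at h3
    rw [smul_eq_mul] at h2
    rw [Fintype.card_fin] at h4
    omega
  have tok : ∀ q ∈ F, ∀ p ∈ B, G.Adj p q → e q = e p → (q, p) ∈ T := by
    intro q hq p hp a h
    by_contra n
    exact e2 p hp (mem_image.2 ⟨q, mem_filter.2 ⟨mem_nb.2 ⟨hq, a⟩, n⟩, by rw [← h, e1 q hq]⟩)
  refine ⟨e, fun u hu v hv' a s h => ?_, fun u hu v hv' w hw a b h h' => ?_⟩
  · have uF : u ∈ F := (mem_union.1 hu).resolve_right fun x => hS u x s
    rcases mem_union.1 hv' with x | x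
    · exact hv.1 u uF v x a s (by rw [← e1 u uF, ← e1 v x, h])
    · exact hT.notS _ (tok u uF v x a.symm h) s
  · rcases mem_union.1 hu with uF | uB
    · rcases mem_union.1 hv' with x | x <;> rcases mem_union.1 hw with y | y
      · exact hv.2 u uF v x w y a b (by rw [← e1 u uF, ← e1 v x, h])
          (by rw [← e1 u uF, ← e1 w y, h'])
      · exact absurd (by rw [← e1 u uF, ← e1 v x, h])
          (hT.prop _ (tok u uF w y b.symm h'.symm) v x a)
      · exact absurd (by rw [← e1 u uF, ← e1 w y, h'])
          (hT.prop _ (tok u uF v x a.symm h.symm) w y b)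
      · exact congrArg Prod.snd
          (hT.uniq _ (tok u uF v x a.symm h.symm) _ (tok u uF w y b.symm h'.symm) rfl)
    · have k := key u uB
      have m1 : ∀ v ∈ B, G.Adj u v → e v = e u → v ∈ (nb G B u).filter (fun v => e v = e u) :=
        fun v x a h => mem_filter.2 ⟨mem_nb.2 ⟨x, a⟩, h⟩
      have m2 : ∀ v ∈ F, G.Adj u v → e v = e u →
          (v, u) ∈ T.filter (fun t => t.2 = u ∧ c t.1 = e u) :=
        fun v x a h => mem_filter.2 ⟨tok v x u uB a h, rfl, by rw [← h, e1 v x]⟩
      rw [sf] at k
      rcases mem_union.1 hv' with x | x <;> rcases mem_union.1 hw with y | y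
      · exact congrArg Prod.fst (card_le_one.1 (by omega) _ (m2 v x a h) _ (m2 w y b h'))
      · have := card_pos.2 ⟨_, m2 v x a h⟩
        have := card_pos.2 ⟨_, m1 w y b h'⟩
        omega
      · have := card_pos.2 ⟨_, m1 v x a h⟩
        have := card_pos.2 ⟨_, m2 w y b h'⟩
        omega
      · exact card_le_one.1 (by omega) _ (m1 v x a h) _ (m1 w y b h')

end CB1
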