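import Pool.Agent.Lib.MP_cb1d9b_co.Blue

set_option linter.unusedSectionVars false

namespace CB1
open Finset

variable {α : Type} [DecidableEq α]

namespace FL

variable {G : SimpleGraph α} {S : Set α}

lemma tk_modular (T : Finset (α × α)) (X Y : Finset α) :
    tk T (X ∪ Y) + tk T (X ∩ Y) = tk T X + tk T Y := by
  unfold tk
  rw [← card_union_add_card_inter (T.filter (fun t => t.2 ∈ X)) (T.filter (fun t => t.2 ∈ Y))]
  congr 2
  · ext t; simp only [mem_filter, mem_union]; tauto
  · ext t; simp only [mem_filter, mem_inter]; tauto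

lemma tk_empty (T : Finset (α × α)) : tk T ∅ = 0 := by simp [tk]

lemma tk_insert (T : Finset (α × α)) {Y : Finset α} {u : α} (hu : u ∉ Y) :
    tk T (insert u Y) = tk T Y + tk T {u} := by
  have h := tk_modular T {u} Y
  rw [singleton_inter_of_notMem hu, tk_empty, ← insert_eq] at h
  omega

lemma tk_erase_not (T : Finset (α × α)) {Y : Finset α} {t : α × α} (ht : t.2 ∉ Y) :
    tk (T.erase t) Y = tk T Y := by
  unfold tk; congr 1; ext s; simp only [mem_filter, mem_erase]
  constructor
  · rintro ⟨⟨-, h1⟩, h2⟩; exact ⟨h1, h2⟩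
  · rintro ⟨h1, h2⟩; exact ⟨⟨fun e => ht (e ▸ h2), h1⟩, h2⟩

lemma tk_add_not (T : Finset (α × α)) {Y : Finset α} {t : α × α} (ht : t.2 ∉ Y) :
    tk (insert t T) Y = tk T Y := by
  unfold tk; rw [filter_insert, if_neg ht]

lemma tk_add_mem {T : Finset (α × α)} {Y : Finset α} {t : α × α} (hT : t ∉ T) (ht : t.2 ∈ Y) :
    tk (insert t T) Y = tk T Y + 1 := by
  unfold tk; rw [filter_insert, if_pos ht, card_insert_of_notMem]
  exact fun h => hT (mem_filter.1 h).1

/-- neighbours in `F` which give no token to `p` -/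
noncomputable def nt (G : SimpleGraph α) (F : Finset α) (T : Finset (α × α)) (p : α) : Finset α :=
  (nb G F p).filter (fun q => (q, p) ∉ T)

lemma mem_nt {F : Finset α} {T : Finset (α × α)} {p q : α} :
    q ∈ nt G F T p ↔ q ∈ F ∧ G.Adj p q ∧ (q, p) ∉ T := by
  unfold nt; rw [mem_filter, mem_nb]; tauto

lemma nt_card {F B : Finset α} {c : α → Fin 3} {T : Finset (α × α)} (h : Tok G S F B c T)
    (p : α) : (nt G F T p).card + tk T {p} ≤ dg G F p := by
  have h1 := card_filter_add_card_filter_not (s := nb G F p) (fun q => (q, p) ∈ T)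
  have h2 : tk T {p} ≤ ((nb G F p).filter (fun q => (q, p) ∈ T)).card := by
    unfold tk
    refine card_le_card_of_injOn (fun t => t.1) ?_ ?_
    · intro t ht
      have ht' := mem_filter.1 (mem_coe.1 ht)
      have e : t.2 = p := mem_singleton.1 ht'.2
      refine mem_coe.2 (mem_filter.2 ⟨mem_nb.2 ⟨h.memF t ht'.1, ?_⟩, ?_⟩)
      · exact e ▸ (h.adj t ht'.1).symm
      · rw [← e]; exact ht'.1
    · intro t ht t' ht' e
      exact h.uniq t (mem_filter.1 (mem_coe.1 ht)).1 t' (mem_filter.1 (mem_coe.1 ht')).1 e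
  unfold nt dg; omega

lemma hard_card (F : Finset α) (c : α → Fin 3) (T : Finset (α × α)) (p : α) :
    (hard G F c T p).card ≤ (nt G F T p).card := card_image_le

/-- the old tokens not received by `u` stay legal -/
lemma tok_step {F B : Finset α} {c : α → Fin 3} {T T0 : Finset (α × α)} (h : Tok G S F B c T)
    {u : α} (huF : u ∉ F) {k : Fin 3} (hk : ∀ v ∈ nt G F T u, c v ≠ k) (h0 : T0 ⊆ T)
    (h1 : ∀ t ∈ T0, t.2 ≠ u) :
    Tok G S (insert u F) (B.erase u) (Function.update c u k) T0 := by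
  have e : ∀ v ∈ F, Function.update c u k v = c v := fun v hv =>
    Function.update_of_ne (fun (e : v = u) => huF (e ▸ hv)) _ _
  refine ⟨fun t ht => mem_insert_of_mem (h.memF t (h0 ht)),
    fun t ht => mem_erase.2 ⟨h1 t ht, h.memB t (h0 ht)⟩, fun t ht => h.adj t (h0 ht),
    fun t ht => h.notS t (h0 ht), fun t ht v hv hadj => ?_,
    fun t ht t' ht' => h.uniq t (h0 ht) t' (h0 ht')⟩
  rw [e _ (h.memF t (h0 ht))]
  rcases mem_insert.1 hv with rfl | hv'
  · rw [Function.update_self]
    refine (hk t.1 (mem_nt.2 ⟨h.memF t (h0 ht), hadj.symm, fun hh => h1 t ht ?_⟩)).symm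
    have := h.uniq t (h0 ht) _ hh rfl
    rw [this]
  · rw [e v hv']; exact h.prop t (h0 ht) v hv' hadj

lemma tok_add {F B : Finset α} {c : α → Fin 3} {T : Finset (α × α)} (h : Tok G S F B c T)
    {u v : α} (hu : u ∈ F) (hv : v ∈ B) (huv : G.Adj u v) (huS : u ∉ S)
    (hp : ∀ w ∈ F, G.Adj u w → c w ≠ c u) (hT : ∀ t ∈ T, t.1 ≠ u) :
    Tok G S F B c (insert (u, v) T) := by
  refine ⟨?_, ?_, ?_, ?_, ?_, ?_⟩
  · intro t ht
    rcases mem_insert.1 ht with rfl | ht
    · exact hu
    · exact h.memF t ht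
  · intro t ht
    rcases mem_insert.1 ht with rfl | ht
    · exact hv
    · exact h.memB t ht
  · intro t ht
    rcases mem_insert.1 ht with rfl | ht
    · exact huv
    · exact h.adj t ht
  · intro t ht
    rcases mem_insert.1 ht with rfl | ht
    · exact huS
    · exact h.notS t ht
  · intro t ht
    rcases mem_insert.1 ht with rfl | ht
    · exact hp
    · exact h.prop t ht
  · intro t ht t' ht' e
    rcases mem_insert.1 ht with rfl | ht <;> rcases mem_insert.1 ht' with rfl | ht'
    · rfl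
    · exact absurd e.symm (hT t' ht')
    · exact absurd e (hT t ht)
    · exact h.uniq t ht t' ht' e

lemma main (hE : St_EXT α) (G : SimpleGraph α) (S : Set α) (n : ℕ) :
    ∀ (F B : Finset α) (c : α → Fin 3) (T : Finset (α × α)), B.card = n → Disjoint F B →
    Valid G S F c → (∀ p ∈ B, p ∉ S ∧ dg G (F ∪ B) p ≤ 4) → Tok G S F B c T →
    (∀ Y ⊆ B, df G B - (tk T B : ℤ) ≤ df G Y - (tk T Y : ℤ)) → Colb G S (F ∪ B) := by
  induction n using Nat.strong_induction_on with
  | _ n ih =>
  intro F B c T hn hd hc hB hT hf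
  by_cases hall : ∀ p ∈ B, 3 ≤ dg G B p + tk T {p}
  · refine hE G S F B c T hd hc (fun p hp => (hB p hp).1) hT fun p hp => ?_
    have a1 := hard_card (G := G) F c T p
    have a2 := nt_card hT p
    have a3 := (hB p hp).2
    have a4 := hall p hp
    rw [dg_union hd] at a3
    omega
  push Not at hall
  obtain ⟨u, hu, hlow⟩ := hall
  have huF : u ∉ F := fun hh => disjoint_left.1 hd hh hu
  have huB : u ∉ B.erase u := notMem_erase u B
  have b1 := df_insert (G := G) huB
  have b2 := tk_insert T huB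
  rw [insert_erase hu] at b1 b2
  rw [dg_erase_not G.irrefl] at b1
  have b3 := hf (B.erase u) (erase_subset u B)
  have b4 := nt_card hT u
  have b5 := (hB u hu).2
  rw [dg_union hd] at b5
  have hnt : (nt G F T u).card ≤ 2 := by omega
  obtain ⟨k, hk⟩ := exists_col_avoid c hnt
  have hU : insert u F ∪ B.erase u = F ∪ B := by
    rw [insert_union, ← union_insert, insert_erase hu]
  have hd' : Disjoint (insert u F) (B.erase u) :=
    disjoint_insert_left.2 ⟨huB, hd.mono_right (erase_subset u B)⟩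
  have hlt : (B.erase u).card < n := hn ▸ card_erase_lt_of_mem hu
  have hB' : ∀ p ∈ B.erase u, p ∉ S ∧ dg G (insert u F ∪ B.erase u) p ≤ 4 := fun p hp => by
    rw [hU]; exact hB p (mem_of_mem_erase hp)
  rw [← hU]
  have hcase : (dg G B u = 1 ∧ tk T {u} = 1) ∨ (dg G B u = 2 ∧ tk T {u} = 0) := by omega
  rcases hcase with ⟨e1, e2⟩ | ⟨e1, e2⟩
  · obtain ⟨t, ht⟩ := card_eq_one.1 e2
    have htm : ∀ s, s ∈ T ∧ s.2 = u ↔ s = t := fun s => by
      have : s ∈ ({t} : Finset (α × α)) ↔ s ∈ T ∧ s.2 = u := by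
        rw [← ht, mem_filter, mem_singleton]
      rw [← this, mem_singleton]
    obtain ⟨htT, htu⟩ := (htm t).2 rfl
    have hv := hc.insert_tok huF (hB u hu).1 (hT.notS t htT) (hT.prop t htT) (k := k)
      fun v hv huv hne => hk v (mem_nt.2 ⟨hv, huv, fun hh => hne ?_⟩)
    swap
    · rw [← (htm (v, u)).1 ⟨hh, rfl⟩]
    refine ih _ hlt _ _ _ (T.erase t) rfl hd' hv hB'
      (tok_step hT huF hk (erase_subset t T) fun s hs e => ?_) fun Y hY => ?_
    · exact (mem_erase.1 hs).1 ((htm s).1 ⟨mem_of_mem_erase hs, e⟩)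
    · rw [tk_erase_not T (htu ▸ huB), tk_erase_not T (htu ▸ fun hh => huB (hY hh))]
      have := hf Y (hY.trans (erase_subset u B))
      omega
  · have hno : ∀ s ∈ T, s.2 ≠ u := fun s hs e => by
      have : s ∈ T.filter (fun t => t.2 ∈ ({u} : Finset α)) :=
        mem_filter.2 ⟨hs, mem_singleton.2 e⟩
      rw [card_eq_zero.1 e2] at this
      exact notMem_empty s this
    have hk' : ∀ v ∈ F, G.Adj u v → c v ≠ k := fun v hv huv =>
      hk v (mem_nt.2 ⟨hv, huv, fun hh => hno _ hh rfl⟩)
    have hv := hc.insert_free huF hk'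
    have hT0 := tok_step hT huF hk (subset_refl T) hno
    have step : ∀ v ∈ B.erase u, G.Adj u v →
        (∀ Y ⊆ B.erase u, v ∈ Y → df G B - (tk T B : ℤ) < df G Y - (tk T Y : ℤ)) →
        Colb G S (insert u F ∪ B.erase u) := by
      intro v hvB huv hgood
      have hnew : (u, v) ∉ T := fun hh => huF (hT.memF _ hh)
      refine ih _ hlt _ _ _ (insert (u, v) T) rfl hd' hv hB'
        (tok_add hT0 (mem_insert_self u F) hvB huv (hB u hu).1 (fun w hw huw => ?_)
          fun t ht e => huF (e ▸ hT.memF t ht)) fun Y hY => ?_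
      · have hwu : w ≠ u := huw.ne.symm
        rw [Function.update_self, Function.update_of_ne hwu]
        exact hk' w ((mem_insert.1 hw).resolve_left hwu) huw
      · rw [tk_add_mem hnew hvB]
        by_cases hvY : v ∈ Y
        · rw [tk_add_mem hnew hvY]
          have := hgood Y hY hvY
          push_cast; omega
        · rw [tk_add_not T hvY]
          have := hf Y (hY.trans (erase_subset u B))
          push_cast; omega
    obtain ⟨v1, v2, hne, hv12⟩ := card_eq_two.1 e1
    have m1 : v1 ∈ nb G B u := by rw [hv12]; simp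
    have m2 : v2 ∈ nb G B u := by rw [hv12]; simp
    obtain ⟨m1B, m1a⟩ := mem_nb.1 m1
    obtain ⟨m2B, m2a⟩ := mem_nb.1 m2
    by_contra hcon
    have n1 := mt (step v1 (mem_erase.2 ⟨m1a.ne.symm, m1B⟩) m1a) hcon
    have n2 := mt (step v2 (mem_erase.2 ⟨m2a.ne.symm, m2B⟩) m2a) hcon
    push Not at n1 n2
    obtain ⟨Y1, hY1, hv1, f1⟩ := n1
    obtain ⟨Y2, hY2, hv2, f2⟩ := n2
    have hY : Y1 ∪ Y2 ⊆ B.erase u := union_subset hY1 hY2
    have huY : u ∉ Y1 ∪ Y2 := fun hh => huB (hY hh)
    have g1 := df_submod (G := G) Y1 Y2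
    have g2 := tk_modular T Y1 Y2
    have g3 := hf (Y1 ∩ Y2) (inter_subset_left.trans (hY1.trans (erase_subset u B)))
    have g4 := hf (insert u (Y1 ∪ Y2)) (insert_subset hu (hY.trans (erase_subset u B)))
    have g5 := df_insert (G := G) huY
    have g6 := tk_insert T huY
    have g7 := two_le_dg (G := G) (mem_union_left Y2 hv1) (mem_union_right Y1 hv2) hne m1a m2a
    omega

end FL

theorem blk_FL (h : St_EXT α) : St_FL α := fun G S F B c T =>
  FL.main h G S B.card F B c T rfl

end CB1
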