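import Pool.Agent.Lib.MP_cb1d9b_co.Blue

set_option linter.unusedSectionVars false

namespace CB1
open Finset

variable {α : Type} [DecidableEq α]

namespace GAP

lemma term {G : SimpleGraph α} {S : Set α} {V : Finset α} (h : Min G S V) {v : α} (hv : v ∈ V) :
    13 ≤ 14 * (dg G V v : ℤ) - wt S v ∧
      (v ∈ AA G S V 3 ∨ 26 ≤ 14 * (dg G V v : ℤ) - wt S v) := by
  have h1 := h.three_le_dg hv
  have h2 := wt_le S v
  refine ⟨by omega, ?_⟩
  by_cases hS : v ∈ S
  · rw [wt_S hS]
    exact .inr (by omega)
  · by_cases hd : dg G V v = 3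
    · exact .inl (mem_AA.2 ⟨hv, hS, hd⟩)
    · exact .inr (by omega)

end GAP

theorem blk_GAP (h1 : St_CONTR α) : St_GAP α := by
  intro G S V W hm hW hne hn
  have hA : ∀ W ⊆ V, W ≠ V → 4 ≤ W.card → 4 ≤ rho G S W := by
    intro W hW hne h4
    obtain ⟨K, hK, h⟩ := h1 G S V W hm hW hne h4
    have := hm.rho_ge (union_subset hW (hK.trans sdiff_subset))
    omega
  rcases le_or_gt W.card 2 with h2 | h2
  · have := rho_le_two (G := G) (S := S) hn h2
    exact ⟨by omega, .inl (by omega)⟩
  by_cases h3 : W.card = 3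
  · have := rho_three (G := G) (S := S) h3
    exact ⟨by omega, this.2.imp id fun h => .inl ⟨h3, h⟩⟩
  refine ⟨hA W hW hne (by omega), ?_⟩
  obtain ⟨K, hK, h⟩ := h1 G S V W hm hW hne (by omega)
  have hKV : K ⊆ V := hK.trans sdiff_subset
  have hU := union_subset hW hKV
  have hr := hm.rho_ge hU
  rcases h with h | ⟨h, hc⟩
  · exact .inl (by omega)
  by_cases hV : W ∪ K = V
  swap
  · have := hA _ hU hV (le_trans (by omega) (card_le_card subset_union_left))
    exact .inl (by omega)
  have hWK : W = V \ K := by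
    rw [← hV, union_sdiff_right, sdiff_eq_self_of_disjoint]
    exact disjoint_sdiff.mono_right hK
  have hs := rho_sdiff (G := G) (S := S) hKV
  rw [← hWK] at hs
  rw [hV] at hr
  have hc' : K.card = 0 ∨ K.card = 1 ∨ K.card = 2 := by omega
  rcases hc' with hc' | hc' | hc'
  · rw [card_eq_zero.1 hc', sdiff_empty] at hWK
    exact absurd hWK hne
  · obtain ⟨v, rfl⟩ := card_eq_one.1 hc'
    have hv := hKV (mem_singleton_self v)
    have hd := DD_le (G := G) {v}
    rw [sum_singleton] at hs
    rw [card_singleton] at hd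
    rcases (GAP.term hm hv).2 with ht | ht
    · exact .inr (.inr ⟨v, ht, by rw [hWK, sdiff_singleton_eq_erase]⟩)
    · exact .inl (by omega)
  · have hd := DD_le (G := G) K
    rw [hc'] at hd
    obtain ⟨u, v, huv, rfl⟩ := card_eq_two.1 hc'
    rw [sum_pair huv] at hs
    obtain ⟨a1, a2⟩ := GAP.term hm (hKV (mem_insert_self u _))
    obtain ⟨b1, b2⟩ := GAP.term hm (hKV (mem_insert_of_mem (mem_singleton_self v)))
    left
    rcases a2 with a2 | a2
    · rcases b2 with b2 | b2
      · have e1 := DD_insert (G := G) (W := {v}) (v := u) (by simpa using huv)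
        have e2 := DD_le (G := G) {v}
        have e3 : dg G {v} u = 0 := by
          unfold dg
          rw [card_eq_zero, eq_empty_iff_forall_notMem]
          intro w hw
          obtain ⟨e, e'⟩ := mem_nb.1 hw
          rw [mem_singleton.1 e] at e'
          exact hm.not_adj_A3 a2 b2 e'
        rw [card_singleton] at e2
        omega
      · omega
    · omega

end CB1
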