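import Pool.Agent.Lib.MP_cb1d9b_co.Blue

set_option linter.unusedSectionVars false

namespace CB1
open Finset

variable {α : Type} [DecidableEq α]

namespace IDENT

/-- the graph in which `a` also receives the neighbours of `b` -/
def idG (G : SimpleGraph α) (a b : α) (h : ¬ G.Adj a b) : SimpleGraph α where
  Adj u v := G.Adj u v ∨ (u = a ∧ G.Adj b v) ∨ (v = a ∧ G.Adj u b)
  symm := ⟨fun u v huv => by
    rcases huv with h1 | ⟨h1, h2⟩ | ⟨h1, h2⟩
    · exact Or.inl h1.symm
    · exact Or.inr (Or.inr ⟨h1, h2.symm⟩)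
    · exact Or.inr (Or.inl ⟨h1, h2.symm⟩)⟩
  loopless := ⟨fun u hu => by
    rcases hu with h1 | ⟨h1, h2⟩ | ⟨h1, h2⟩
    · exact G.irrefl h1
    · exact h (h1 ▸ h2.symm)
    · exact h (h1 ▸ h2)⟩

lemma idG_adj {G : SimpleGraph α} {a b : α} {h : ¬ G.Adj a b} {u v : α} :
    (idG G a b h).Adj u v ↔ G.Adj u v ∨ (u = a ∧ G.Adj b v) ∨ (v = a ∧ G.Adj u b) := Iff.rfl

lemma rho_idG {G : SimpleGraph α} {S : Set α} {a b : α} {h : ¬ G.Adj a b} {K : Finset α}
    (ha : a ∉ K) : rho (idG G a b h) S K = rho G S K := by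
  have e : DD (idG G a b h) K = DD G K := by
    rw [DD_eq_sum, DD_eq_sum]
    refine sum_congr rfl fun v hv => ?_
    unfold dg
    congr 1
    ext u
    simp only [mem_nb, idG_adj]
    constructor
    · rintro ⟨h1, h2 | ⟨h2, -⟩ | ⟨h2, -⟩⟩
      · exact ⟨h1, h2⟩
      · exact absurd (h2 ▸ hv) ha
      · exact absurd (h2 ▸ h1) ha
    · rintro ⟨h1, h2⟩
      exact ⟨h1, Or.inl h2⟩
  unfold rho
  rw [e]

lemma nb_idG {G : SimpleGraph α} {a b : α} {h : ¬ G.Adj a b} {K : Finset α} :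
    nb (idG G a b h) K a = nb G K a ∪ nb G K b := by
  ext u
  simp only [mem_nb, idG_adj, mem_union]
  constructor
  · rintro ⟨h1, h2 | ⟨-, h2⟩ | ⟨-, h2⟩⟩
    · exact Or.inl ⟨h1, h2⟩
    · exact Or.inr ⟨h1, h2⟩
    · exact absurd h2 h
  · rintro (⟨h1, h2⟩ | ⟨h1, h2⟩)
    · exact ⟨h1, Or.inl h2⟩
    · exact ⟨h1, Or.inr (Or.inl ⟨trivial, h2⟩)⟩

end IDENT

open IDENT in
theorem blk_IDENT : St_IDENT α := by
  intro G S V U a b hm hU ha hb hab hn haS hbS
  have ha' : a ∈ U.erase b := mem_erase.2 ⟨hab, ha⟩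
  by_cases hc : Colb (idG G a b hn) S (U.erase b)
  · obtain ⟨c, hc⟩ := hc
    have hv : Valid G S (U.erase b) c :=
      ⟨fun u hu v hv huv hs => hc.1 u hu v hv (Or.inl huv) hs,
        fun u hu v hv w hw h1 h2 => hc.2 u hu v hv w hw (Or.inl h1) (Or.inl h2)⟩
    have h1 := hv.insert_free (notMem_erase b U) (k := c a) fun v hv' hbv =>
      (hc.1 a ha' v hv' (Or.inr (Or.inl ⟨rfl, hbv⟩)) haS).symm
    rw [insert_erase hb] at h1
    exact Or.inl ⟨_, h1, by rw [Function.update_of_ne hab, Function.update_self]⟩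
  · right
    have hlt : (U.erase b).card < V.card :=
      (card_erase_lt_of_mem hb).trans_le (card_le_card hU)
    obtain ⟨K, hK, hd⟩ := hm.exists_dense hlt hc
    have hbK : b ∉ K := fun h => notMem_erase b U (hK h)
    have hKU : K ⊆ U := hK.trans (erase_subset b U)
    have haK : a ∈ K := by
      by_contra haK
      apply hm.sp K (hKU.trans hU)
      unfold Dense at hd ⊢
      rwa [rho_idG haK] at hd
    refine ⟨insert b K, insert_subset hb hKU, mem_insert_of_mem haK, mem_insert_self _ _, ?_⟩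
    have e1 := rho_erase (G := idG G a b hn) (S := S) haK
    have e2 := rho_erase (G := G) (S := S) haK
    have e3 := rho_insert (G := G) (S := S) hbK
    rw [rho_idG (notMem_erase a K)] at e1
    rw [wt_S hbS] at e3
    have e4 : (nb G K a ∪ nb G K b).card + (nb G K a ∩ nb G K b).card =
        dg G K a + dg G K b := card_union_add_card_inter _ _
    have e5 : dg (idG G a b hn) K a = (nb G K a ∪ nb G K b).card := by
      unfold dg
      rw [nb_idG]
    have e6 : nb G (insert b K) a ∩ nb G (insert b K) b = nb G K a ∩ nb G K b := by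
      ext u
      simp only [mem_inter, mem_nb, mem_insert]
      constructor
      · rintro ⟨⟨rfl | h1, h2⟩, -, h3⟩
        · exact absurd h2 hn
        · exact ⟨⟨h1, h2⟩, h1, h3⟩
      · rintro ⟨⟨h1, h2⟩, -, h3⟩
        exact ⟨⟨Or.inr h1, h2⟩, Or.inr h1, h3⟩
    rw [e6, card_insert_of_notMem hbK]
    unfold Dense at hd
    omega

end CB1
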