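import Pool.Agent.Lib.MP_cb1d9b_co.Blue

set_option linter.unusedSectionVars false

namespace CB1
open Finset

variable {α : Type} [DecidableEq α]

namespace KER

/-- every subset has a kernel -/
lemma kernel (G : SimpleGraph α) (B I : Finset α) (R : Finset (α × α))
    (hI : ∀ u ∈ I, ∀ v ∈ I, ¬ G.Adj u v)
    (h1 : ∀ u ∈ B, ∀ v ∈ B, G.Adj u v → (u, v) ∈ R ∨ (v, u) ∈ R)
    (h2 : ∀ u ∈ B, ∀ v ∈ B, G.Adj u v → u ∉ I → v ∉ I → (u, v) ∈ R) (D : Finset α) :
    D ⊆ B → ∃ K ⊆ D, (∀ u ∈ K, ∀ v ∈ K, ¬ G.Adj u v) ∧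
      ∀ u ∈ D, u ∉ K → ∃ v ∈ K, G.Adj u v ∧ (u, v) ∈ R := by
  induction' hn : D.card using Nat.strong_induction_on with n ih generalizing D
  intro hD
  by_cases hall : ∀ u ∈ D, u ∉ I → ∃ v ∈ D ∩ I, G.Adj u v ∧ (u, v) ∈ R
  · refine ⟨D ∩ I, inter_subset_left, fun u hu v hv =>
      hI u (mem_inter.1 hu).2 v (mem_inter.1 hv).2, fun u hu huK => ?_⟩
    exact hall u hu fun h => huK (mem_inter.2 ⟨hu, h⟩)
  · push Not at hall
    obtain ⟨b, hbD, hbI, hb⟩ := hall
    have hin : ∀ u ∈ D, G.Adj u b → (u, b) ∈ R := by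
      intro u hu hub
      by_cases huI : u ∈ I
      · rcases h1 u (hD hu) b (hD hbD) hub with h | h
        · exact h
        · exact absurd h (hb u (mem_inter.2 ⟨hu, huI⟩) hub.symm)
      · exact h2 u (hD hu) b (hD hbD) hub huI hbI
    have hsub : D \ insert b (nb G D b) ⊆ D := sdiff_subset
    have hlt : (D \ insert b (nb G D b)).card < n := by
      rw [← hn]
      refine card_lt_card ⟨hsub, fun h => ?_⟩
      exact (mem_sdiff.1 (h hbD)).2 (mem_insert_self _ _)
    obtain ⟨K, hK, hKi, hKa⟩ := ih _ hlt _ rfl (hsub.trans hD)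
    have hnb : ∀ v ∈ K, ¬ G.Adj b v := fun v hv hadj =>
      (mem_sdiff.1 (hK hv)).2 (mem_insert_of_mem (mem_nb.2 ⟨hsub (hK hv), hadj⟩))
    refine ⟨insert b K, insert_subset hbD (hK.trans hsub), fun u hu v hv => ?_,
      fun u hu huK => ?_⟩
    · rcases mem_insert.1 hu with rfl | hu'
      · rcases mem_insert.1 hv with rfl | hv'
        · exact G.irrefl
        · exact hnb v hv'
      · rcases mem_insert.1 hv with rfl | hv'
        · exact fun h => hnb u hu' h.symm
        · exact hKi u hu' v hv'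
    · by_cases hub : G.Adj u b
      · exact ⟨b, mem_insert_self _ _, hub, hin u hu hub⟩
      · have hu' : u ∈ D \ insert b (nb G D b) := by
          refine mem_sdiff.2 ⟨hu, fun h => ?_⟩
          rcases mem_insert.1 h with rfl | h
          · exact huK (mem_insert_self _ _)
          · exact hub (mem_nb.1 h).2.symm
        obtain ⟨v, hv, hadj⟩ := hKa u hu' fun h => huK (mem_insert_of_mem h)
        exact ⟨v, mem_insert_of_mem hv, hadj⟩

end KER

theorem blk_KER : St_KER α := by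
  intro G B I R L hI
  induction' hn : B.card using Nat.strong_induction_on with n ih generalizing B L
  intro h1 h2 hL
  rcases B.eq_empty_or_nonempty with rfl | ⟨u0, hu0⟩
  · exact ⟨fun _ => 0, by simp, by simp⟩
  obtain ⟨k, hk⟩ : (L u0).Nonempty := card_pos.1 (lt_of_le_of_lt (Nat.zero_le _) (hL u0 hu0))
  obtain ⟨K, hK, hKi, hKa⟩ :=
    KER.kernel G B I R hI h1 h2 (B.filter fun u => k ∈ L u) (filter_subset _ _)
  have hKne : K.Nonempty := by
    by_cases h : u0 ∈ K
    · exact ⟨u0, h⟩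
    · obtain ⟨v, hv, -⟩ := hKa u0 (mem_filter.2 ⟨hu0, hk⟩) h
      exact ⟨v, hv⟩
  have hKB : K ⊆ B := hK.trans (filter_subset _ _)
  have hlt : (B \ K).card < n := by
    rw [← hn]
    obtain ⟨v, hv⟩ := hKne
    exact card_lt_card ⟨sdiff_subset, fun h => (mem_sdiff.1 (h (hKB hv))).2 hv⟩
  obtain ⟨c, hc1, hc2⟩ := ih _ hlt (B \ K) (fun u => (L u).erase k) rfl
    (fun u hu v hv => h1 u (mem_sdiff.1 hu).1 v (mem_sdiff.1 hv).1)
    (fun u hu v hv => h2 u (mem_sdiff.1 hu).1 v (mem_sdiff.1 hv).1) (by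
      intro u hu
      obtain ⟨huB, huK⟩ := mem_sdiff.1 hu
      have hsub : (nb G (B \ K) u).filter (fun v => (u, v) ∈ R) ⊆
          (nb G B u).filter (fun v => (u, v) ∈ R) := by
        intro v hv
        obtain ⟨hv1, hv2⟩ := mem_filter.1 hv
        exact mem_filter.2 ⟨mem_nb.2 ⟨(mem_sdiff.1 (mem_nb.1 hv1).1).1, (mem_nb.1 hv1).2⟩, hv2⟩
      have hlt' := hL u huB
      by_cases hku : k ∈ L u
      · obtain ⟨v, hv, hadj, hR⟩ := hKa u (mem_filter.2 ⟨huB, hku⟩) huK
        have hss : ((nb G (B \ K) u).filter (fun v => (u, v) ∈ R)).card <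
            ((nb G B u).filter (fun v => (u, v) ∈ R)).card := by
          refine card_lt_card ⟨hsub, fun h => ?_⟩
          have := h (mem_filter.2 ⟨mem_nb.2 ⟨hKB hv, hadj⟩, hR⟩)
          exact (mem_sdiff.1 (mem_nb.1 (mem_filter.1 this).1).1).2 hv
        rw [card_erase_of_mem hku]
        omega
      · rw [erase_eq_of_notMem hku]
        exact lt_of_le_of_lt (card_le_card hsub) hlt')
  refine ⟨fun u => if u ∈ K then k else c u, fun u hu => ?_, fun u hu v hv hadj => ?_⟩
  · by_cases h : u ∈ K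
    · simp only [h, if_true]
      exact (mem_filter.1 (hK h)).2
    · simp only [h, if_false]
      exact mem_of_mem_erase (hc1 u (mem_sdiff.2 ⟨hu, h⟩))
  · by_cases h : u ∈ K
    · by_cases h' : v ∈ K
      · exact absurd hadj (hKi u h v h')
      · simp only [h, h', if_true, if_false]
        exact (ne_of_mem_erase (hc1 v (mem_sdiff.2 ⟨hv, h'⟩))).symm
    · by_cases h' : v ∈ K
      · simp only [h, h', if_true, if_false]
        exact ne_of_mem_erase (hc1 u (mem_sdiff.2 ⟨hu, h⟩))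
      · simp only [h, h', if_false]
        exact hc2 u (mem_sdiff.2 ⟨hu, h⟩) v (mem_sdiff.2 ⟨hv, h'⟩) hadj

end CB1
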