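import Pool.Agent.Lib.MP_cb1d9b_co.Blue

set_option linter.unusedSectionVars false

namespace CB1
open Finset

variable {α : Type} [DecidableEq α]

namespace ORI

open Classical in
/-- the edges between `X` and `Y` as ordered pairs -/
noncomputable def un (G : SimpleGraph α) (X Y : Finset α) : Finset (α × α) :=
  (X ×ˢ Y).filter fun p => G.Adj p.1 p.2

lemma mem_un {G : SimpleGraph α} {X Y : Finset α} {p : α × α} :
    p ∈ un G X Y ↔ p.1 ∈ X ∧ p.2 ∈ Y ∧ G.Adj p.1 p.2 := by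
  simp [un, and_assoc]

lemma card_un (G : SimpleGraph α) (X Y : Finset α) : (un G X Y).card = EE G X Y := by
  classical
  rw [card_eq_sum_card_fiberwise (f := Prod.fst) (t := X) fun p hp => (mem_un.1 hp).1]
  unfold EE dg
  refine sum_congr rfl fun x hx => ?_
  refine card_bij (fun p _ => p.2) (fun p hp => ?_) (fun p hp q hq h => ?_) fun y hy => ?_
  · obtain ⟨h1, h2⟩ := mem_filter.1 hp
    exact mem_nb.2 ⟨(mem_un.1 h1).2.1, h2 ▸ (mem_un.1 h1).2.2⟩
  · exact Prod.ext ((mem_filter.1 hp).2.trans (mem_filter.1 hq).2.symm) h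
  · exact ⟨(x, y), mem_filter.2 ⟨mem_un.2 ⟨hx, (mem_nb.1 hy).1, (mem_nb.1 hy).2⟩, rfl⟩, rfl⟩

end ORI

open ORI in
theorem blk_ORI : St_ORI α := by
  classical
  intro G X Y n hd h
  let sl : Finset (Σ _ : α, ℕ) := (X ∪ Y).sigma fun v => range (n v)
  let t : sl → Finset (α × α) := fun a => (un G X Y).filter fun p => p.1 = a.1.1 ∨ p.2 = a.1.1
  have hall : ∀ s : Finset sl, s.card ≤ (s.biUnion t).card := by
    intro s
    set Z := s.image fun a => a.1.1 with hZ
    have h1 : s.card ≤ ∑ v ∈ X ∩ Z, n v + ∑ v ∈ Y ∩ Z, n v := by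
      rw [← sum_union (hd.mono inter_subset_left inter_subset_left), ← union_inter_distrib_right]
      have : (((X ∪ Y) ∩ Z).sigma fun v => range (n v)).card = ∑ v ∈ (X ∪ Y) ∩ Z, n v := by
        simp [card_sigma]
      rw [← this]
      refine card_le_card_of_injOn (fun a => a.1) (fun a ha => ?_) fun a _ b _ e => Subtype.ext e
      have := mem_sigma.1 a.2
      exact mem_coe.2 (mem_sigma.2 ⟨mem_inter.2 ⟨this.1, mem_image_of_mem _ ha⟩, this.2⟩)
    have h2 := h (X \ Z) sdiff_subset (Y \ Z) sdiff_subset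
    rw [← sum_inter_add_sum_sdiff X Z n, ← sum_inter_add_sum_sdiff Y Z n, ← card_un, ← card_un] at h2
    have h3 : un G X Y ⊆ s.biUnion t ∪ un G (X \ Z) (Y \ Z) := by
      intro p hp
      by_cases e : p.1 ∈ Z ∨ p.2 ∈ Z
      · refine mem_union_left _ (mem_biUnion.2 ?_)
        rcases e with e | e <;> obtain ⟨a, ha, e⟩ := mem_image.1 e
        · exact ⟨a, ha, mem_filter.2 ⟨hp, Or.inl e.symm⟩⟩
        · exact ⟨a, ha, mem_filter.2 ⟨hp, Or.inr e.symm⟩⟩
      · push Not at e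
        obtain ⟨a, b, c⟩ := mem_un.1 hp
        exact mem_union_right _ (mem_un.2 ⟨mem_sdiff.2 ⟨a, e.1⟩, mem_sdiff.2 ⟨b, e.2⟩, c⟩)
    have := (card_le_card h3).trans (card_union_le _ _)
    omega
  obtain ⟨f, hf, hft⟩ := (all_card_le_biUnion_card_iff_exists_injective t).1 hall
  have key : ∀ v ∈ X ∪ Y, ∀ (T : Finset α) (g : α × α → α),
      (∀ a : sl, a.1.1 = v → g (f a) ∈ T) →
      (∀ a b : sl, a.1.1 = v → b.1.1 = v → g (f a) = g (f b) → f a = f b) → n v ≤ T.card := by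
    intro v hv T g h1 h2
    have m : ∀ i : Fin (n v), (⟨v, i.1⟩ : Σ _ : α, ℕ) ∈ sl :=
      fun i => mem_sigma.2 ⟨hv, mem_range.2 i.2⟩
    have := card_le_card_of_injOn (s := (univ : Finset (Fin (n v)))) (t := T)
      (fun i => g (f ⟨_, m i⟩)) (fun i _ => h1 _ rfl) fun i _ j _ e => by
        have := hf (h2 ⟨_, m i⟩ ⟨_, m j⟩ rfl rfl e)
        exact Fin.ext (by simpa using this)
    simpa using this
  refine ⟨(univ.filter fun a : sl => a.1.1 ∈ X).image f, fun x hx => ?_, fun y hy => ?_⟩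
  · have e : ∀ a : sl, a.1.1 = x → (f a).1 = x := fun a ha => by
      obtain ⟨h1, h2⟩ := mem_filter.1 (hft a)
      rcases h2 with h2 | h2
      · exact h2.trans ha
      · exact absurd ((h2.trans ha) ▸ (mem_un.1 h1).2.1) (disjoint_left.1 hd hx)
    refine key x (mem_union_left _ hx) _ Prod.snd (fun a ha => ?_)
      fun a b ha hb k => Prod.ext ((e a ha).trans (e b hb).symm) k
    obtain ⟨-, h2, h3⟩ := mem_un.1 (mem_filter.1 (hft a)).1
    refine mem_filter.2 ⟨mem_nb.2 ⟨h2, e a ha ▸ h3⟩, mem_image.2 ⟨a, by simpa [ha] using hx, ?_⟩⟩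
    exact Prod.ext (e a ha) rfl
  · have e : ∀ a : sl, a.1.1 = y → (f a).2 = y := fun a ha => by
      obtain ⟨h1, h2⟩ := mem_filter.1 (hft a)
      rcases h2 with h2 | h2
      · exact absurd hy (disjoint_left.1 hd ((h2.trans ha) ▸ (mem_un.1 h1).1))
      · exact h2.trans ha
    refine key y (mem_union_right _ hy) _ Prod.fst (fun a ha => ?_)
      fun a b ha hb k => Prod.ext k ((e a ha).trans (e b hb).symm)
    obtain ⟨h1, -, h3⟩ := mem_un.1 (mem_filter.1 (hft a)).1
    refine mem_filter.2 ⟨mem_nb.2 ⟨h1, (e a ha ▸ h3).symm⟩, fun hm => ?_⟩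
    obtain ⟨b, hb, k⟩ := mem_image.1 hm
    have : b = a := hf (k.trans (Prod.ext rfl (e a ha).symm))
    rw [this, mem_filter, ha] at hb
    exact disjoint_left.1 hd hb.2 hy

end CB1
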