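import Pool.Agent.Lib.MP_cb1d9b_co.Blue

set_option linter.unusedSectionVars false

namespace CB1
open Finset

variable {α : Type} [DecidableEq α]

namespace SIX

/-- a set that can be a colour class -/
def Good (G : SimpleGraph α) (S : Set α) (X : Finset α) : Prop :=
  (∀ u ∈ X, ∀ v ∈ X, G.Adj u v → u ∉ S) ∧
  (∀ u ∈ X, ∀ v ∈ X, ∀ w ∈ X, G.Adj u v → G.Adj u w → v = w)

lemma colb_of {G : SimpleGraph α} {S : Set α} {V X0 X1 X2 : Finset α}
    (hV : ∀ v ∈ V, v ∈ X0 ∨ v ∈ X1 ∨ v ∈ X2) (h0 : Good G S X0) (h1 : Good G S X1)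
    (h2 : Good G S X2) : Colb G S V := by
  have hX : ∀ i : Fin 3, Good G S (![X0, X1, X2] i) := by
    intro i
    fin_cases i
    · exact h0
    · exact h1
    · exact h2
  have hc : ∀ v, ∃ i : Fin 3, v ∈ V → v ∈ ![X0, X1, X2] i := by
    intro v
    by_cases hv : v ∈ V
    · rcases hV v hv with h | h | h
      · exact ⟨0, fun _ => h⟩
      · exact ⟨1, fun _ => h⟩
      · exact ⟨2, fun _ => h⟩
    · exact ⟨0, fun h => absurd h hv⟩
  choose c hc using hc
  refine ⟨c, fun u hu v hv huv hS he => ?_, fun u hu v hv w hw huv huw e1 e2 => ?_⟩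
  · exact (hX (c u)).1 u (hc u hu) v (he ▸ hc v hv) huv hS
  · exact (hX (c u)).2 u (hc u hu) v (e1 ▸ hc v hv) w (e2 ▸ hc w hw) huv huw

lemma two_of_card {G : SimpleGraph α} {X : Finset α} (h : X.card ≤ 2) :
    ∀ u ∈ X, ∀ v ∈ X, ∀ w ∈ X, G.Adj u v → G.Adj u w → v = w := by
  intro u hu v hv w hw huv huw
  by_contra hne
  have := two_lt_card.2 ⟨u, hu, v, hv, w, hw, huv.ne, huw.ne, hne⟩
  omega

lemma good_small {G : SimpleGraph α} {S : Set α} {X : Finset α} (h : X.card ≤ 2)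
    (hS : ∀ v ∈ X, v ∉ S) : Good G S X :=
  ⟨fun u hu _ _ _ => hS u hu, two_of_card h⟩

lemma good_single (G : SimpleGraph α) (S : Set α) (s : α) : Good G S {s} := by
  refine ⟨fun u hu v hv huv => ?_, two_of_card (by simp)⟩
  rw [mem_singleton.1 hu, mem_singleton.1 hv] at huv
  exact absurd huv G.irrefl

lemma good_pair {G : SimpleGraph α} (S : Set α) {y u : α} (h : ¬ G.Adj y u) :
    Good G S {y, u} := by
  refine ⟨fun a ha b hb hab => ?_, two_of_card card_le_two⟩
  simp only [mem_insert, mem_singleton] at ha hb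
  rcases ha with rfl | rfl <;> rcases hb with rfl | rfl
  · exact absurd hab G.irrefl
  · exact absurd hab h
  · exact absurd hab.symm h
  · exact absurd hab G.irrefl

lemma good_triple {G : SimpleGraph α} {S : Set α} {y u v : α} (h1 : ¬ G.Adj y u)
    (h2 : ¬ G.Adj y v) (hS : ∀ a ∈ ({y, u, v} : Finset α), a ∉ S) : Good G S {y, u, v} := by
  have key : ∀ a ∈ ({y, u, v} : Finset α), ∀ b ∈ ({y, u, v} : Finset α), G.Adj a b →
      b ∈ ({u, v} : Finset α) := by
    intro a ha b hb hab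
    simp only [mem_insert, mem_singleton] at ha hb ⊢
    rcases hb with rfl | hb
    · rcases ha with rfl | rfl | rfl
      · exact absurd hab G.irrefl
      · exact absurd hab.symm h1
      · exact absurd hab.symm h2
    · exact hb
  refine ⟨fun a ha _ _ _ => hS a ha, fun a ha b hb c hc hab hac => ?_⟩
  exact two_of_card card_le_two a (key b hb a ha hab.symm) b (key a ha b hb hab) c
    (key a ha c hc hac) hab hac

lemma pair_case {G : SimpleGraph α} {S : Set α} {V : Finset α} (hV : V.card = 6) {y u : α}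
    (hy : y ∈ V) (hu : u ∈ V) (hne : y ≠ u) (h : ¬ G.Adj y u)
    (hS : ∀ a ∈ V, a ∈ S → a = y ∨ a = u) : Colb G S V := by
  have hsub : ({y, u} : Finset α) ⊆ V := by
    intro a ha
    simp only [mem_insert, mem_singleton] at ha
    rcases ha with rfl | rfl <;> assumption
  have hR : (V \ {y, u}).card = 4 := by
    rw [card_sdiff_of_subset hsub, card_pair hne, hV]
  obtain ⟨A, hA, hA2⟩ := exists_subset_card_eq (s := V \ {y, u}) (n := 2) (by omega)
  have hRS : ∀ a ∈ V \ {y, u}, a ∉ S := by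
    intro a ha hs
    simp only [mem_sdiff, mem_insert, mem_singleton] at ha
    exact ha.2 (hS a ha.1 hs)
  refine colb_of (X1 := A) (X2 := (V \ {y, u}) \ A) (fun a ha => ?_) (good_pair S h)
    (good_small hA2.le fun a ha => hRS a (hA ha))
    (good_small (by rw [card_sdiff_of_subset hA]; omega) fun a ha => hRS a (mem_sdiff.1 ha).1)
  by_cases h0 : a ∈ ({y, u} : Finset α)
  · exact Or.inl h0
  · by_cases h1 : a ∈ A
    · exact Or.inr (Or.inl h1)
    · exact Or.inr (Or.inr (mem_sdiff.2 ⟨mem_sdiff.2 ⟨ha, h0⟩, h1⟩))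

end SIX

open SIX in
theorem blk_SIX : St_SIX α := by
  intro G S V hV hS ⟨y, hy, hd⟩
  obtain ⟨s, hs, hsS⟩ : ∃ s ∈ V, ∀ a ∈ V, a ∈ S → a = s := by
    by_cases h : ∃ s ∈ V, s ∈ S
    · obtain ⟨s, h1, h2⟩ := h
      exact ⟨s, h1, fun a ha haS => hS a ha s h1 haS h2⟩
    · exact ⟨y, hy, fun a ha haS => absurd ⟨a, ha, haS⟩ h⟩
  have hc : 1 < (V.erase y \ nb G V y).card := by
    have h1 := le_card_sdiff (nb G V y) (V.erase y)
    rw [card_erase_of_mem hy, hV] at h1
    unfold dg at hd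
    omega
  obtain ⟨u, hu, v, hv, huv⟩ := one_lt_card.1 hc
  simp only [mem_sdiff, mem_erase, mem_nb, not_and] at hu hv
  have nu : ¬ G.Adj y u := hu.2 hu.1.2
  have nv : ¬ G.Adj y v := hv.2 hv.1.2
  by_cases c1 : s = y ∨ s = u
  · exact pair_case hV hy hu.1.2 hu.1.1.symm nu fun a ha haS => hsS a ha haS ▸ c1
  by_cases c2 : s = v
  · exact pair_case hV hy hv.1.2 hv.1.1.symm nv fun a ha haS => Or.inr ((hsS a ha haS).trans c2)
  have hsub : ({y, u, v} : Finset α) ⊆ V := by
    intro a ha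
    simp only [mem_insert, mem_singleton] at ha
    rcases ha with rfl | rfl | rfl
    · exact hy
    · exact hu.1.2
    · exact hv.1.2
  have hsn : s ∉ ({y, u, v} : Finset α) := by
    simp only [mem_insert, mem_singleton]
    tauto
  have h3 : ({y, u, v} : Finset α).card = 3 :=
    card_eq_three.2 ⟨y, u, v, hu.1.1.symm, hv.1.1.symm, huv, rfl⟩
  have hsR : s ∈ V \ {y, u, v} := mem_sdiff.2 ⟨hs, hsn⟩
  refine colb_of (X1 := {s}) (X2 := (V \ {y, u, v}).erase s) (fun a ha => ?_)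
    (good_triple nu nv fun a ha haS => hsn (hsS a (hsub ha) haS ▸ ha)) (good_single G S s)
    (good_small ?_ fun a ha haS => ?_)
  · by_cases h0 : a ∈ ({y, u, v} : Finset α)
    · exact Or.inl h0
    · by_cases h1 : a = s
      · exact Or.inr (Or.inl (mem_singleton.2 h1))
      · exact Or.inr (Or.inr (mem_erase.2 ⟨h1, mem_sdiff.2 ⟨ha, h0⟩⟩))
  · rw [card_erase_of_mem hsR, card_sdiff_of_subset hsub, h3, hV]
  · exact (mem_erase.1 ha).1 (hsS a (mem_sdiff.1 (mem_erase.1 ha).2).1 haS)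

end CB1
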