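import Pool.Agent.Lib.MP_cb1d9b_co.Blue

set_option linter.unusedSectionVars false

namespace CB1
open Finset

variable {α : Type} [DecidableEq α]

namespace T1

variable {G : SimpleGraph α} {S : Set α} {V : Finset α}

lemma wt_pair {u v : α} (hu : u ∈ V) (hv : v ∈ V) (hne : u ≠ v) (su : u ∈ S) (sv : v ∈ S) :
    ∑ w ∈ V, wt S w + 26 ≤ 29 * (V.card : ℤ) := by
  have hv' : v ∈ V.erase u := mem_erase.2 ⟨hne.symm, hv⟩
  have e1 := add_sum_erase V (wt S) hu
  have e2 := add_sum_erase (V.erase u) (wt S) hv'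
  have e3 := sum_le_card_nsmul ((V.erase u).erase v) (wt S) 29 fun w _ => wt_le S w
  have c1 := card_erase_add_one hu
  have c2 := card_erase_add_one hv'
  rw [wt_S su] at e1
  rw [wt_S sv] at e2
  rw [nsmul_eq_mul] at e3
  have c3 : (V.card : ℤ) = ((V.erase u).erase v).card + 2 := by
    rw [← c1, ← c2]; push_cast; ring
  linarith

open Classical in
lemma wt_sum (V : Finset α) :
    ∑ w ∈ V, wt S w = 29 * (V.card : ℤ) - 13 * ((V.filter (· ∈ S)).card : ℤ) := by
  induction V using Finset.induction_on with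
  | empty => simp
  | insert v W hv ih =>
    rw [sum_insert hv, ih, card_insert_of_notMem hv, filter_insert]
    split_ifs with h
    · rw [wt_S h, card_insert_of_notMem (fun k => hv (mem_filter.1 k).1)]; push_cast; ring
    · rw [wt_A h]; push_cast; ring

end T1

open T1 in
theorem blk_T1 (hG : St_GAP α) (h6 : St_SIX α) : St_T1 α := by
  classical
  intro G S V hm x hx z hz hxz
  by_contra hzS
  obtain ⟨hxV, hxS, hxd⟩ := mem_AA.1 hx
  have hzx : z ∈ V.erase x := mem_erase.2 ⟨hxz.ne.symm, hz⟩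
  have hn : ¬ Colb G (insert z S) (V.erase x) := by
    rintro ⟨c, hc⟩
    have d2 := dg_erase_adj (G := G) hzx hxz
    rw [dg_erase_not G.irrefl] at d2
    obtain ⟨k, hk⟩ := exists_col_avoid c (X := nb G ((V.erase x).erase z) x)
      (by change dg G _ x ≤ 2; omega)
    have hc2 := (hc.monoS (Set.subset_insert z S)).insert_tok (notMem_erase x V) hxS hzS (k := k)
      (fun w hw hzw => (hc.1 z hzx w hw hzw (Set.mem_insert z S)).symm)
      (fun w hw hxw hwz => hk w (mem_nb.2 ⟨mem_erase.2 ⟨hwz, hw⟩, hxw⟩))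
    rw [insert_erase hxV] at hc2
    exact hm.ncol ⟨_, hc2⟩
  obtain ⟨K, hK, hd⟩ := hm.exists_dense (card_erase_lt_of_mem hxV) hn
  have hKV : K ⊆ V := hK.trans (erase_subset x V)
  have hxK : x ∉ K := fun h => notMem_erase x V (hK h)
  by_cases hzK : z ∈ K
  swap
  · apply hm.sp K hKV
    unfold Dense at hd ⊢
    rwa [rho_token_not hzK] at hd
  unfold Dense at hd
  rw [rho_token_mem hzK hzS] at hd
  obtain ⟨-, h7 | h7 | ⟨x', hx', rfl⟩⟩ :=
    hG G S V K hm hKV (fun e => hxK (e ▸ hxV)) ⟨z, hzK⟩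
  · omega
  · exact hzS (h7.2.1 z hzK)
  obtain rfl : x = x' := by
    by_contra hne
    exact hxK (mem_erase.2 ⟨hne, hxV⟩)
  have e1 := rho_erase (G := G) (S := S) hxV
  rw [wt_A hxS, hxd] at e1
  have e2 := hm.rho_ge (subset_refl V)
  have e3 := card_erase_add_one hxV
  have e4 : ¬ V.card ≤ 5 := fun h => by
    have := hm.rho_ge_small (subset_refl V) h
    push_cast at e1
    omega
  push_cast at e1
  have e5 : V.card = 6 := by omega
  have e6 : rho G S V ≤ -7 := by omega
  refine hm.ncol (h6 G S V e5 (fun u hu v hv su sv => ?_) ⟨x, hxV, hxd.le⟩)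
  by_contra hne
  have f1 := wt_pair hu hv hne su sv
  have f2 := wt_sum (S := S) V
  have f3 := DD_even (G := G) V
  have f4 : (V.filter (· ∈ S)).card ≤ 6 := e5 ▸ card_filter_le V _
  unfold rho at e2 e6
  rw [e5] at f1 f2
  push_cast at f1 f2
  generalize (V.filter (· ∈ S)).card = b at f2 f4
  interval_cases b <;> omega

theorem blk_TWIN (hT : St_T1 α) : St_TWIN α := by
  intro G S V hm x hx y hy e
  by_contra hne
  obtain ⟨hxV, -, -⟩ := mem_AA.1 hx
  obtain ⟨hyV, -, -⟩ := mem_AA.1 hy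
  obtain ⟨c, hc⟩ := hm.colb (erase_subset y V) (fun e => notMem_erase y V (e.symm ▸ hyV))
  have hx' : x ∈ V.erase y := mem_erase.2 ⟨hne, hxV⟩
  have hc2 := hc.insert_free (notMem_erase y V) (k := c x) fun v hv hyv => by
    have hvV := (mem_erase.1 hv).2
    have h1 : v ∈ nb G V x := e ▸ mem_nb.2 ⟨hvV, hyv⟩
    have h2 := (mem_nb.1 h1).2
    exact (hc.ne_of_S_right hx' hv h2 (hT G S V hm x hx v hvV h2)).symm
  rw [insert_erase hyV] at hc2
  exact hm.ncol ⟨_, hc2⟩

end CB1
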