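import Pool.Agent.Lib.MP_cb1d9b_co.Blue

set_option linter.unusedSectionVars false

namespace CB1
open Finset

variable {α : Type} [DecidableEq α]

namespace T2A

variable {G : SimpleGraph α} {S : Set α} {V : Finset α}

lemma adj {x z1 z2 z3 : α} (h : Cfg G S V x z1 z2 z3) (v : α) :
    v ∈ V ∧ G.Adj x v ↔ v = z1 ∨ v = z2 ∨ v = z3 := by
  rw [← mem_nb, h.nbx]
  simp

lemma swap {x z1 z2 z3 : α} (h : Cfg G S V x z1 z2 z3) : Cfg G S V x z2 z1 z3 :=
  ⟨h.hx, by rw [h.nbx, insert_comm], h.n12.symm, h.n23, h.n13, h.s2, h.s1, h.s3, h.d2, h.d1⟩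

lemma one (h1 : St_IDENT α) (h2 : St_GAP α) {x z1 z2 z3 : α} (hm : Min G S V)
    (h : Cfg G S V x z1 z2 z3) (hn : ¬ G.Adj z2 z3) :
    ∃ W ⊆ V, x ∉ W ∧ z1 ∉ W ∧ z2 ∈ W ∧ z3 ∈ W ∧ rho G S W ≤ 9 ∧ W.card ≤ 6 := by
  have hxV := (mem_AA.1 h.hx).1
  obtain ⟨v1, a1⟩ := (adj h z1).2 (.inl rfl)
  obtain ⟨v2, a2⟩ := (adj h z2).2 (.inr (.inl rfl))
  obtain ⟨v3, a3⟩ := (adj h z3).2 (.inr (.inr rfl))
  have m1 : z1 ∈ V.erase x := mem_erase.2 ⟨a1.ne', v1⟩
  have hU : (V.erase x).erase z1 ⊆ V := (erase_subset _ _).trans (erase_subset _ _)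
  rcases h1 G S V _ z2 z3 hm hU (mem_erase.2 ⟨h.n12.symm, mem_erase.2 ⟨a2.ne', v2⟩⟩)
    (mem_erase.2 ⟨h.n13.symm, mem_erase.2 ⟨a3.ne', v3⟩⟩) h.n23 hn h.s2 h.s3 with
    ⟨c, hc, e⟩ | ⟨W, hW, b2, b3, hr⟩
  · exfalso
    have d1 := dg_erase_adj (G := G) hxV a1.symm
    rw [h.d1] at d1
    obtain ⟨k, hk⟩ := hc.insert_low (notMem_erase z1 _) (by rw [dg_erase_not G.irrefl]; omega)
    rw [insert_erase m1] at hk
    obtain ⟨k', e1, e2⟩ := exists_col_ne k (c z2)
    have := hk.insert_free (notMem_erase x V) (k := k') fun v hv hxv => by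
      rcases (adj h v).1 ⟨mem_of_mem_erase hv, hxv⟩ with rfl | rfl | rfl
      · rw [Function.update_self]
        exact e1.symm
      · rw [Function.update_of_ne h.n12.symm]
        exact e2.symm
      · rw [Function.update_of_ne h.n13.symm, ← e]
        exact e2.symm
    rw [insert_erase hxV] at this
    exact hm.ncol ⟨_, this⟩
  · have hx : x ∉ W := fun hh => notMem_erase x V (mem_of_mem_erase (hW hh))
    have hz : z1 ∉ W := fun hh => notMem_erase z1 _ (hW hh)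
    have h7 : 7 ≤ rho G S W := by
      rcases (h2 G S V W hm (hW.trans hU) (fun e => hx (e ▸ hxV)) ⟨z2, b2⟩).2 with
        h7 | ⟨-, -, ht⟩ | ⟨x', -, rfl⟩
      · exact h7
      · exact absurd (ht z2 b2 z3 b3 h.n23) hn
      · have e1 : x = x' := by_contra fun e => hx (mem_erase.2 ⟨e, hxV⟩)
        have e2 : z1 = x' := by_contra fun e => hz (mem_erase.2 ⟨e, v1⟩)
        exact absurd (e1.trans e2.symm) a1.ne
    refine ⟨W, hW.trans hU, hx, hz, b2, b3, ?_⟩
    rcases hr with hr | hr <;> omega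

lemma term (hm : Min G S V) {v : α} (hv : v ∈ V) : 13 ≤ 14 * (dg G V v : ℤ) - wt S v ∧
    (v ∉ AA G S V 3 → 26 ≤ 14 * (dg G V v : ℤ) - wt S v) := by
  have h3 := hm.three_le_dg hv
  have := wt_le S v
  refine ⟨by omega, fun h => ?_⟩
  by_cases hS : v ∈ S
  · rw [wt_S hS]
    omega
  · have : dg G V v ≠ 3 := fun e => h (mem_AA.2 ⟨hv, hS, e⟩)
    omega

lemma small (hm : Min G S V) {C : Finset α} (hC : C ⊆ V) (h : C.card ≤ 2) :
    13 * (C.card : ℤ) - 1 ≤ ∑ v ∈ C, (14 * (dg G V v : ℤ) - wt S v) - 7 * (DD G C : ℤ) := by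
  have : C.card = 0 ∨ C.card = 1 ∨ C.card = 2 := by omega
  rcases this with e | e | e
  · rw [card_eq_zero.1 e]
    simp
  · obtain ⟨y, rfl⟩ := card_eq_one.1 e
    have := (term hm (hC (mem_singleton_self y))).1
    rw [sum_singleton, DD_singleton, card_singleton]
    omega
  · obtain ⟨y, y', hne, rfl⟩ := card_eq_two.1 e
    have t1 := term hm (hC (mem_insert_self y _))
    have t2 := term hm (hC (mem_insert_of_mem (mem_singleton_self y')))
    rw [sum_pair hne, DD_insert (by simpa using hne), DD_singleton, e]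
    by_cases ha : G.Adj y y'
    · rw [dg_singleton_adj ha]
      have : y ∉ AA G S V 3 ∨ y' ∉ AA G S V 3 := not_and_or.1 fun hh => hm.not_adj_A3 hh.1 hh.2 ha
      rcases this with hh | hh
      · have := t1.2 hh
        omega
      · have := t2.2 hh
        omega
    · rw [dg_singleton_not ha]
      omega

end T2A

theorem blk_T2A (h1 : St_IDENT α) (h2 : St_GAP α) : St_T2A α := by
  intro G S V x z1 z2 z3 hm h n1 n2
  obtain ⟨W1, s1, x1, b1, b2, b3, r1, -⟩ := T2A.one h1 h2 hm h n2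
  obtain ⟨W2, s2, x2, c2, c1, c3, r2, k2⟩ := T2A.one h1 h2 hm (T2A.swap h) n1
  obtain ⟨hxV, hxS, hxd⟩ := mem_AA.1 h.hx
  have hU : W1 ∪ W2 ⊆ V := union_subset s1 s2
  have hxU : x ∉ W1 ∪ W2 := by simp [x1, x2]
  have e1 := rho_submod (G := G) (S := S) W1 W2
  have e2 := (h2 G S V _ hm hU (fun e => hxU (e ▸ hxV)) ⟨z3, mem_union_left _ b3⟩).1
  have e3 := (h2 G S V (W1 ∩ W2) hm (inter_subset_left.trans s1)
    (fun e => x1 (mem_inter.1 (e ▸ hxV)).1) ⟨z3, mem_inter.2 ⟨b3, c3⟩⟩).1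
  have e4 : dg G (W1 ∪ W2) x = 3 := by
    rw [← hxd]
    refine le_antisymm (dg_mono hU x) (card_le_card fun v hv => ?_)
    refine mem_nb.2 ⟨?_, (mem_nb.1 hv).2⟩
    rcases (T2A.adj h v).1 (mem_nb.1 hv) with rfl | rfl | rfl
    exacts [mem_union_right _ c1, mem_union_left _ b2, mem_union_left _ b3]
  have e5 := rho_insert (G := G) (S := S) hxU
  rw [e4, wt_A hxS] at e5
  have hX : insert x (W1 ∪ W2) = V := by
    by_contra hne
    have := (h2 G S V _ hm (insert_subset hxV hU) hne (insert_nonempty _ _)).1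
    omega
  have hC : W2 \ W1 ⊆ V := sdiff_subset.trans s2
  have hxC : x ∉ W2 \ W1 := fun hh => x2 (mem_sdiff.1 hh).1
  have hz : z1 ∈ W2 \ W1 := mem_sdiff.2 ⟨c1, b1⟩
  have e6 := rho_sdiff (G := G) (S := S) (insert_subset hxV hC)
  have e7 : V \ insert x (W2 \ W1) = W1 := by
    ext v
    simp only [← hX, mem_sdiff, mem_insert, mem_union]
    constructor
    · tauto
    · intro hv
      exact ⟨.inr (.inl hv), fun hh => hh.elim (fun e => x1 (e ▸ hv)) fun hh => hh.2 hv⟩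
  have e8 : dg G (W2 \ W1) x ≤ 1 := card_le_one.2 fun u hu v hv => by
    have key : ∀ w ∈ nb G (W2 \ W1) x, w = z1 := fun w hw => by
      obtain ⟨a1, a2⟩ := mem_nb.1 hw
      rcases (T2A.adj h w).1 ⟨hC a1, a2⟩ with rfl | rfl | rfl
      exacts [rfl, absurd b2 (mem_sdiff.1 a1).2, absurd b3 (mem_sdiff.1 a1).2]
    rw [key u hu, key v hv]
  rw [e7, sum_insert hxC, DD_insert hxC, hxd, wt_A hxS, ← add_sum_erase _ _ hz, h.d1,
    wt_S h.s1] at e6
  have e9 := DD_insert (G := G) (notMem_erase z1 (W2 \ W1))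
  rw [insert_erase hz] at e9
  have e10 := dg_le_card (G := G) ((W2 \ W1).erase z1) z1
  have e11 := hm.rho_ge subset_rfl
  have e12 := card_erase_add_one hz
  have e13 := card_sdiff_add_card_inter W2 W1
  rw [inter_comm] at e13
  by_cases hc : ((W2 \ W1).erase z1).card ≤ 2
  · have := T2A.small hm ((erase_subset _ _).trans hC) hc
    omega
  · have := rho_le_two (G := G) (S := S) ⟨z3, mem_inter.2 ⟨b3, c3⟩⟩ (by omega)
    omega

end CB1
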