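import Pool.Agent.Lib.MP_cb1d9b_co.Blue

set_option linter.unusedSectionVars false

namespace CB1
open Finset

variable {α : Type} [DecidableEq α]

theorem blk_T2B (hI : St_IDENT α) (hG : St_GAP α) : St_T2B α := by
  intro G S V x z1 z2 z3 hm hc a23
  obtain ⟨hxV, hxS, hxd⟩ := mem_AA.1 hc.hx
  have m1 : z1 ∈ nb G V x := by rw [hc.nbx]; simp
  have m2 : z2 ∈ nb G V x := by rw [hc.nbx]; simp
  have m3 : z3 ∈ nb G V x := by rw [hc.nbx]; simp
  obtain ⟨v1, x1⟩ := mem_nb.1 m1
  obtain ⟨v2, x2⟩ := mem_nb.1 m2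
  obtain ⟨v3, x3⟩ := mem_nb.1 m3
  have nbx : ∀ v ∈ V, G.Adj x v → v = z1 ∨ v = z2 ∨ v = z3 := by
    intro v hv hxv
    have : v ∈ nb G V x := mem_nb.2 ⟨hv, hxv⟩
    rw [hc.nbx] at this
    simpa using this
  have three : ∀ W : Finset α, z1 ∈ W → z2 ∈ W → z3 ∈ W → 3 ≤ dg G W x := by
    intro W h1 h2 h3
    have hsub : nb G V x ⊆ nb G W x := by
      intro v hv
      obtain ⟨hv1, hv2⟩ := mem_nb.1 hv
      refine mem_nb.2 ⟨?_, hv2⟩
      rcases nbx v hv1 hv2 with rfl | rfl | rfl <;> assumption
    have := card_le_card hsub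
    unfold dg at hxd ⊢
    omega
  have n1 : z1 ≠ x := x1.ne.symm
  have n2 : z2 ≠ x := x2.ne.symm
  have n3 : z3 ≠ x := x3.ne.symm
  -- adding `x` to a colouring of `V.erase x` where the neighbours use two colours
  have addx : ∀ (c : α → Fin 3) (p q : Fin 3), Valid G S (V.erase x) c →
      (c z1 = p ∨ c z1 = q) → (c z2 = p ∨ c z2 = q) → (c z3 = p ∨ c z3 = q) → False := by
    intro c p q hv h1 h2 h3
    obtain ⟨k, hk1, hk2⟩ := exists_col_ne p q
    have := hv.insert_free (notMem_erase x V) (k := k) (fun v hvV hxv => by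
      rcases nbx v (mem_of_mem_erase hvV) hxv with rfl | rfl | rfl
      · rcases h1 with h | h <;> rw [h] <;> [exact hk1.symm; exact hk2.symm]
      · rcases h2 with h | h <;> rw [h] <;> [exact hk1.symm; exact hk2.symm]
      · rcases h3 with h | h <;> rw [h] <;> [exact hk1.symm; exact hk2.symm])
    rw [insert_erase hxV] at this
    exact hm.ncol ⟨_, this⟩
  have gap : ∀ W ⊆ V, x ∉ W → W.Nonempty → 4 ≤ rho G S W := fun W hW hx hne =>
    (hG G S V W hm hW (fun e => hx (e ▸ hxV)) hne).1
  by_cases a13 : G.Adj z1 z3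
  · by_cases a12 : G.Adj z1 z2
    · -- the four vertices form a dense set
      have e3 : z2 ∉ ({z3} : Finset α) := by simpa using hc.n23
      have e2 : z1 ∉ (insert z2 {z3} : Finset α) := by simp [hc.n12, hc.n13]
      have e1 : x ∉ (insert z1 (insert z2 {z3}) : Finset α) := by
        simp [n1.symm, n2.symm, n3.symm]
      have r3 := rho_insert (G := G) (S := S) e3
      have r2 := rho_insert (G := G) (S := S) e2
      have r1 := rho_insert (G := G) (S := S) e1
      rw [rho_singleton, wt_S hc.s3, wt_S hc.s2] at r3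
      rw [wt_S hc.s1] at r2
      rw [wt_A hxS] at r1
      have d3 : 1 ≤ dg G {z3} z2 := dg_pos (mem_singleton_self z3) a23
      have d2 : 2 ≤ dg G (insert z2 {z3}) z1 :=
        two_le_dg (u := z2) (w := z3) (by simp) (by simp) hc.n23 a12 a13
      have d1 := three (insert z1 (insert z2 {z3})) (by simp) (by simp) (by simp)
      have hsub : insert x (insert z1 (insert z2 ({z3} : Finset α))) ⊆ V := by
        intro v hv
        simp only [mem_insert, mem_singleton] at hv
        rcases hv with rfl | rfl | rfl | rfl <;> assumption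
      have hcard : (insert x (insert z1 (insert z2 ({z3} : Finset α)))).card ≤ 5 := by
        rw [card_insert_of_notMem e1, card_insert_of_notMem e2, card_insert_of_notMem e3,
          card_singleton]
        omega
      have := hm.rho_ge_small hsub hcard
      omega
    · rcases hI G S V (V.erase x) z1 z2 hm (erase_subset x V) (mem_erase.2 ⟨n1, v1⟩)
        (mem_erase.2 ⟨n2, v2⟩) hc.n12 a12 hc.s1 hc.s2 with ⟨c, hv, e⟩ | ⟨W, hW, w1, w2, hr⟩
      · exact addx c (c z1) (c z3) hv (Or.inl rfl) (Or.inl e.symm) (Or.inr rfl)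
      · have hWV : W ⊆ V := hW.trans (erase_subset x V)
        have hxW : x ∉ W := fun h => notMem_erase x V (hW h)
        by_cases w3 : z3 ∈ W
        · have : 1 ≤ (nb G W z1 ∩ nb G W z2).card :=
            card_pos.2 ⟨z3, mem_inter.2 ⟨mem_nb.2 ⟨w3, a13⟩, mem_nb.2 ⟨w3, a23⟩⟩⟩
          have := gap W hWV hxW ⟨z1, w1⟩
          omega
        · have r := rho_insert (G := G) (S := S) w3
          rw [wt_S hc.s3] at r
          have d : 2 ≤ dg G W z3 := two_le_dg w1 w2 hc.n12 a13.symm a23.symm
          have := gap (insert z3 W) (insert_subset v3 hWV)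
            (by simp [n3.symm, hxW]) (insert_nonempty _ _)
          omega
  · have u2 : z2 ∈ V.erase x := mem_erase.2 ⟨n2, v2⟩
    rcases hI G S V ((V.erase x).erase z2) z1 z3 hm
      ((erase_subset _ _).trans (erase_subset x V))
      (mem_erase.2 ⟨hc.n12, mem_erase.2 ⟨n1, v1⟩⟩)
      (mem_erase.2 ⟨hc.n23.symm, mem_erase.2 ⟨n3, v3⟩⟩) hc.n13 a13 hc.s1 hc.s3
      with ⟨c, hv, e⟩ | ⟨W, hW, w1, w3, hr⟩
    · have dz := dg_erase_adj (G := G) hxV x2.symm
      have d2 := hc.d2
      obtain ⟨k, hk⟩ := hv.insert_low (notMem_erase z2 _)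
        (by rw [dg_erase_not G.irrefl]; omega)
      rw [insert_erase u2] at hk
      refine addx _ (c z1) k hk (Or.inl ?_) (Or.inr ?_) (Or.inl ?_)
      · exact Function.update_of_ne hc.n12 _ _
      · exact Function.update_self _ _ _
      · rw [Function.update_of_ne hc.n23.symm]; exact e.symm
    · have hWV : W ⊆ V := hW.trans ((erase_subset _ _).trans (erase_subset x V))
      have h2W : z2 ∉ W := fun h => notMem_erase z2 _ (hW h)
      have hxW : x ∉ W := fun h => notMem_erase x V (mem_of_mem_erase (hW h))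
      have hx' : x ∉ insert z2 W := by simp [n2.symm, hxW]
      have r2 := rho_insert (G := G) (S := S) h2W
      have r1 := rho_insert (G := G) (S := S) hx'
      rw [wt_S hc.s2] at r2
      rw [wt_A hxS] at r1
      have d1 := three (insert z2 W) (mem_insert_of_mem w1) (mem_insert_self _ _)
        (mem_insert_of_mem w3)
      have d2 : 1 ≤ dg G W z2 := dg_pos w3 a23
      have hsub : insert x (insert z2 W) ⊆ V := insert_subset hxV (insert_subset v2 hWV)
      have g1 := hm.rho_ge hsub
      by_cases hd : 2 ≤ dg G W z2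
      · omega
      · have hne : insert x (insert z2 W) ≠ V := by
          intro e
          have h3 := hc.d2
          rw [← e, dg_insert_adj hx' x2.symm, dg_insert_not G.irrefl] at h3
          omega
        have := (hG G S V _ hm hsub hne (insert_nonempty _ _)).1
        omega

end CB1
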