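import Pool.Agent.Lib.MP_cb1d9b_co.Final
import Pool.Agent.Lib.MP_cb1d9b_co.B_CONTR
import Pool.Agent.Lib.MP_cb1d9b_co.B_GAP
import Pool.Agent.Lib.MP_cb1d9b_co.B_SIX
import Pool.Agent.Lib.MP_cb1d9b_co.B_T1
import Pool.Agent.Lib.MP_cb1d9b_co.B_IDENT
import Pool.Agent.Lib.MP_cb1d9b_co.B_T2A
import Pool.Agent.Lib.MP_cb1d9b_co.B_T2B
import Pool.Agent.Lib.MP_cb1d9b_co.B_KER
import Pool.Agent.Lib.MP_cb1d9b_co.B_ORI
import Pool.Agent.Lib.MP_cb1d9b_co.B_KK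
import Pool.Agent.Lib.MP_cb1d9b_co.B_EXT
import Pool.Agent.Lib.MP_cb1d9b_co.B_FL
import Pool.Agent.Lib.MP_cb1d9b_co.B_DEF
import Pool.Agent.Lib.MP_cb1d9b_co.B_CHI
import Pool.Agent.Lib.MP_cb1d9b_co.B_DISI
import Pool.Agent.Lib.MP_cb1d9b_co.B_DIS0

namespace CB1

theorem main_all (α : Type) [DecidableEq α] : St_MAIN α := by
  have hGAP : St_GAP α := blk_GAP blk_CONTR
  have hSIX : St_SIX α := blk_SIX
  have hT1 : St_T1 α := blk_T1 hGAP hSIX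
  have hTW : St_TWIN α := blk_TWIN hT1
  have hID : St_IDENT α := blk_IDENT
  have hT2 : St_T2 α := t2_of α hT1 (blk_T2A hID hGAP) (blk_T2B hID hGAP)
  have hKK : St_KK α := blk_KK blk_ORI blk_KER hT1
  have hEXT : St_EXT α := blk_EXT
  have hFL : St_FL α := blk_FL hEXT
  have hD1 : St_DEF1 α := blk_DEF1 hFL
  have hD2 : St_DEF2 α := blk_DEF2 hFL hGAP hD1
  exact main_of α (blk_DISI hT1 hTW hT2 hKK hD1 (blk_CHI hT1) (blk_HH hT1))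
    (blk_DIS0 hSIX hD1 hD2 (blk_ONE hEXT) (blk_LAST hFL hD1 hD2))

end CB1
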