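import Pool.Agent.Lib.MP_cb1d9b_co.Blue

set_option linter.unusedSectionVars false

namespace CB1
open Finset

variable {α : Type} [DecidableEq α]

namespace KK

lemma glue {G : SimpleGraph α} {S : Set α} {V B : Finset α} {c c' : α → Fin 3}
    (hc : Valid G S (V \ B) c) (h1 : ∀ u ∈ B, ∀ v ∈ V \ B, G.Adj u v → c' u ≠ c v)
    (h2 : ∀ u ∈ B, ∀ v ∈ B, G.Adj u v → c' u ≠ c' v) : Colb G S V := by
  have key : ∀ u ∈ V, ∀ v ∈ V, G.Adj u v →
      (if u ∈ B then c' u else c u) = (if v ∈ B then c' v else c v) → u ∉ B ∧ v ∉ B := by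
    intro u hu v hv huv e
    by_cases a : u ∈ B <;> by_cases b : v ∈ B
    · rw [if_pos a, if_pos b] at e; exact absurd e (h2 u a v b huv)
    · rw [if_pos a, if_neg b] at e; exact absurd e (h1 u a v (mem_sdiff.2 ⟨hv, b⟩) huv)
    · rw [if_neg a, if_pos b] at e
      exact absurd e.symm (h1 v b u (mem_sdiff.2 ⟨hu, a⟩) huv.symm)
    · exact ⟨a, b⟩
  refine ⟨fun v => if v ∈ B then c' v else c v, fun u hu v hv huv hs e => ?_,
    fun u hu v hv w hw huv huw e1 e2 => ?_⟩
  · obtain ⟨a, b⟩ := key u hu v hv huv e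
    simp only [if_neg a, if_neg b] at e
    exact hc.1 u (mem_sdiff.2 ⟨hu, a⟩) v (mem_sdiff.2 ⟨hv, b⟩) huv hs e
  · obtain ⟨a, b⟩ := key u hu v hv huv e1.symm
    obtain ⟨-, d⟩ := key u hu w hw huw e2.symm
    simp only [if_neg a, if_neg b, if_neg d] at e1 e2
    exact hc.2 u (mem_sdiff.2 ⟨hu, a⟩) v (mem_sdiff.2 ⟨hv, b⟩) w (mem_sdiff.2 ⟨hw, d⟩)
      huv huw e1 e2

lemma colour (hK : St_KER α) {G : SimpleGraph α} {S : Set α} {V X Y : Finset α}
    (hm : Min G S V) (hX : X ⊆ AA G S V 3) (hY : Y ⊆ V) (hd : Disjoint X Y)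
    (hne : (X ∪ Y).Nonempty) {R : Finset (α × α)}
    (r1 : ∀ x ∈ X, 1 ≤ ((nb G Y x).filter (fun y => (x, y) ∈ R)).card)
    (r2 : ∀ y ∈ Y, dg G V y - 2 ≤ ((nb G X y).filter (fun x => (x, y) ∉ R)).card) : False := by
  have hB : X ∪ Y ⊆ V := union_subset (hX.trans (AA_subset G S V 3)) hY
  have hind : ∀ u ∈ X, ∀ v ∈ X, ¬ G.Adj u v := fun u hu v hv => hm.not_adj_A3 (hX hu) (hX hv)
  obtain ⟨c, hc⟩ := hm.colb (W := V \ (X ∪ Y)) sdiff_subset (by
    obtain ⟨v, hv⟩ := hne
    intro e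
    have h := hB hv
    rw [← e] at h
    exact (mem_sdiff.1 h).2 hv)
  have hL : ∀ u, 3 ≤ (univ \ (nb G (V \ (X ∪ Y)) u).image c).card + dg G (V \ (X ∪ Y)) u := by
    intro u
    have h1 := card_sdiff_add_card_eq_card (subset_univ ((nb G (V \ (X ∪ Y)) u).image c))
    have h2 : ((nb G (V \ (X ∪ Y)) u).image c).card ≤ dg G (V \ (X ∪ Y)) u := card_image_le
    rw [card_univ, Fintype.card_fin] at h1
    omega
  obtain ⟨c', h1, h2⟩ := hK G (X ∪ Y) X
    (((X ∪ Y) ×ˢ (X ∪ Y)).filter fun p => (p.1 ∈ Y ∧ p.2 ∈ Y) ∨ (p.1 ∈ X ∧ p ∉ R) ∨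
      (p.1 ∈ Y ∧ p.2 ∈ X ∧ (p.2, p.1) ∈ R))
    (fun u => univ \ (nb G (V \ (X ∪ Y)) u).image c) hind
    (by
      intro u hu v hv huv
      have := hind u
      have := hind v
      have := huv.symm
      simp only [mem_filter, mem_product, mem_union] at hu hv ⊢
      by_cases r : (u, v) ∈ R <;> by_cases r' : (v, u) ∈ R <;> grind)
    (by
      intro u hu v hv _ a b
      simp only [mem_filter, mem_product, mem_union] at hu hv ⊢
      grind)
    (by
      intro u hu
      have e1 := dg_sdiff_add (G := G) hB u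
      have e2 := dg_union (G := G) hd u
      have e3 := hL u
      rcases mem_union.1 hu with a | a
      · have a' : u ∉ Y := disjoint_left.1 hd a
        have e4 := r1 u a
        have e5 := card_filter_add_card_filter_not (s := nb G Y u) (fun y => (u, y) ∈ R)
        have e6 := (mem_AA.1 (hX a)).2.2
        refine lt_of_le_of_lt (card_le_card (t := (nb G Y u).filter fun y => ¬ (u, y) ∈ R) ?_) ?_
        · intro v hv
          have := hind u a v
          simp only [mem_filter, mem_product, mem_union, mem_nb] at hv ⊢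
          grind
        · unfold dg at *
          omega
      · have a' : u ∉ X := disjoint_right.1 hd a
        have e4 := r2 u a
        have e5 := card_filter_add_card_filter_not (s := nb G X u) (fun x => (x, u) ∈ R)
        refine lt_of_le_of_lt (card_le_card
          (t := nb G Y u ∪ (nb G X u).filter fun x => (x, u) ∈ R) ?_)
          (lt_of_le_of_lt (card_union_le _ _) ?_)
        · intro v hv
          simp only [mem_filter, mem_product, mem_union, mem_nb] at hv ⊢
          grind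
        · unfold dg at *
          omega)
  refine hm.ncol (glue hc (fun u hu v hv huv e => ?_) h2)
  exact (mem_sdiff.1 (h1 u hu)).2 (mem_image.2 ⟨v, mem_nb.2 ⟨hv, huv⟩, e.symm⟩)

end KK

theorem blk_KK (hO : St_ORI α) (hK : St_KER α) (hT : St_T1 α) : St_KK α := by
  intro G S V hm hI
  by_contra hc
  set I := AA G S V 3 with hIdef
  set N := NI G S V with hN
  have hNV : N ⊆ V := fun z hz => (mem_NI.1 hz).1
  have hd : Disjoint I N := by
    rw [disjoint_left]
    intro z hz hz'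
    obtain ⟨-, x, hx, a⟩ := mem_NI.1 hz'
    exact hm.not_adj_A3 hz hx a
  set n : α → ℕ := fun v => if v ∈ I then 1 else dg G V v - 2 with hn
  set Φ : Finset α × Finset α → ℤ := fun p =>
    ((∑ v ∈ p.1, n v : ℕ) : ℤ) + ((∑ v ∈ p.2, n v : ℕ) : ℤ) - (EE G p.1 p.2 : ℤ) with hΦ
  have h1 : ∑ v ∈ I, n v = I.card := by
    rw [card_eq_sum_ones]
    exact sum_congr rfl fun v hv => if_pos hv
  have h2 : ∑ v ∈ N, n v + 2 * N.card = ∑ v ∈ N, dg G V v := by
    rw [card_eq_sum_ones, mul_sum, ← sum_add_distrib]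
    refine sum_congr rfl fun v hv => ?_
    have := hm.three_le_dg (hNV hv)
    have e : n v = dg G V v - 2 := if_neg (disjoint_right.1 hd hv)
    omega
  have h3 : EE G I N = 3 * I.card := by
    rw [card_eq_sum_ones, mul_sum]
    refine sum_congr rfl fun x hx => ?_
    rw [mul_one, ← (mem_AA.1 hx).2.2]
    unfold dg
    congr 1
    ext z
    simp only [mem_nb]
    exact ⟨fun h => ⟨hNV h.1, h.2⟩, fun h => ⟨mem_NI.2 ⟨h.1, x, hx, h.2.symm⟩, h.2⟩⟩
  have h4 : Φ (I, N) ≤ 0 := by
    simp only [hΦ]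
    omega
  have hmem : (I, N) ∈ (I.powerset ×ˢ N.powerset).filter fun p => (p.1 ∪ p.2).Nonempty := by
    simp only [mem_filter, mem_product, mem_powerset, subset_refl, true_and]
    exact hI.mono subset_union_left
  obtain ⟨⟨X, Y⟩, hp, hmin⟩ := exists_min_image _ Φ ⟨_, hmem⟩
  simp only [mem_filter, mem_product, mem_powerset] at hp
  obtain ⟨⟨hX, hY⟩, hne⟩ := hp
  have hd' : Disjoint X Y := hd.mono hX hY
  obtain ⟨R, r1, r2⟩ := hO G X Y n hd' (by
    intro X' hX' Y' hY'
    have : Φ (X, Y) ≤ Φ (X', Y') := by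
      rcases (X' ∪ Y').eq_empty_or_nonempty with e | e
      · obtain ⟨rfl, rfl⟩ := union_eq_empty.1 e
        refine ((hmin _ hmem).trans h4).trans (le_of_eq ?_)
        simp [hΦ]
      · refine hmin _ ?_
        simp only [mem_filter, mem_product, mem_powerset]
        exact ⟨⟨hX'.trans hX, hY'.trans hY⟩, e⟩
    simp only [hΦ] at this
    omega)
  refine KK.colour hK hm hX (hY.trans hNV) hd' hne (R := R) (fun x hx => ?_) (fun y hy => ?_)
  · have e : n x = 1 := if_pos (hX hx)
    exact e ▸ r1 x hx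
  · have e : n y = dg G V y - 2 := if_neg (disjoint_right.1 hd (hY hy))
    exact e ▸ r2 y hy

end CB1
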