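import Pool.Agent.Lib.MP_cb1d9b_co.Defs

set_option linter.unusedSectionVars false

namespace CB1
open Finset

variable {α : Type} [DecidableEq α] {G : SimpleGraph α} {S : Set α}

lemma nb_subset (W : Finset α) (v : α) : nb G W v ⊆ W := fun _ h => (mem_nb.1 h).1

lemma nb_mono {W W' : Finset α} (h : W ⊆ W') (v : α) : nb G W v ⊆ nb G W' v :=
  fun _ hu => mem_nb.2 ⟨h (mem_nb.1 hu).1, (mem_nb.1 hu).2⟩

lemma dg_mono {W W' : Finset α} (h : W ⊆ W') (v : α) : dg G W v ≤ dg G W' v :=
  card_le_card (nb_mono h v)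

lemma dg_le_card (W : Finset α) (v : α) : dg G W v ≤ W.card := card_le_card (nb_subset W v)

lemma dg_lt_card {W : Finset α} {v : α} (h : v ∈ W) : dg G W v < W.card := by
  apply card_lt_card
  refine ⟨nb_subset W v, fun hh => ?_⟩
  exact G.irrefl (mem_nb.1 (hh h)).2

@[simp] lemma dg_empty (v : α) : dg G ∅ v = 0 := by
  have := dg_le_card (G := G) ∅ v; simpa using this

lemma nb_union (X Y : Finset α) (v : α) : nb G (X ∪ Y) v = nb G X v ∪ nb G Y v := by
  ext u; simp only [mem_nb, mem_union]; tauto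

lemma dg_union {X Y : Finset α} (h : Disjoint X Y) (v : α) :
    dg G (X ∪ Y) v = dg G X v + dg G Y v := by
  unfold dg; rw [nb_union, card_union_of_disjoint]
  exact Disjoint.mono (nb_subset X v) (nb_subset Y v) h

lemma dg_sdiff_add {Y V : Finset α} (h : Y ⊆ V) (v : α) :
    dg G (V \ Y) v + dg G Y v = dg G V v := by
  rw [← dg_union sdiff_disjoint, sdiff_union_of_subset h]

lemma dg_singleton_adj {u v : α} (h : G.Adj v u) : dg G {u} v = 1 := by
  unfold dg; rw [card_eq_one]; refine ⟨u, ?_⟩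
  ext w; simp only [mem_nb, mem_singleton]
  exact ⟨fun hh => hh.1, fun hh => ⟨hh, hh ▸ h⟩⟩

lemma dg_singleton_not {u v : α} (h : ¬ G.Adj v u) : dg G {u} v = 0 := by
  unfold dg; rw [card_eq_zero]; ext w; simp only [mem_nb, mem_singleton, notMem_empty, iff_false]
  rintro ⟨rfl, hh⟩; exact h hh

lemma dg_insert_adj {W : Finset α} {u v : α} (hu : u ∉ W) (h : G.Adj v u) :
    dg G (insert u W) v = dg G W v + 1 := by
  rw [insert_eq, dg_union (by simpa using hu), dg_singleton_adj h]; omega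

lemma dg_insert_not {W : Finset α} {u v : α} (h : ¬ G.Adj v u) :
    dg G (insert u W) v = dg G W v := by
  unfold dg; congr 1; ext w; simp only [mem_nb, mem_insert]
  constructor
  · rintro ⟨rfl | h1, h2⟩
    · exact absurd h2 h
    · exact ⟨h1, h2⟩
  · rintro ⟨h1, h2⟩; exact ⟨Or.inr h1, h2⟩

lemma dg_erase_adj {W : Finset α} {u v : α} (hu : u ∈ W) (h : G.Adj v u) :
    dg G (W.erase u) v + 1 = dg G W v := by
  conv_rhs => rw [← insert_erase hu]
  rw [dg_insert_adj (notMem_erase u W) h]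

lemma dg_erase_not {W : Finset α} {u v : α} (h : ¬ G.Adj v u) :
    dg G (W.erase u) v = dg G W v := by
  by_cases hu : u ∈ W
  · conv_rhs => rw [← insert_erase hu]
    rw [dg_insert_not h]
  · rw [erase_eq_of_notMem hu]

lemma dg_pos {W : Finset α} {u v : α} (hu : u ∈ W) (h : G.Adj v u) : 1 ≤ dg G W v :=
  card_pos.2 ⟨u, mem_nb.2 ⟨hu, h⟩⟩

lemma two_le_dg {W : Finset α} {u w v : α} (hu : u ∈ W) (hw : w ∈ W) (huw : u ≠ w)
    (h : G.Adj v u) (h' : G.Adj v w) : 2 ≤ dg G W v :=
  one_lt_card.2 ⟨u, mem_nb.2 ⟨hu, h⟩, w, mem_nb.2 ⟨hw, h'⟩, huw⟩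

lemma exists_adj_of_dg_pos {W : Finset α} {v : α} (h : 1 ≤ dg G W v) : ∃ u ∈ W, G.Adj v u := by
  obtain ⟨u, hu⟩ := card_pos.1 h
  exact ⟨u, (mem_nb.1 hu).1, (mem_nb.1 hu).2⟩

open Classical in
lemma dg_eq_sum (W : Finset α) (v : α) : dg G W v = ∑ u ∈ W, if G.Adj v u then 1 else 0 := by
  unfold dg nb; rw [card_filter]

lemma EE_comm (X Y : Finset α) : EE G X Y = EE G Y X := by
  classical
  unfold EE; simp only [dg_eq_sum]; rw [sum_comm]
  refine sum_congr rfl fun u _ => sum_congr rfl fun v _ => ?_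
  simp only [G.adj_comm]

lemma EE_union_left {X X' : Finset α} (h : Disjoint X X') (Y : Finset α) :
    EE G (X ∪ X') Y = EE G X Y + EE G X' Y := by unfold EE; rw [sum_union h]

lemma EE_union_right (X : Finset α) {Y Y' : Finset α} (h : Disjoint Y Y') :
    EE G X (Y ∪ Y') = EE G X Y + EE G X Y' := by
  rw [EE_comm, EE_union_left h, EE_comm Y, EE_comm Y']

lemma EE_mono {X X' Y Y' : Finset α} (h : X ⊆ X') (h' : Y ⊆ Y') : EE G X Y ≤ EE G X' Y' :=
  (sum_le_sum fun v _ => dg_mono h' v).trans (sum_le_sum_of_subset h)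

@[simp] lemma EE_empty_left (Y : Finset α) : EE G ∅ Y = 0 := by simp [EE]
@[simp] lemma EE_empty_right (X : Finset α) : EE G X ∅ = 0 := by simp [EE]
@[simp] lemma EE_singleton (v : α) (Y : Finset α) : EE G {v} Y = dg G Y v := by simp [EE]
@[simp] lemma DD_empty : DD G ∅ = 0 := by simp [DD]
@[simp] lemma DD_singleton (v : α) : DD G {v} = 0 := by
  simp [DD, dg_singleton_not (G.irrefl (v := v))]

lemma DD_eq_sum (W : Finset α) : DD G W = ∑ v ∈ W, dg G W v := rfl

lemma DD_union {X Y : Finset α} (h : Disjoint X Y) :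
    DD G (X ∪ Y) = DD G X + DD G Y + 2 * EE G X Y := by
  unfold DD; rw [EE_union_left h, EE_union_right X h, EE_union_right Y h, EE_comm Y X]; ring

lemma DD_insert {W : Finset α} {v : α} (h : v ∉ W) :
    DD G (insert v W) = DD G W + 2 * dg G W v := by
  rw [insert_eq, DD_union (by simpa using h)]; simp

lemma DD_mono {X Y : Finset α} (h : X ⊆ Y) : DD G X ≤ DD G Y := EE_mono h h

lemma DD_even (W : Finset α) : 2 ∣ DD G W := by
  induction W using Finset.induction_on with
  | empty => simp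
  | insert v W hv ih => rw [DD_insert hv]; omega

lemma DD_le (W : Finset α) : DD G W + W.card ≤ W.card * W.card := by
  have : ∑ v ∈ W, (dg G W v + 1) ≤ ∑ v ∈ W, W.card :=
    sum_le_sum fun v hv => dg_lt_card hv
  rw [sum_add_distrib] at this
  simpa [DD_eq_sum] using this

lemma DD_supermod (X Y : Finset α) : DD G X + DD G Y ≤ DD G (X ∪ Y) + DD G (X ∩ Y) := by
  have h1 : X ∪ Y = X ∪ (Y \ X) := by simp
  have h2 : Y = (X ∩ Y) ∪ (Y \ X) := by ext v; simp; tauto
  have d1 : Disjoint X (Y \ X) := disjoint_sdiff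
  have d2 : Disjoint (X ∩ Y) (Y \ X) := Disjoint.mono_left inter_subset_left d1
  have e1 := DD_union (G := G) d1
  have e2 := DD_union (G := G) d2
  have e3 : EE G (X ∩ Y) (Y \ X) ≤ EE G X (Y \ X) := EE_mono inter_subset_left subset_rfl
  rw [← h1] at e1; rw [← h2] at e2; omega

/-- the sum of the degrees of the vertices of `Y` in `V` -/
lemma sum_dg_split {Y V : Finset α} (h : Y ⊆ V) :
    ∑ v ∈ Y, dg G V v = DD G Y + EE G Y (V \ Y) := by
  unfold DD EE; rw [← sum_add_distrib]
  refine sum_congr rfl fun v _ => ?_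
  have := dg_sdiff_add (G := G) h v; omega

@[simp] lemma rho_empty : rho G S ∅ = 0 := by simp [rho]

lemma rho_singleton (v : α) : rho G S {v} = wt S v := by simp [rho]

lemma rho_union {X Y : Finset α} (h : Disjoint X Y) :
    rho G S (X ∪ Y) = rho G S X + rho G S Y - 14 * (EE G X Y : ℤ) := by
  unfold rho; rw [sum_union h, DD_union h]; push_cast; ring

lemma rho_insert {W : Finset α} {v : α} (h : v ∉ W) :
    rho G S (insert v W) = rho G S W + wt S v - 14 * (dg G W v : ℤ) := by
  unfold rho; rw [sum_insert h, DD_insert h]; push_cast; ring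

lemma rho_erase {W : Finset α} {v : α} (h : v ∈ W) :
    rho G S (W.erase v) = rho G S W - wt S v + 14 * (dg G W v : ℤ) := by
  have := rho_insert (G := G) (S := S) (notMem_erase v W)
  rw [insert_erase h, dg_erase_not G.irrefl] at this; linarith

lemma rho_submod (X Y : Finset α) :
    rho G S (X ∪ Y) + rho G S (X ∩ Y) ≤ rho G S X + rho G S Y := by
  have h1 := DD_supermod (G := G) X Y
  have h2 := sum_union_inter (s₁ := X) (s₂ := Y) (f := wt S)
  unfold rho
  have : (DD G X : ℤ) + DD G Y ≤ DD G (X ∪ Y) + DD G (X ∩ Y) := by exact_mod_cast h1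
  linarith

lemma rho_sdiff {Y V : Finset α} (h : Y ⊆ V) :
    rho G S (V \ Y) =
      rho G S V + ∑ v ∈ Y, (14 * (dg G V v : ℤ) - wt S v) - 7 * (DD G Y : ℤ) := by
  have h1 := rho_union (G := G) (S := S) (sdiff_disjoint (s := Y) (t := V))
  rw [sdiff_union_of_subset h, EE_comm] at h1
  have h2 := sum_dg_split (G := G) h
  have h3 : (∑ v ∈ Y, (dg G V v : ℤ)) = DD G Y + EE G Y (V \ Y) := by exact_mod_cast h2
  rw [sum_sub_distrib, ← mul_sum, h3]
  have h4 : rho G S Y = ∑ v ∈ Y, wt S v - 7 * (DD G Y : ℤ) := rfl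
  linarith

/-- total charge -/
lemma rho_eq_sum (V : Finset α) :
    -2 * rho G S V = ∑ v ∈ V, (14 * (dg G V v : ℤ) - 2 * wt S v) := by
  unfold rho; rw [sum_sub_distrib, ← mul_sum, ← mul_sum, DD_eq_sum]; push_cast; ring

lemma rho_token_not {W : Finset α} {p : α} (h : p ∉ W) :
    rho G (insert p S) W = rho G S W := by
  unfold rho; congr 1; refine sum_congr rfl fun v hv => ?_
  have : v ≠ p := fun e => h (e ▸ hv)
  by_cases hS : v ∈ S
  · rw [wt_S hS, wt_S (Set.mem_insert_of_mem _ hS)]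
  · rw [wt_A hS, wt_A (by simp [this, hS])]

lemma rho_token_mem {W : Finset α} {p : α} (h : p ∈ W) (hp : p ∉ S) :
    rho G (insert p S) W = rho G S W - 13 := by
  have h1 := rho_erase (G := G) (S := S) h
  have h2 := rho_erase (G := G) (S := insert p S) h
  rw [rho_token_not (notMem_erase p W), wt_S (Set.mem_insert p S)] at h2
  rw [wt_A hp] at h1; linarith

lemma sum_wt_ge (W : Finset α) : 16 * (W.card : ℤ) ≤ ∑ v ∈ W, wt S v := by
  have := card_nsmul_le_sum W (wt S) 16 (fun v _ => wt_ge S v)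
  simpa [mul_comm] using this

lemma rho_ge_card (W : Finset α) : 16 * (W.card : ℤ) - 7 * (DD G W : ℤ) ≤ rho G S W := by
  have := sum_wt_ge (S := S) W; unfold rho; linarith

lemma rho_le_two {W : Finset α} (hne : W.Nonempty) (h : W.card ≤ 2) : 16 ≤ rho G S W := by
  have h1 := rho_ge_card (G := G) (S := S) W
  have h2 := DD_le (G := G) W
  have h3 := card_pos.2 hne
  have : W.card = 1 ∨ W.card = 2 := by omega
  rcases this with h | h <;> rw [h] at h1 h2 <;> push_cast at h1 <;> omega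

/-- three vertices: potential at least 7 unless they form a triangle of type S -/
lemma rho_three {W : Finset α} (h : W.card = 3) :
    6 ≤ rho G S W ∧ (7 ≤ rho G S W ∨
      ((∀ v ∈ W, v ∈ S) ∧ ∀ u ∈ W, ∀ v ∈ W, u ≠ v → G.Adj u v)) := by
  have h1 := rho_ge_card (G := G) (S := S) W
  have h2 := DD_le (G := G) W
  have h3 := DD_even (G := G) W
  rw [h] at h1 h2; push_cast at h1
  refine ⟨by omega, ?_⟩
  by_contra hc
  rw [not_or, not_and_or] at hc
  rcases hc with ⟨hc1, hc | hc⟩
  · push Not at hc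
    obtain ⟨v, hv, hS⟩ := hc
    have e1 := rho_erase (G := G) (S := S) hv
    have e2 := rho_ge_card (G := G) (S := S) (W.erase v)
    have e3 := DD_le (G := G) (W.erase v)
    have e4 := dg_lt_card (G := G) hv
    rw [card_erase_of_mem hv, h] at e2 e3
    rw [wt_A hS] at e1
    push_cast at e2; omega
  · push Not at hc
    obtain ⟨u, hu, v, hv, huv, hn⟩ := hc
    have e1 := DD_insert (G := G) (notMem_erase u W)
    rw [insert_erase hu] at e1
    have e3 := DD_le (G := G) (W.erase u)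
    have hv' : v ∈ W.erase u := mem_erase.2 ⟨huv.symm, hv⟩
    have e4 := dg_le_card (G := G) ((W.erase u).erase v) u
    rw [dg_erase_not hn, card_erase_of_mem hv', card_erase_of_mem hu, h] at e4
    rw [card_erase_of_mem hu, h] at e3
    omega

lemma df_empty : df G ∅ = 0 := by simp [df]

lemma df_insert {W : Finset α} {v : α} (h : v ∉ W) :
    df G (insert v W) = df G W + 3 - 2 * (dg G W v : ℤ) := by
  unfold df; rw [card_insert_of_notMem h, DD_insert h]; push_cast; ring

lemma df_submod (X Y : Finset α) : df G (X ∪ Y) + df G (X ∩ Y) ≤ df G X + df G Y := by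
  have h1 := DD_supermod (G := G) X Y
  have h2 := card_union_add_card_inter X Y
  unfold df
  have : (DD G X : ℤ) + DD G Y ≤ DD G (X ∪ Y) + DD G (X ∩ Y) := by exact_mod_cast h1
  have : ((X ∪ Y).card : ℤ) + (X ∩ Y).card = X.card + Y.card := by exact_mod_cast h2
  linarith

end CB1
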