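import Pool.Agent.Lib.MP_cb1d9b_co.Basic

set_option linter.unusedSectionVars false

namespace CB1
open Finset

variable {α : Type} [DecidableEq α] {G : SimpleGraph α} {S : Set α} {V : Finset α}

lemma exists_col_ne (a b : Fin 3) : ∃ k : Fin 3, k ≠ a ∧ k ≠ b := by revert a b; decide

lemma exists_col_not_mem {s : Finset (Fin 3)} (h : s.card ≤ 2) : ∃ k, k ∉ s := by
  by_contra hc; push Not at hc
  have : (univ : Finset (Fin 3)) ⊆ s := fun k _ => hc k
  have := card_le_card this
  simp at this; omega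

/-- a colour avoiding a set of at most two vertices -/
lemma exists_col_avoid (c : α → Fin 3) {X : Finset α} (h : X.card ≤ 2) :
    ∃ k, ∀ v ∈ X, c v ≠ k := by
  obtain ⟨k, hk⟩ := exists_col_not_mem (s := X.image c) (card_image_le.trans h)
  exact ⟨k, fun v hv e => hk (mem_image.2 ⟨v, hv, e⟩)⟩

lemma Valid.mono {W W' : Finset α} {c : α → Fin 3} (h : Valid G S W' c) (hW : W ⊆ W') :
    Valid G S W c :=
  ⟨fun u hu v hv => h.1 u (hW hu) v (hW hv),
   fun u hu v hv w hw => h.2 u (hW hu) v (hW hv) w (hW hw)⟩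

lemma Valid.monoS {W : Finset α} {S' : Set α} {c : α → Fin 3} (h : Valid G S' W c)
    (hS : S ⊆ S') : Valid G S W c :=
  ⟨fun u hu v hv huv hs => h.1 u hu v hv huv (hS hs), h.2⟩

lemma Valid.congr {W : Finset α} {c c' : α → Fin 3} (h : Valid G S W c)
    (e : ∀ v ∈ W, c' v = c v) : Valid G S W c' := by
  refine ⟨fun u hu v hv huv hs => ?_, fun u hu v hv w hw h1 h2 h3 h4 => ?_⟩
  · rw [e u hu, e v hv]; exact h.1 u hu v hv huv hs
  · rw [e u hu, e v hv] at h3; rw [e u hu, e w hw] at h4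
    exact h.2 u hu v hv w hw h1 h2 h3 h4

lemma Valid.ne_of_S_right {W : Finset α} {c : α → Fin 3} (h : Valid G S W c) {u v : α}
    (hu : u ∈ W) (hv : v ∈ W) (huv : G.Adj u v) (hs : v ∈ S) : c u ≠ c v :=
  (h.1 v hv u hu huv.symm hs).symm

/-- add a vertex with a colour missing from its neighbourhood -/
lemma Valid.insert_free {W : Finset α} {c : α → Fin 3} (h : Valid G S W c) {x : α} (hx : x ∉ W)
    {k : Fin 3} (hk : ∀ v ∈ W, G.Adj x v → c v ≠ k) :
    Valid G S (insert x W) (Function.update c x k) := by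
  have e : ∀ v ∈ W, Function.update c x k v = c v := fun v hv =>
    Function.update_of_ne (fun (e : v = x) => hx (e ▸ hv)) _ _
  have ex : Function.update c x k x = k := Function.update_self _ _ _
  have key : ∀ u ∈ insert x W, ∀ v ∈ insert x W, G.Adj u v →
      Function.update c x k v = Function.update c x k u → u ∈ W ∧ v ∈ W := by
    intro u hu v hv huv hc
    rcases mem_insert.1 hu with rfl | hu' <;> rcases mem_insert.1 hv with rfl | hv'
    · exact absurd huv G.irrefl
    · rw [e v hv', ex] at hc; exact absurd hc (hk v hv' huv)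
    · rw [e u hu', ex] at hc; exact absurd hc.symm (hk u hu' huv.symm)
    · exact ⟨hu', hv'⟩
  refine ⟨fun u hu v hv huv hs hc => ?_, fun u hu v hv w hw h1 h2 h3 h4 => ?_⟩
  · obtain ⟨hu', hv'⟩ := key u hu v hv huv hc.symm
    rw [e u hu', e v hv'] at hc; exact h.1 u hu' v hv' huv hs hc
  · obtain ⟨hu', hv'⟩ := key u hu v hv h1 h3
    obtain ⟨-, hw'⟩ := key u hu w hw h2 h4
    rw [e u hu', e v hv'] at h3; rw [e u hu', e w hw'] at h4
    exact h.2 u hu' v hv' w hw' h1 h2 h3 h4

/-- add a vertex `x` of type A whose only neighbour of colour `k` can be a vertex `p` of type A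
without a neighbour of its own colour -/
lemma Valid.insert_tok {W : Finset α} {c : α → Fin 3} (h : Valid G S W c) {x p : α} (hx : x ∉ W)
    (hxS : x ∉ S) (hpS : p ∉ S) (hp : ∀ v ∈ W, G.Adj p v → c v ≠ c p)
    {k : Fin 3} (hk : ∀ v ∈ W, G.Adj x v → v ≠ p → c v ≠ k) :
    Valid G S (insert x W) (Function.update c x k) := by
  have e : ∀ v ∈ W, Function.update c x k v = c v := fun v hv =>
    Function.update_of_ne (fun (e : v = x) => hx (e ▸ hv)) _ _
  have ex : Function.update c x k x = k := Function.update_self _ _ _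
  have key : ∀ u ∈ insert x W, ∀ v ∈ insert x W, G.Adj u v →
      Function.update c x k v = Function.update c x k u →
      (u ∈ W ∧ v ∈ W ∧ u ≠ p) ∨ (u = x ∧ v = p) ∨ (u = p ∧ v = x) := by
    intro u hu v hv huv hc
    rcases mem_insert.1 hu with rfl | hu' <;> rcases mem_insert.1 hv with rfl | hv'
    · exact absurd huv G.irrefl
    · rw [e v hv', ex] at hc
      refine Or.inr (Or.inl ⟨rfl, ?_⟩)
      by_contra hne; exact hk v hv' huv hne hc
    · rw [e u hu', ex] at hc
      refine Or.inr (Or.inr ⟨?_, rfl⟩)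
      by_contra hne; exact hk u hu' huv.symm hne hc.symm
    · refine Or.inl ⟨hu', hv', ?_⟩
      rintro rfl
      rw [e u hu', e v hv'] at hc; exact hp v hv' huv hc
  refine ⟨fun u hu v hv huv hs hc => ?_, fun u hu v hv w hw h1 h2 h3 h4 => ?_⟩
  · rcases key u hu v hv huv hc.symm with ⟨hu', hv', -⟩ | ⟨rfl, -⟩ | ⟨rfl, -⟩
    · rw [e u hu', e v hv'] at hc; exact h.1 u hu' v hv' huv hs hc
    · exact hxS hs
    · exact hpS hs
  · rcases key u hu v hv h1 h3 with ⟨hu', hv', hup⟩ | ⟨rfl, rfl⟩ | ⟨rfl, rfl⟩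
    · rcases key u hu w hw h2 h4 with ⟨-, hw', -⟩ | ⟨rfl, -⟩ | ⟨rfl, -⟩
      · rw [e u hu', e v hv'] at h3; rw [e u hu', e w hw'] at h4
        exact h.2 u hu' v hv' w hw' h1 h2 h3 h4
      · exact absurd hu' hx
      · exact absurd rfl hup
    · rcases key u hu w hw h2 h4 with ⟨hu', -, -⟩ | ⟨-, rfl⟩ | ⟨rfl, -⟩
      · exact absurd hu' hx
      · rfl
      · exact absurd h1 G.irrefl
    · rcases key u hu w hw h2 h4 with ⟨-, -, hup⟩ | ⟨rfl, -⟩ | ⟨-, rfl⟩
      · exact absurd rfl hup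
      · exact absurd h1 G.irrefl
      · rfl

/-- a vertex with at most two neighbours can always be added -/
lemma Valid.insert_low {W : Finset α} {c : α → Fin 3} (h : Valid G S W c) {x : α} (hx : x ∉ W)
    (hd : dg G W x ≤ 2) : ∃ k, Valid G S (insert x W) (Function.update c x k) := by
  obtain ⟨k, hk⟩ := exists_col_avoid c (X := nb G W x) hd
  exact ⟨k, h.insert_free hx fun v hv hxv => hk v (mem_nb.2 ⟨hv, hxv⟩)⟩

lemma Sparse.mono {W W' : Finset α} (h : Sparse G S W') (hW : W ⊆ W') : Sparse G S W :=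
  fun X hX => h X (hX.trans hW)

lemma Min.colb (h : Min G S V) {W : Finset α} (hW : W ⊆ V) (hne : W ≠ V) : Colb G S W :=
  h.ih G S W (card_lt_card (ssubset_of_subset_of_ne hW hne)) (h.sp.mono hW)

lemma Min.rho_ge (h : Min G S V) {W : Finset α} (hW : W ⊆ V) : -9 ≤ rho G S W := by
  have := h.sp W hW; unfold Dense at this; omega

lemma Min.rho_ge_small (h : Min G S V) {W : Finset α} (hW : W ⊆ V) (h5 : W.card ≤ 5) :
    -6 ≤ rho G S W := by
  have := h.sp W hW; unfold Dense at this; omega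

/-- a smaller typed graph which is not colourable has a dense set -/
lemma Min.exists_dense (h : Min G S V) {G' : SimpleGraph α} {S' : Set α} {V' : Finset α}
    (hc : V'.card < V.card) (hn : ¬ Colb G' S' V') : ∃ K ⊆ V', Dense G' S' K := by
  by_contra hh; push Not at hh
  exact hn (h.ih G' S' V' hc hh)

lemma Min.three_le_dg (h : Min G S V) {v : α} (hv : v ∈ V) : 3 ≤ dg G V v := by
  by_contra hc
  obtain ⟨c, hc'⟩ := h.colb (erase_subset v V) (fun e => notMem_erase v V (e.symm ▸ hv))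
  obtain ⟨k, hk⟩ := hc'.insert_low (notMem_erase v V)
    (by rw [dg_erase_not G.irrefl]; omega)
  rw [insert_erase hv] at hk
  exact h.ncol ⟨_, hk⟩

lemma Min.nonempty (h : Min G S V) : V.Nonempty := by
  by_contra hc
  rw [not_nonempty_iff_eq_empty] at hc
  exact h.ncol ⟨fun _ => 0, by subst hc; constructor <;> simp⟩

lemma Min.four_le_card (h : Min G S V) : 4 ≤ V.card := by
  obtain ⟨v, hv⟩ := h.nonempty
  have := h.three_le_dg hv
  have := dg_lt_card (G := G) hv
  omega

/-- two vertices of type A and degree 3 are not adjacent -/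
lemma Min.not_adj_A3 (h : Min G S V) {u v : α} (hu : u ∈ AA G S V 3) (hv : v ∈ AA G S V 3) :
    ¬ G.Adj u v := by
  intro huv
  obtain ⟨huV, huS, hud⟩ := mem_AA.1 hu
  obtain ⟨hvV, hvS, hvd⟩ := mem_AA.1 hv
  have hne : u ≠ v := huv.ne
  have hv' : v ∈ V.erase u := mem_erase.2 ⟨hne.symm, hvV⟩
  obtain ⟨c, hc⟩ := h.colb (W := (V.erase u).erase v) ((erase_subset _ _).trans (erase_subset _ _))
    (fun e => notMem_erase v _ (e.symm ▸ hvV))
  have d1 := dg_erase_adj (G := G) huV huv.symm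
  obtain ⟨k, hk⟩ := exists_col_avoid c (X := nb G ((V.erase u).erase v) v)
    (by change dg G _ v ≤ 2; rw [dg_erase_not G.irrefl]; omega)
  have hc1 := hc.insert_free (notMem_erase v _) (k := k) fun w hw hvw => hk w (mem_nb.2 ⟨hw, hvw⟩)
  rw [insert_erase hv'] at hc1
  have d2 := dg_erase_adj (G := G) hv' huv
  rw [dg_erase_not G.irrefl] at d2
  obtain ⟨k', hk'⟩ := exists_col_avoid (Function.update c v k) (X := nb G ((V.erase u).erase v) u)
    (by change dg G _ u ≤ 2; omega)
  have hc2 := hc1.insert_tok (notMem_erase u V) huS hvS (k := k') (fun w hw hvw => by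
    have hwv : w ≠ v := hvw.ne.symm
    rw [Function.update_self, Function.update_of_ne hwv]
    exact hk w (mem_nb.2 ⟨mem_erase.2 ⟨hwv, hw⟩, hvw⟩))
    (fun w hw huw hwv => hk' w (mem_nb.2 ⟨mem_erase.2 ⟨hwv, hw⟩, huw⟩))
  rw [insert_erase huV] at hc2
  exact h.ncol ⟨_, hc2⟩

/-- the three neighbours of a vertex of degree 3 -/
lemma nb_three {x : α} (h : dg G V x = 3) :
    ∃ a b c, a ≠ b ∧ a ≠ c ∧ b ≠ c ∧ nb G V x = {a, b, c} := card_eq_three.1 h

end CB1
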