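import Pool.Agent.Lib.MP_cb1d9b_co.Basic2

set_option linter.unusedSectionVars false

namespace CB1
open Finset

section
variable {α : Type} [DecidableEq α]

open Classical in
/-- the neighbours of the A-vertices of degree 3 -/
noncomputable def NI (G : SimpleGraph α) (S : Set α) (V : Finset α) : Finset α :=
  V.filter (fun z => ∃ x ∈ AA G S V 3, G.Adj z x)

lemma mem_NI {G : SimpleGraph α} {S : Set α} {V : Finset α} {z : α} :
    z ∈ NI G S V ↔ z ∈ V ∧ ∃ x ∈ AA G S V 3, G.Adj z x := by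
  unfold NI; simp

lemma AA_subset (G : SimpleGraph α) (S : Set α) (V : Finset α) (k : ℕ) : AA G S V k ⊆ V :=
  fun _ h => (mem_AA.1 h).1

/-- total charge after every edge between `P = AA G S V 4` and the rest has paid 2 -/
lemma charge_eq (G : SimpleGraph α) (S : Set α) (V : Finset α) :
    -2 * rho G S V = ∑ v ∈ V \ AA G S V 4,
      (14 * (dg G V v : ℤ) - 2 * wt S v - 2 * (dg G (AA G S V 4) v : ℤ))
      + 2 * df G (AA G S V 4) := by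
  set P := AA G S V 4 with hP
  have hPV : P ⊆ V := AA_subset G S V 4
  have h1 := rho_eq_sum (G := G) (S := S) V
  rw [← sum_sdiff hPV] at h1
  have h2 : ∑ v ∈ P, (14 * (dg G V v : ℤ) - 2 * wt S v) = -2 * (P.card : ℤ) := by
    rw [sum_congr rfl (g := fun _ => (-2 : ℤ))]
    · simp [mul_comm]
    · intro v hv
      obtain ⟨-, hS, hd⟩ := mem_AA.1 hv
      rw [hd, wt_A hS]; norm_num
  have h3 := sum_dg_split (G := G) hPV
  have h4 : ∑ v ∈ P, dg G V v = 4 * P.card := by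
    rw [sum_congr rfl (g := fun _ => 4)]
    · simp [mul_comm]
    · intro v hv; exact (mem_AA.1 hv).2.2
  rw [h4, EE_comm] at h3
  have h5 : (∑ v ∈ V \ P, (dg G P v : ℤ)) = EE G (V \ P) P := by unfold EE; push_cast; rfl
  have h6 : (4 * P.card : ℤ) = DD G P + EE G (V \ P) P := by exact_mod_cast h3
  rw [sum_sub_distrib (f := fun v => 14 * (dg G V v : ℤ) - 2 * wt S v), ← mul_sum, h5]
  unfold df; linarith

end

variable (α : Type) [DecidableEq α]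

def St_CONTR : Prop := ∀ (G : SimpleGraph α) (S : Set α) (V W : Finset α), Min G S V →
  W ⊆ V → W ≠ V → 4 ≤ W.card → ∃ K ⊆ V \ W,
    rho G S (W ∪ K) + 16 ≤ rho G S W ∨ (rho G S (W ∪ K) + 13 ≤ rho G S W ∧ K.card ≤ 2)

def St_GAP : Prop := ∀ (G : SimpleGraph α) (S : Set α) (V W : Finset α), Min G S V →
  W ⊆ V → W ≠ V → W.Nonempty → 4 ≤ rho G S W ∧ (7 ≤ rho G S W ∨
    (W.card = 3 ∧ (∀ v ∈ W, v ∈ S) ∧ ∀ u ∈ W, ∀ v ∈ W, u ≠ v → G.Adj u v) ∨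
    ∃ x ∈ AA G S V 3, W = V.erase x)

def St_SIX : Prop := ∀ (G : SimpleGraph α) (S : Set α) (V : Finset α), V.card = 6 →
  (∀ u ∈ V, ∀ v ∈ V, u ∈ S → v ∈ S → u = v) → (∃ y ∈ V, dg G V y ≤ 3) → Colb G S V

def St_T1 : Prop := ∀ (G : SimpleGraph α) (S : Set α) (V : Finset α), Min G S V →
  ∀ x ∈ AA G S V 3, ∀ z ∈ V, G.Adj x z → z ∈ S

def St_TWIN : Prop := ∀ (G : SimpleGraph α) (S : Set α) (V : Finset α), Min G S V →
  ∀ x ∈ AA G S V 3, ∀ y ∈ AA G S V 3, nb G V x = nb G V y → x = y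

def St_IDENT : Prop := ∀ (G : SimpleGraph α) (S : Set α) (V U : Finset α) (a b : α), Min G S V →
  U ⊆ V → a ∈ U → b ∈ U → a ≠ b → ¬ G.Adj a b → a ∈ S → b ∈ S →
  (∃ c, Valid G S U c ∧ c a = c b) ∨ ∃ W ⊆ U, a ∈ W ∧ b ∈ W ∧
    (rho G S W + 14 * ((nb G W a ∩ nb G W b).card : ℤ) ≤ 6 ∨
      (rho G S W + 14 * ((nb G W a ∩ nb G W b).card : ℤ) ≤ 9 ∧ W.card ≤ 6))

/-- the configuration `x` of type A and degree 3 with neighbours `z1 z2 z3`, `z1 z2` of degree 3 -/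
structure Cfg {α : Type} [DecidableEq α] (G : SimpleGraph α) (S : Set α) (V : Finset α)
    (x z1 z2 z3 : α) : Prop where
  hx : x ∈ AA G S V 3
  nbx : nb G V x = {z1, z2, z3}
  n12 : z1 ≠ z2
  n13 : z1 ≠ z3
  n23 : z2 ≠ z3
  s1 : z1 ∈ S
  s2 : z2 ∈ S
  s3 : z3 ∈ S
  d1 : dg G V z1 = 3
  d2 : dg G V z2 = 3

def St_T2A : Prop := ∀ (G : SimpleGraph α) (S : Set α) (V : Finset α) (x z1 z2 z3 : α),
  Min G S V → Cfg G S V x z1 z2 z3 → ¬ G.Adj z1 z3 → ¬ G.Adj z2 z3 → False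

def St_T2B : Prop := ∀ (G : SimpleGraph α) (S : Set α) (V : Finset α) (x z1 z2 z3 : α),
  Min G S V → Cfg G S V x z1 z2 z3 → G.Adj z2 z3 → False

def St_T2 : Prop := ∀ (G : SimpleGraph α) (S : Set α) (V : Finset α), Min G S V →
  ∀ x ∈ AA G S V 3, ∀ z1 ∈ V, ∀ z2 ∈ V, G.Adj x z1 → G.Adj x z2 →
    dg G V z1 = 3 → dg G V z2 = 3 → z1 = z2

def St_KER : Prop := ∀ (G : SimpleGraph α) (B I : Finset α) (R : Finset (α × α))
  (L : α → Finset (Fin 3)),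
  (∀ u ∈ I, ∀ v ∈ I, ¬ G.Adj u v) →
  (∀ u ∈ B, ∀ v ∈ B, G.Adj u v → (u, v) ∈ R ∨ (v, u) ∈ R) →
  (∀ u ∈ B, ∀ v ∈ B, G.Adj u v → u ∉ I → v ∉ I → (u, v) ∈ R) →
  (∀ u ∈ B, ((nb G B u).filter (fun v => (u, v) ∈ R)).card < (L u).card) →
  ∃ c : α → Fin 3, (∀ u ∈ B, c u ∈ L u) ∧ ∀ u ∈ B, ∀ v ∈ B, G.Adj u v → c u ≠ c v

def St_ORI : Prop := ∀ (G : SimpleGraph α) (X Y : Finset α) (n : α → ℕ), Disjoint X Y →
  (∀ X' ⊆ X, ∀ Y' ⊆ Y, EE G X' Y' + ∑ v ∈ X, n v + ∑ v ∈ Y, n v ≤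
    EE G X Y + ∑ v ∈ X', n v + ∑ v ∈ Y', n v) →
  ∃ R : Finset (α × α),
    (∀ x ∈ X, n x ≤ ((nb G Y x).filter (fun y => (x, y) ∈ R)).card) ∧
    (∀ y ∈ Y, n y ≤ ((nb G X y).filter (fun x => (x, y) ∉ R)).card)

def St_KK : Prop := ∀ (G : SimpleGraph α) (S : Set α) (V : Finset α), Min G S V →
  (AA G S V 3).Nonempty →
  2 * (AA G S V 3).card + 1 + 2 * (NI G S V).card ≤ ∑ z ∈ NI G S V, dg G V z

def St_EXT : Prop := ∀ (G : SimpleGraph α) (S : Set α) (F B : Finset α) (c : α → Fin 3)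
  (T : Finset (α × α)), Disjoint F B → Valid G S F c → (∀ p ∈ B, p ∉ S) → Tok G S F B c T →
  (∀ p ∈ B, 2 * (hard G F c T p).card + tk T {p} + dg G B p ≤ 5) → Colb G S (F ∪ B)

def St_FL : Prop := ∀ (G : SimpleGraph α) (S : Set α) (F B : Finset α) (c : α → Fin 3)
  (T : Finset (α × α)), Disjoint F B → Valid G S F c →
  (∀ p ∈ B, p ∉ S ∧ dg G (F ∪ B) p ≤ 4) → Tok G S F B c T →
  (∀ Y ⊆ B, df G B - (tk T B : ℤ) ≤ df G Y - (tk T Y : ℤ)) → Colb G S (F ∪ B)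

def St_DEF1 : Prop := ∀ (G : SimpleGraph α) (S : Set α) (V Y : Finset α), Min G S V →
  Y ⊆ AA G S V 4 → Y.Nonempty → 1 ≤ df G Y

def St_DEF2 : Prop := ∀ (G : SimpleGraph α) (S : Set α) (V Y : Finset α) (q p : α), Min G S V →
  AA G S V 3 = ∅ → Y ⊆ AA G S V 4 → q ∈ V → q ∉ Y → q ∉ S → p ∈ Y → G.Adj q p → 2 ≤ df G Y

def St_ONE : Prop := ∀ (G : SimpleGraph α) (S : Set α) (V : Finset α), Min G S V →
  (∀ u ∈ V \ AA G S V 4, ∀ v ∈ V \ AA G S V 4, G.Adj u v → u ∉ S) →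
  (∀ u ∈ V \ AA G S V 4, dg G (V \ AA G S V 4) u ≤ 1) → False

/-- charge inequality when there are A-vertices of degree 3 -/
def St_CHI : Prop := ∀ (G : SimpleGraph α) (S : Set α) (V : Finset α), Min G S V →
  ∑ z ∈ NI G S V, (12 * (dg G V z : ℤ) - 32)
    + 2 * (EE G (NI G S V) (V \ (AA G S V 3 ∪ AA G S V 4)) : ℤ) + 2 * df G (AA G S V 4)
    ≤ 18 + 10 * ((AA G S V 3).card : ℤ)

/-- two non-adjacent S-vertices with at most one neighbour each outside `AA G S V 3`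
which are both adjacent to all A-vertices of degree 3 -/
def St_HH : Prop := ∀ (G : SimpleGraph α) (S : Set α) (V : Finset α) (h1 h2 : α), Min G S V →
  h1 ∈ V → h2 ∈ V → h1 ≠ h2 → ¬ G.Adj h1 h2 → (AA G S V 3).Nonempty →
  (∀ x ∈ AA G S V 3, G.Adj x h1 ∧ G.Adj x h2) →
  dg G (V \ AA G S V 3) h1 ≤ 1 → dg G (V \ AA G S V 3) h2 ≤ 1 → False

def St_DISI : Prop := ∀ (G : SimpleGraph α) (S : Set α) (V : Finset α), Min G S V →
  (AA G S V 3).Nonempty → False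

/-- the last case: one S-vertex of degree 3 adjacent to one of three A-vertices of degree 5 -/
def St_LAST : Prop := ∀ (G : SimpleGraph α) (S : Set α) (V : Finset α) (y q1 q2 q3 : α),
  Min G S V → AA G S V 3 = ∅ → V \ AA G S V 4 = {y, q1, q2, q3} →
  y ≠ q1 → y ≠ q2 → y ≠ q3 → q1 ≠ q2 → q1 ≠ q3 → q2 ≠ q3 →
  q1 ∉ S → q2 ∉ S → q3 ∉ S → ¬ G.Adj q1 q2 → ¬ G.Adj q1 q3 → ¬ G.Adj q2 q3 →
  df G (AA G S V 4) ≤ 2 → False

def St_DIS0 : Prop := ∀ (G : SimpleGraph α) (S : Set α) (V : Finset α), Min G S V →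
  AA G S V 3 = ∅ → False

def St_MAIN : Prop := ∀ (G : SimpleGraph α) (S : Set α) (V : Finset α),
  Sparse G S V → Colb G S V

theorem main_of (h1 : St_DISI α) (h0 : St_DIS0 α) : St_MAIN α := by
  intro G S V
  induction' hn : V.card using Nat.strong_induction_on with n ih generalizing G S V
  intro hsp
  by_contra hc
  have hm : Min G S V := ⟨hc, hsp, fun G' S' V' hlt hs => ih V'.card (hn ▸ hlt) G' S' V' rfl hs⟩
  rcases (AA G S V 3).eq_empty_or_nonempty with h | h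
  · exact h0 G S V hm h
  · exact h1 G S V hm h

theorem t2_of (hT : St_T1 α) (hA : St_T2A α) (hB : St_T2B α) : St_T2 α := by
  intro G S V hm x hx z1 hz1 z2 hz2 a1 a2 d1 d2
  by_contra hne
  have hd := (mem_AA.1 hx).2.2
  have h1 : z1 ∈ nb G V x := mem_nb.2 ⟨hz1, a1⟩
  have h2 : z2 ∈ (nb G V x).erase z1 := mem_erase.2 ⟨Ne.symm hne, mem_nb.2 ⟨hz2, a2⟩⟩
  have hc : (((nb G V x).erase z1).erase z2).card = 1 := by
    rw [card_erase_of_mem h2, card_erase_of_mem h1]; unfold dg at hd; omega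
  obtain ⟨z3, hz3⟩ := card_eq_one.1 hc
  have h3 : z3 ∈ ((nb G V x).erase z1).erase z2 := hz3 ▸ mem_singleton_self z3
  simp only [mem_erase, mem_nb] at h3
  have hnb : nb G V x = {z1, z2, z3} := by
    rw [← hz3, insert_erase h2, insert_erase h1]
  have s1 := hT G S V hm x hx z1 hz1 a1
  have s2 := hT G S V hm x hx z2 hz2 a2
  have s3 := hT G S V hm x hx z3 h3.2.2.1 h3.2.2.2
  have c1 : Cfg G S V x z1 z2 z3 := ⟨hx, hnb, hne, h3.2.1.symm, h3.1.symm, s1, s2, s3, d1, d2⟩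
  have c2 : Cfg G S V x z2 z1 z3 :=
    ⟨hx, by rw [hnb, insert_comm], Ne.symm hne, h3.1.symm, h3.2.1.symm, s2, s1, s3, d2, d1⟩
  by_cases e2 : G.Adj z2 z3
  · exact hB G S V x z1 z2 z3 hm c1 e2
  by_cases e1 : G.Adj z1 z3
  · exact hB G S V x z2 z1 z3 hm c2 e1
  exact hA G S V x z1 z2 z3 hm c1 e1 e2

end CB1
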