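import Mathlib

/-! Typed graphs for 1-improper 3-colourings.  Vertices in `S` must be properly coloured,
the other vertices (type A) may have one neighbour of their own colour. -/

set_option linter.unusedSectionVars false

namespace CB1
open Finset

variable {α : Type} [DecidableEq α]

open Classical in
/-- neighbours of `v` inside `W` -/
noncomputable def nb (G : SimpleGraph α) (W : Finset α) (v : α) : Finset α := W.filter (G.Adj v)

/-- number of neighbours of `v` inside `W` -/
noncomputable def dg (G : SimpleGraph α) (W : Finset α) (v : α) : ℕ := (nb G W v).card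

/-- number of pairs `(u, v)` in `X × Y` with `u` adjacent to `v` -/
noncomputable def EE (G : SimpleGraph α) (X Y : Finset α) : ℕ := ∑ v ∈ X, dg G Y v

/-- twice the number of edges inside `W` -/
noncomputable def DD (G : SimpleGraph α) (W : Finset α) : ℕ := EE G W W

open Classical in
/-- weight of a vertex: 16 for type S, 29 for type A -/
noncomputable def wt (S : Set α) (v : α) : ℤ := if v ∈ S then 16 else 29

/-- the potential: weights minus 14 per edge -/
noncomputable def rho (G : SimpleGraph α) (S : Set α) (W : Finset α) : ℤ :=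
  ∑ v ∈ W, wt S v - 7 * (DD G W : ℤ)

/-- valid colouring of the vertices of `V` -/
def Valid (G : SimpleGraph α) (S : Set α) (V : Finset α) (c : α → Fin 3) : Prop :=
  (∀ u ∈ V, ∀ v ∈ V, G.Adj u v → u ∈ S → c u ≠ c v) ∧
  (∀ u ∈ V, ∀ v ∈ V, ∀ w ∈ V, G.Adj u v → G.Adj u w → c v = c u → c w = c u → v = w)

def Colb (G : SimpleGraph α) (S : Set α) (V : Finset α) : Prop := ∃ c, Valid G S V c

def Dense (G : SimpleGraph α) (S : Set α) (W : Finset α) : Prop :=
  rho G S W ≤ -10 ∨ (rho G S W ≤ -7 ∧ W.card ≤ 5)

def Sparse (G : SimpleGraph α) (S : Set α) (V : Finset α) : Prop := ∀ W ⊆ V, ¬ Dense G S W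

/-- minimal counterexample -/
structure Min (G : SimpleGraph α) (S : Set α) (V : Finset α) : Prop where
  ncol : ¬ Colb G S V
  sp : Sparse G S V
  ih : ∀ (G' : SimpleGraph α) (S' : Set α) (V' : Finset α), V'.card < V.card →
    Sparse G' S' V' → Colb G' S' V'

open Classical in
/-- vertices of type A and degree `k` -/
noncomputable def AA (G : SimpleGraph α) (S : Set α) (V : Finset α) (k : ℕ) : Finset α :=
  V.filter (fun v => v ∉ S ∧ dg G V v = k)

/-- `3 |Y| - 2 e(Y)` -/
noncomputable def df (G : SimpleGraph α) (Y : Finset α) : ℤ := 3 * (Y.card : ℤ) - (DD G Y : ℤ)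

/-- `T` is a legal family of tokens `(q, p)`: `q` is an already coloured vertex of type A without
a neighbour of its own colour in `F`, `p` is an uncoloured neighbour of `q`, and every `q`
gives at most one token. -/
structure Tok (G : SimpleGraph α) (S : Set α) (F B : Finset α) (c : α → Fin 3)
    (T : Finset (α × α)) : Prop where
  memF : ∀ t ∈ T, t.1 ∈ F
  memB : ∀ t ∈ T, t.2 ∈ B
  adj : ∀ t ∈ T, G.Adj t.1 t.2
  notS : ∀ t ∈ T, t.1 ∉ S
  prop : ∀ t ∈ T, ∀ v ∈ F, G.Adj t.1 v → c v ≠ c t.1
  uniq : ∀ t ∈ T, ∀ t' ∈ T, t.1 = t'.1 → t = t'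

/-- number of tokens received by the vertices of `Y` -/
def tk (T : Finset (α × α)) (Y : Finset α) : ℕ := (T.filter (fun t => t.2 ∈ Y)).card

/-- colours of the neighbours of `p` in `F` which do not give a token to `p` -/
noncomputable def hard (G : SimpleGraph α) (F : Finset α) (c : α → Fin 3) (T : Finset (α × α))
    (p : α) : Finset (Fin 3) := ((nb G F p).filter (fun q => (q, p) ∉ T)).image c

@[simp] lemma mem_nb {G : SimpleGraph α} {W : Finset α} {v u : α} :
    u ∈ nb G W v ↔ u ∈ W ∧ G.Adj v u := by
  unfold nb; simp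

lemma mem_AA {G : SimpleGraph α} {S : Set α} {V : Finset α} {k : ℕ} {v : α} :
    v ∈ AA G S V k ↔ v ∈ V ∧ v ∉ S ∧ dg G V v = k := by
  unfold AA; simp

lemma wt_S {S : Set α} {v : α} (h : v ∈ S) : wt S v = 16 := by unfold wt; simp [h]
lemma wt_A {S : Set α} {v : α} (h : v ∉ S) : wt S v = 29 := by unfold wt; simp [h]
lemma wt_ge (S : Set α) (v : α) : 16 ≤ wt S v := by unfold wt; split_ifs <;> norm_num
lemma wt_le (S : Set α) (v : α) : wt S v ≤ 29 := by unfold wt; split_ifs <;> norm_num

end CB1
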