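import Mathlib

namespace CB1

/-- `F → (G)^v_r`: every colouring of the vertices of `F` with `r` colours has a monochromatic
copy of `G` (a not necessarily induced subgraph of `F`). -/
def Arrows {V W : Type} (F : SimpleGraph V) (G : SimpleGraph W) (r : ℕ) : Prop :=
  ∀ c : V → Fin r, ∃ f : G.Copy F, ∃ k : Fin r, ∀ w : W, c (f w) = k

/-- maximum average degree: the maximum of `2 |E(H)| / |V(H)|` over the subgraphs `H` with at
least one vertex -/
noncomputable def mad {n : ℕ} (F : SimpleGraph (Fin n)) : ℝ :=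
  sSup {x : ℝ | ∃ H : F.Subgraph, H.verts.Nonempty ∧
    x = 2 * (H.edgeSet.ncard : ℝ) / (H.verts.ncard : ℝ)}

/-- `m_cr(G, r)`: the infimum of `mad F` over the finite graphs `F` with `F → (G)^v_r` -/
noncomputable def mcr {W : Type} (G : SimpleGraph W) (r : ℕ) : ℝ :=
  sInf {x : ℝ | ∃ (n : ℕ) (F : SimpleGraph (Fin n)), Arrows F G r ∧ x = mad F}

end CB1
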