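import Pool.Agent.Lib.MP_cb1d9b_co.Blue
import Pool.Agent.Lib.MP_cb1d9b_co.MDefs

namespace CB1
open Finset SimpleGraph

lemma path3_adj {i j : Fin 3} : (pathGraph 3).Adj i j ↔ (i = 1 ∧ j ≠ 1) ∨ (j = 1 ∧ i ≠ 1) := by
  rw [pathGraph_adj]; revert i j; decide

lemma arrows_of {V : Type} (F : SimpleGraph V)
    (h : ∀ c : V → Fin 3, ∃ u v w, F.Adj u v ∧ F.Adj u w ∧ c v = c u ∧ c w = c u ∧ v ≠ w) :
    Arrows F (pathGraph 3) 3 := by
  intro c
  obtain ⟨u, v, w, h1, h2, h3, h4, h5⟩ := h c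
  have hu1 : u ≠ v := h1.ne
  have hu2 : u ≠ w := h2.ne
  refine ⟨⟨⟨![v, u, w], ?_⟩, ?_⟩, c u, ?_⟩
  · intro i j hij
    rw [path3_adj] at hij
    fin_cases i <;> fin_cases j <;> simp_all [F.adj_comm]
  · intro i j hij
    fin_cases i <;> fin_cases j <;> simp_all [eq_comm]
  · intro i
    fin_cases i
    · exact h3
    · rfl
    · exact h4

lemma not_colb_of_arrows {n : ℕ} (F : SimpleGraph (Fin n)) (h : Arrows F (pathGraph 3) 3) :
    ¬ Colb F ∅ univ := by
  rintro ⟨c, -, hc⟩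
  obtain ⟨f, k, hk⟩ := h c
  have a1 : F.Adj (f 1) (f 0) := f.toHom.map_adj (path3_adj.2 (by decide))
  have a2 : F.Adj (f 1) (f 2) := f.toHom.map_adj (path3_adj.2 (by decide))
  have := hc (f 1) (mem_univ _) (f 0) (mem_univ _) (f 2) (mem_univ _) a1 a2
    (by rw [hk, hk]) (by rw [hk, hk])
  exact absurd (f.injective this) (by decide)

lemma arrows_top : Arrows (⊤ : SimpleGraph (Fin 7)) (pathGraph 3) 3 := by
  apply arrows_of
  intro c
  obtain ⟨k, -, hk⟩ := exists_lt_card_fiber_of_mul_lt_card_of_maps_to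
    (s := (univ : Finset (Fin 7))) (t := (univ : Finset (Fin 3))) (f := c) (n := 2)
    (fun _ _ => mem_univ _) (by simp)
  obtain ⟨u, hu, v, hv, w, hw, h1, h2, h3⟩ := two_lt_card.1 hk
  simp only [mem_filter, mem_univ, true_and] at hu hv hw
  exact ⟨u, v, w, h1, h2, by rw [hu, hv], by rw [hu, hw], h3⟩

lemma two_mul_edges {n : ℕ} (F : SimpleGraph (Fin n)) (W : Finset (Fin n)) :
    2 * (((⊤ : F.Subgraph).induce (W : Set (Fin n))).edgeSet.ncard) = DD F W := by
  classical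
  set H := (⊤ : F.Subgraph).induce (W : Set (Fin n)) with hH
  have h1 := H.spanningCoe.sum_degrees_eq_twice_card_edges
  have h2 : H.edgeSet.ncard = H.spanningCoe.edgeFinset.card := by
    rw [← Set.ncard_coe_finset, coe_edgeFinset]
    congr 1
  rw [h2, ← h1, DD_eq_sum, ← sum_subset (subset_univ W)]
  · refine sum_congr rfl fun v hv => ?_
    unfold dg
    rw [← card_neighborFinset_eq_degree]
    congr 1
    ext u
    simp [hH, hv]
  · intro v _ hv
    rw [← card_neighborFinset_eq_degree, card_eq_zero]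
    ext u
    simp [hH, hv]

lemma le_mad {n : ℕ} (hM : St_MAIN (Fin n)) (F : SimpleGraph (Fin n))
    (h : Arrows F (pathGraph 3) 3) : (29 : ℝ) / 7 ≤ mad F := by
  have h1 : ¬ Sparse F ∅ univ := fun hs => not_colb_of_arrows F h (hM F ∅ univ hs)
  unfold Sparse at h1
  push Not at h1
  obtain ⟨W, -, hW⟩ := h1
  have h2 : rho F ∅ W ≤ -7 := by unfold Dense at hW; omega
  have h3 : rho F ∅ W = 29 * (W.card : ℤ) - 7 * (DD F W : ℤ) := by
    unfold rho
    rw [sum_congr rfl (g := fun _ => (29 : ℤ)) (fun v _ => wt_A (Set.notMem_empty v))]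
    simp [mul_comm]
  have hne : W.Nonempty := by
    rw [nonempty_iff_ne_empty]; rintro rfl; simp at h2
  have hfin : {x : ℝ | ∃ H : F.Subgraph, H.verts.Nonempty ∧
      x = 2 * (H.edgeSet.ncard : ℝ) / (H.verts.ncard : ℝ)}.Finite := by
    refine (Set.finite_range (fun H : F.Subgraph =>
      2 * (H.edgeSet.ncard : ℝ) / (H.verts.ncard : ℝ))).subset ?_
    rintro x ⟨H, -, rfl⟩; exact ⟨H, rfl⟩
  refine le_trans ?_ (le_csSup hfin.bddAbove
    ⟨(⊤ : F.Subgraph).induce (W : Set (Fin n)), by simpa using hne, rfl⟩)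
  have h4 : (2 : ℝ) * (((⊤ : F.Subgraph).induce (W : Set (Fin n))).edgeSet.ncard : ℝ)
      = DD F W := by exact_mod_cast two_mul_edges F W
  have h5 : (0 : ℝ) < W.card := by exact_mod_cast card_pos.2 hne
  have h6 : 29 * (W.card : ℝ) ≤ 7 * (DD F W : ℝ) := by
    have : 29 * (W.card : ℤ) ≤ 7 * (DD F W : ℤ) := by omega
    exact_mod_cast this
  rw [h4]
  simp only [Subgraph.induce_verts, Set.ncard_coe_finset]
  rw [div_le_div_iff₀ (by norm_num) h5]; linarith

theorem le_mcr (hM : ∀ n, St_MAIN (Fin n)) : (29 : ℝ) / 7 ≤ mcr (pathGraph 3) 3 := by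
  refine le_csInf ⟨_, 7, ⊤, arrows_top, rfl⟩ ?_
  rintro x ⟨n, F, hF, rfl⟩
  exact le_mad (hM n) F hF

end CB1
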